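import Mathlib
import Pool.Agent.helper81.DI.SpecD

/-!
# Project dr (MP_baa4d7_al): reduction of the invariant conjecture of Dade to reduced quotients.
Definitions.

All groups are finite. `Irr`, `IrrOn`, `Defect`, `omega`, `Induces`, `PosDefect`, `IsOp`, `nrm`,
`IsRadical`, `funMap`, `Extension`, `stab`, `kC`, `altSum`, `kext` are those of project dq
(`helper58/DC`), `nz`, `cz`, `PCh`, `cSum`, `rSum`, `cmap`, `ext0`, `stF`, `Cov`, `Ord` those of project
di (`helper81/DI/Defs`).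
-/

set_option autoImplicit false

namespace Pool.Agent.DR

open Pool.Agent.helper58.DC Pool.Agent.DI

/-! ### cocycles and projective characters -/

section coc

variable {Q : Type} [Group Q]

/-- The normalised `2`-cocycles of `Q` with values in `ℂˣ` (trivial action). -/
def Coc (Q : Type) [Group Q] : Subgroup (Q → Q → ℂˣ) where
  carrier := {α | (∀ a b c, α a b * α (a * b) c = α a (b * c) * α b c) ∧
    (∀ a, α 1 a = 1) ∧ ∀ a, α a 1 = 1}
  mul_mem' := by
    rintro α β ⟨h1, h2, h3⟩ ⟨h1', h2', h3'⟩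
    refine ⟨fun a b c => ?_, fun a => ?_, fun a => ?_⟩
    · simp only [Pi.mul_apply]
      calc α a b * β a b * (α (a * b) c * β (a * b) c)
          = (α a b * α (a * b) c) * (β a b * β (a * b) c) := by
            rw [mul_mul_mul_comm]
        _ = _ := by rw [h1, h1', mul_mul_mul_comm]
    · simp [h2, h2']
    · simp [h3, h3']
  one_mem' := by simp
  inv_mem' := by
    rintro α ⟨h1, h2, h3⟩
    refine ⟨fun a b c => ?_, fun a => ?_, fun a => ?_⟩
    · simp only [Pi.inv_apply]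
      rw [← mul_inv, ← mul_inv, h1]
    · simp [h2]
    · simp [h3]

/-- If `u_a u_b = α(a, b) u_{ab}` then `u_q u_n u_q⁻¹ = tw α q n • u_{q n q⁻¹}`. -/
def tw (α : Q → Q → ℂˣ) (q n : Q) : ℂˣ := α q n * (α (q * n * q⁻¹) q)⁻¹

theorem tw_mul (α β : Q → Q → ℂˣ) (q n : Q) : tw (α * β) q n = tw α q n * tw β q n := by
  simp only [tw, Pi.mul_apply, mul_inv]
  rw [mul_mul_mul_comm]

theorem tw_inv (α : Q → Q → ℂˣ) (q n : Q) : tw α⁻¹ q n = (tw α q n)⁻¹ := by
  simp only [tw, Pi.inv_apply, mul_inv]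

/-- The cocycles `κ` for which there is a `Q`-invariant one-dimensional projective representation
`b` of `N` with cocycle `κ`. -/
def Kc (N : Subgroup Q) : Subgroup (Q → Q → ℂˣ) where
  carrier := {κ | κ ∈ Coc Q ∧ ∃ b : Q → ℂˣ,
    (∀ n ∈ N, ∀ n' ∈ N, b n * b n' = κ n n' * b (n * n')) ∧
    ∀ q, ∀ n ∈ N, b n = tw κ q n * b (q * n * q⁻¹)}
  mul_mem' := by
    rintro α β ⟨h, b, h1, h2⟩ ⟨h', b', h1', h2'⟩
    refine ⟨mul_mem h h', fun n => b n * b' n, fun n hn n' hn' => ?_, fun q n hn => ?_⟩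
    · simp only [Pi.mul_apply]
      rw [mul_mul_mul_comm, h1 n hn n' hn', h1' n hn n' hn', mul_mul_mul_comm]
    · rw [tw_mul, mul_mul_mul_comm, ← h2 q n hn, ← h2' q n hn]
  one_mem' := ⟨one_mem _, fun _ => 1, by simp, by simp [tw]⟩
  inv_mem' := by
    rintro α ⟨h, b, h1, h2⟩
    refine ⟨inv_mem h, fun n => (b n)⁻¹, fun n hn n' hn' => ?_, fun q n hn => ?_⟩
    · simp only [Pi.inv_apply]
      rw [← mul_inv, ← mul_inv, h1 n hn n' hn']
    · rw [tw_inv, ← mul_inv, ← h2 q n hn]

/-- `σ` (zero outside `N`) is the character of an irreducible projective representation of `N` of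
dimension `k` with cocycle `β`. (Irreducibility is expressed by the norm; note that
`trace (S n)⁻¹ = (β n n⁻¹)⁻¹ trace (S n⁻¹)`.) -/
structure PIrr (N : Subgroup Q) (β : Q → Q → ℂˣ) (σ : Q → ℂ) (k : ℕ) : Prop where
  off : ∀ n, n ∉ N → σ n = 0
  rep : ∃ (V : Type) (_ : AddCommGroup V) (_ : Module ℂ V) (_ : FiniteDimensional ℂ V)
    (S : Q → Module.End ℂ V), S 1 = 1 ∧
    (∀ n ∈ N, ∀ n' ∈ N, S n * S n' = ((β n n' : ℂˣ) : ℂ) • S (n * n')) ∧
    Module.finrank ℂ V = k ∧ ∀ n ∈ N, σ n = LinearMap.trace ℂ V (S n)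
  norm : ∑ᶠ n ∈ (N : Set Q), σ n * σ n⁻¹ * ((β n n⁻¹ : ℂˣ) : ℂ)⁻¹ = Nat.card N

/-- `Q`-invariance of a projective character of `N`. -/
def PInv (N : Subgroup Q) (β : Q → Q → ℂˣ) (σ : Q → ℂ) : Prop :=
  ∀ q, ∀ n ∈ N, σ n = ((tw β q n : ℂˣ) : ℂ) * σ (q * n * q⁻¹)

/-- The number of invariant irreducible projective characters of `N` with cocycle `β` and
dimension with the property `P`. -/
noncomputable def GN (N : Subgroup Q) (β : Q → Q → ℂˣ) (P : ℕ → Prop) : ℕ :=
  Nat.card {σ : Q → ℂ // ∃ k, PIrr N β σ k ∧ P k ∧ PInv N β σ}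

end coc

section grp

variable {Γ Q : Type} [Group Γ] [Group Q]

/-- `T` is a projective representation of `S` with the cocycle `α` of `Q`, whose restriction to
`S ⊓ q.ker` affords `ψ`. -/
structure AscT (S : Subgroup Γ) (q : Γ →* Q) (ψ : Γ → ℂ) (α : Q → Q → ℂˣ) {V : Type}
    [AddCommGroup V] [Module ℂ V] (T : Γ → Module.End ℂ V) : Prop where
  one : T 1 = 1
  mul : ∀ s ∈ S, ∀ s' ∈ S, T s * T s' = ((α (q s) (q s') : ℂˣ) : ℂ) • T (s * s')
  tr : ∀ h ∈ S ⊓ q.ker, ψ h = LinearMap.trace ℂ V (T h)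

/-- The cocycle `α` of `Q` is associated with the character `ψ` of `S ⊓ q.ker`. -/
def Asc (S : Subgroup Γ) (q : Γ →* Q) (ψ : Γ → ℂ) (α : Q → Q → ℂˣ) : Prop :=
  ∃ (V : Type) (_ : AddCommGroup V) (_ : Module ℂ V) (_ : FiniteDimensional ℂ V)
    (T : Γ → Module.End ℂ V), AscT S q ψ α T

/-- The number of the irreducible characters `φ` of `L`, of defect `D`, invariant under `S`, whose
restriction to `K` is a multiple of `ψ`. -/
noncomputable def inn (p : ℕ) (L S K : Subgroup Γ) (ψ : Γ → ℂ) (D : ℤ) : ℕ :=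
  Nat.card {φ : Γ → ℂ // φ ∈ IrrOn L ∧ (∃ e : ℕ, ∀ x ∈ K, φ x = e * ψ x) ∧
    (∀ s ∈ S, funMap (MulAut.conj s) φ = φ) ∧ Defect p L φ D}

open Classical in
/-- `|N ⊓ G₂|` times the number of `N`-invariant irreducible characters of `N ⊓ G₂` of defect `D` with
`Cov` (for the class sums in `G₁`), if `N` covers `Γ / G₂`; otherwise `0`. -/
noncomputable def hf (p : ℕ) (M : Ideal (integralClosure ℤ ℂ)) (G₁ G₂ : Subgroup Γ) (τ : Γ → ℂ)
    (D : ℤ) (N : Subgroup Γ) : ℤ :=
  if N ⊔ G₂ = ⊤ then (Nat.card (N ⊓ G₂ : Subgroup Γ) : ℤ) *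
    Nat.card {φ : Γ → ℂ // φ ∈ IrrOn (N ⊓ G₂) ∧ (∀ n ∈ N, funMap (MulAut.conj n) φ = φ) ∧
      Defect p (N ⊓ G₂) φ D ∧ Cov M G₁ τ φ} else 0

/-- The restriction of `φ` to `K` is `e` times the sum of the distinct `N`-conjugates of `ψ`. -/
def OverE (K N : Subgroup Γ) (φ ψ : Γ → ℂ) (e : ℕ) : Prop :=
  ∀ x ∈ K, φ x = e * ∑ᶠ ψ' ∈ {ψ' : Γ → ℂ | ∃ n ∈ N, ψ' = funMap (MulAut.conj n) ψ}, ψ' x

/-- The function induced from `S` to `L`. -/
noncomputable def indf (L S : Subgroup Γ) (φ : Γ → ℂ) : Γ → ℂ :=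
  fun x => (Nat.card S : ℂ)⁻¹ * ∑ᶠ t ∈ (L : Set Γ), φ (t⁻¹ * x * t)

/-- `N` is an abelian minimal normal subgroup. -/
structure MinAb (N : Subgroup Q) : Prop where
  ne : N ≠ ⊥
  nor : N.Normal
  min : ∀ K : Subgroup Q, K.Normal → K ≤ N → K = ⊥ ∨ K = N
  comm : ∀ x ∈ N, ∀ y ∈ N, x * y = y * x

/-- `V` is a complement of `N`. -/
def IsCpl (N V : Subgroup Q) : Prop := V ⊓ N = ⊥ ∧ V ⊔ N = ⊤

/-- The number of complements of `N`. -/
noncomputable def ncpl (N : Subgroup Q) : ℕ := Nat.card {V : Subgroup Q // IsCpl N V}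

end grp

/-- `A` is reduced: every abelian minimal normal subgroup `N` of `A` has order prime to `p` and
exactly `|N|` complements. -/
def Red (p : ℕ) (A : Type) [Group A] : Prop :=
  ∀ N : Subgroup A, MinAb N → ¬ p ∣ Nat.card N ∧ ncpl N = Nat.card N

/-- The invariant conjecture for all extensions with quotient isomorphic to `Q`. -/
def InvFor (p : ℕ) (M : Ideal (integralClosure ℤ ℂ)) (Q : Type) [Group Q] : Prop :=
  ∀ (G E A : Type) [Group G] [Group E] [Group A] [Finite G] [Finite E] (X : Extension G E A),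
    Nonempty (A ≃* Q) → IsOp p (⊤ : Subgroup G) ⊥ → ∀ χ ∈ Irr G, PosDefect p M χ →
      ∀ (d : ℤ) (U : Subgroup A), altSum X p M χ d U = 0

/-- The extension `1 → K → Γ → Γ / K → 1`. -/
noncomputable def XQ {Γ : Type} [Group Γ] (K : Subgroup Γ) [K.Normal] : Extension K Γ (Γ ⧸ K) where
  inc := K.subtype
  proj := QuotientGroup.mk' K
  inc_injective := K.subtype_injective
  proj_surjective := QuotientGroup.mk'_surjective K
  exact e := by
    change (e : Γ ⧸ K) = 1 ↔ _
    rw [QuotientGroup.eq_one_iff]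
    exact ⟨fun h => ⟨⟨e, h⟩, rfl⟩, fun ⟨g, hg⟩ => hg ▸ g.2⟩
  act := MulAut.conjNormal
  act_spec e g := MulAut.conjNormal_apply e g

section ext

variable {G E A : Type} [Group G] [Group E] [Group A]

/-- The contribution of the pair `(C, ψ)` to the relation for the normal subgroup `N` of `A`. -/
noncomputable def relT (X : Extension G E A) (p : ℕ) (N : Subgroup A) (C : Finset (Subgroup G))
    (ψ : G → ℂ) (D : ℤ) : ℤ :=
  (Nat.card (X.stab C ψ ⊓ N.comap X.proj : Subgroup E) : ℤ) *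
    inn p (X.stab C ψ ⊓ N.comap X.proj) (X.stab C ψ) (X.stab C ψ ⊓ X.proj.ker) (ext0 X.inc ψ) D

/-- The relation for the normal subgroup `N` of `A`. -/
def Rel (X : Extension G E A) (p : ℕ) (M : Ideal (integralClosure ℤ ℂ)) (χ : G → ℂ)
    (N : Subgroup A) (D : ℤ) : Prop :=
  ∑ᶠ C ∈ {C : Finset (Subgroup G) | IsRadical p C}, (-1) ^ (C.card + 1) *
    ∑ᶠ ψ ∈ {ψ : G → ℂ | ψ ∈ IrrOn (nrm C) ∧ Induces M ψ χ ∧
      (X.stab C ψ).map X.proj ⊔ N = ⊤}, relT X p N C ψ D = 0

end ext

/-! ### the fibre square of an extension -/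

/-- A set with two elements and the trivial action of every group. -/
def TT : Type := Bool

instance : Fintype TT := inferInstanceAs (Fintype Bool)
instance : DecidableEq TT := inferInstanceAs (DecidableEq Bool)

instance (L : Type) [Group L] : MulAction L TT where
  smul _ t := t
  one_smul _ := rfl
  mul_smul _ _ _ := rfl

/-- The two elements. -/
def t₀ : TT := (false : Bool)
/-- The two elements. -/
def t₁ : TT := (true : Bool)

/-- The diagonal cocycle; `KE X (diag A)` is the fibre square of `E` over `A`. -/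
def diag (A : Type) [Group A] : Cocycle A TT A := ⟨fun l _ => l, fun _ _ _ => rfl⟩

/-- The extension `1 → G × G → E ×_A E → A → 1`. -/
noncomputable def X2 {G E A : Type} [Group G] [Group E] [Group A] (X : Extension G E A) :
    Extension (TT → G) (KE X (diag A)) A := kext X (diag A)

/-- The dual of a class function. -/
def dl {G : Type} [Group G] (χ : G → ℂ) : G → ℂ := fun g => χ g⁻¹

/-- The family with the members `a`, `b`. -/
def two {α : Type} (a b : α) : TT → α := fun t => if t = t₀ then a else b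

/-- The characters `χ` and `dl χ` as a family. -/
def fam {G : Type} [Group G] (χ : G → ℂ) : TT → G → ℂ := two χ (dl χ)

section sq

variable {G E A : Type} [Group G] [Group E] [Group A] (X : Extension G E A)

/-- The elements of the fibre square with components in `S t`. -/
def prS (S : TT → Subgroup E) : Subgroup (KE X (diag A)) where
  carrier := {e | ∀ t, e.f t ∈ S t}
  mul_mem' := fun ha hb t => (S t).mul_mem (ha t) (hb t)
  one_mem' := fun t => (S t).one_mem
  inv_mem' := fun ha t => (S t).inv_mem (ha t)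

/-- The image in `A` of the stabiliser of a pair. -/
def Vx (x : Finset (Subgroup G) × (G → ℂ)) : Subgroup A := (X.stab x.1 x.2).map X.proj

/-- The contribution of two pairs to the relation for the fibre square. -/
noncomputable def relP (p : ℕ) (N : Subgroup A) (x y : Finset (Subgroup G) × (G → ℂ)) (D : ℤ) : ℤ :=
  (Nat.card (prS X (two (X.stab x.1 x.2) (X.stab y.1 y.2)) ⊓ N.comap (X2 X).proj :
      Subgroup (KE X (diag A))) : ℤ) *
    inn p (prS X (two (X.stab x.1 x.2) (X.stab y.1 y.2)) ⊓ N.comap (X2 X).proj)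
      (prS X (two (X.stab x.1 x.2) (X.stab y.1 y.2)))
      (prS X (two (X.stab x.1 x.2) (X.stab y.1 y.2)) ⊓ (X2 X).proj.ker)
      (ext0 (X2 X).inc (tens (two x.2 (dl y.2)))) D

end sq

/-! ### the cover of a group -/

section cover

variable (A : Type) [Group A] (n : ℕ)

/-- The normalised cocycles with values in the `n`-th roots of unity. -/
def Bn : Subgroup (A → A → ℂˣ) where
  carrier := {β | β ∈ Coc A ∧ ∀ a b, β a b ^ n = 1}
  mul_mem' := by
    rintro α β ⟨h, h1⟩ ⟨h', h1'⟩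
    refine ⟨mul_mem h h', fun a b => ?_⟩
    simp only [Pi.mul_apply]
    rw [mul_pow, h1, h1', one_mul]
  one_mem' := ⟨one_mem _, by simp⟩
  inv_mem' := by
    rintro α ⟨h, h1⟩
    refine ⟨inv_mem h, fun a b => ?_⟩
    simp only [Pi.inv_apply]
    rw [inv_pow, h1, inv_one]

/-- The characters of the group `Bn A n`. -/
def ZnS : Subgroup (Bn A n → ℂˣ) where
  carrier := {z | ∀ β γ, z (β * γ) = z β * z γ}
  mul_mem' := by
    intro z w hz hw β γ
    simp only [Pi.mul_apply]
    rw [hz, hw, mul_mul_mul_comm]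
  one_mem' := by simp
  inv_mem' := by
    intro z hz β γ
    simp only [Pi.inv_apply]
    rw [hz, mul_inv]

/-- The kernel of the cover: the dual group of `Bn A n`. -/
abbrev Zn : Type := ZnS A n

variable {A}

/-- The universal cocycle with values in `Zn A n`. -/
def uB (a b : A) : Zn A n := ⟨fun β => β.1 a b, fun _ _ => rfl⟩

theorem uB_mul (a b c : A) : uB n a b * uB n (a * b) c = uB n a (b * c) * uB n b c :=
  Subtype.ext (funext fun β => β.2.1.1 a b c)

theorem uB_one_left (a : A) : uB n 1 a = 1 := Subtype.ext (funext fun β => β.2.1.2.1 a)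

theorem uB_one_right (a : A) : uB n a 1 = 1 := Subtype.ext (funext fun β => β.2.1.2.2 a)

theorem uB_inv (a : A) : uB n a a⁻¹ = uB n a⁻¹ a := by
  have h := uB_mul n a a⁻¹ a
  rwa [mul_inv_cancel, inv_mul_cancel, uB_one_left, uB_one_right, mul_one, one_mul] at h

variable (A)

/-- The central extension of `A` by `Zn A n` with the universal cocycle. -/
@[ext] structure Cv where
  /-- the central part -/
  z : Zn A n
  /-- the part in `A` -/
  a : A

variable {A} {n}

instance : Mul (Cv A n) := ⟨fun x y => ⟨x.z * y.z * uB n x.a y.a, x.a * y.a⟩⟩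
instance : One (Cv A n) := ⟨⟨1, 1⟩⟩
instance : Inv (Cv A n) := ⟨fun x => ⟨x.z⁻¹ * (uB n x.a x.a⁻¹)⁻¹, x.a⁻¹⟩⟩

@[simp] theorem Cv.mul_z (x y : Cv A n) : (x * y).z = x.z * y.z * uB n x.a y.a := rfl
@[simp] theorem Cv.mul_a (x y : Cv A n) : (x * y).a = x.a * y.a := rfl
@[simp] theorem Cv.one_z : (1 : Cv A n).z = 1 := rfl
@[simp] theorem Cv.one_a : (1 : Cv A n).a = 1 := rfl
@[simp] theorem Cv.inv_z (x : Cv A n) : x⁻¹.z = x.z⁻¹ * (uB n x.a x.a⁻¹)⁻¹ := rfl
@[simp] theorem Cv.inv_a (x : Cv A n) : x⁻¹.a = x.a⁻¹ := rfl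

instance : Group (Cv A n) where
  mul_assoc x y w := by
    refine Cv.ext ?_ (mul_assoc _ _ _)
    have h := uB_mul n x.a y.a w.a
    simp only [Cv.mul_z, Cv.mul_a]
    calc x.z * y.z * uB n x.a y.a * w.z * uB n (x.a * y.a) w.a
        = x.z * y.z * w.z * (uB n x.a y.a * uB n (x.a * y.a) w.a) := by
          rw [mul_right_comm (x.z * y.z) (uB n x.a y.a) w.z, mul_assoc (x.z * y.z * w.z)]
      _ = x.z * y.z * w.z * (uB n x.a (y.a * w.a) * uB n y.a w.a) := by rw [h]
      _ = _ := by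
          rw [mul_comm (uB n x.a (y.a * w.a)), ← mul_assoc, mul_assoc x.z y.z w.z,
            mul_assoc x.z (y.z * w.z)]
  one_mul x := by
    refine Cv.ext ?_ (one_mul _)
    simp only [Cv.mul_z, Cv.one_z, Cv.one_a, uB_one_left, one_mul, mul_one]
  mul_one x := by
    refine Cv.ext ?_ (mul_one _)
    simp only [Cv.mul_z, Cv.one_z, Cv.one_a, uB_one_right, mul_one]
  inv_mul_cancel x := by
    refine Cv.ext ?_ (inv_mul_cancel _)
    simp only [Cv.mul_z, Cv.inv_z, Cv.inv_a, Cv.one_z]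
    rw [← uB_inv, mul_right_comm x.z⁻¹, inv_mul_cancel, one_mul, inv_mul_cancel]

/-- The projection of the cover. -/
def prC (A : Type) [Group A] (n : ℕ) : Cv A n →* A where
  toFun x := x.a
  map_one' := rfl
  map_mul' _ _ := rfl

end cover

section fc

variable {G E A : Type} [Group G] [Group E] [Group A]

/-- The fibre product of `E` and the cover of `A`. -/
def FC (X : Extension G E A) (n : ℕ) : Subgroup (E × Cv A n) :=
  (X.proj.comp (MonoidHom.fst E (Cv A n))).eqLocus ((prC A n).comp (MonoidHom.snd E (Cv A n)))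

theorem mem_FC (X : Extension G E A) (n : ℕ) (x : E × Cv A n) :
    x ∈ FC X n ↔ X.proj x.1 = x.2.a := Iff.rfl

/-- The projection to `E`. -/
def fcE (X : Extension G E A) (n : ℕ) : FC X n →* E :=
  (MonoidHom.fst E (Cv A n)).comp (FC X n).subtype

/-- The extension `1 → G → E ×_A Cv A n → Cv A n → 1`. -/
noncomputable def XC (X : Extension G E A) (n : ℕ) : Extension G (FC X n) (Cv A n) where
  inc :=
    { toFun := fun g => ⟨(X.inc g, 1), by rw [mem_FC]; exact (X.exact _).2 ⟨g, rfl⟩⟩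
      map_one' := by ext <;> simp
      map_mul' := fun g h => by ext <;> simp }
  proj := (MonoidHom.snd E (Cv A n)).comp (FC X n).subtype
  inc_injective g h hgh := X.inc_injective (congrArg (fun x : FC X n => x.1.1) hgh)
  proj_surjective x := by
    obtain ⟨e, he⟩ := X.proj_surjective x.a
    exact ⟨⟨(e, x), he⟩, rfl⟩
  exact e := by
    constructor
    · intro h
      have h1 : e.1.2 = 1 := h
      have h2 : X.proj e.1.1 = e.1.2.a := e.2
      rw [h1, Cv.one_a] at h2
      obtain ⟨g, hg⟩ := (X.exact _).1 h2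
      exact ⟨g, Subtype.ext (Prod.ext hg h1.symm)⟩
    · rintro ⟨g, rfl⟩
      rfl
  act := X.act.comp (fcE X n)
  act_spec e g := by
    refine Subtype.ext (Prod.ext (X.act_spec _ _) ?_)
    change (1 : Cv A n) = e.1.2 * 1 * (e.1.2)⁻¹
    rw [mul_one, mul_inv_cancel]

end fc

end Pool.Agent.DR
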