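import Mathlib
import Pool.Agent.helper35.DR.Defs

/-!
# Project dr (MP_baa4d7_al), part K: cocycles and projective characters

Rules: see `SpecA.lean`. `u_a u_b = α(a, b) u_{ab}`, `u_q u_n u_q⁻¹ = tw α q n • u_{q n q⁻¹}`.
-/

set_option autoImplicit false

namespace Pool.Agent.DR

open Pool.Agent.helper58.DC Pool.Agent.DI

/-- KTW. Formulas for `tw`. (From associativity of `u_q u_n u_x`, computed in two ways: with
`n' = q n q⁻¹`, `x' = q x q⁻¹`: `α(n, x) α(q, n x) = α(q, n) α(q n, x)`,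
`α(n', q) α(q n, x) = α(n', q x) α(q, x)`, `α(n', x') α((n x)', q) = α(n', q x) α(x', q)`.) -/
def KTW_stmt : Prop :=
  ∀ (Q : Type) [Group Q], ∀ α ∈ Coc Q, ∀ q n x : Q,
    α n x = tw α q n * tw α q x * (tw α q (n * x))⁻¹ * α (q * n * q⁻¹) (q * x * q⁻¹)

/-- KPW. The power `α ^ |N|` is in `Kc N`: `b n = ∏_{x ∈ N} α(n, x)`. (Multiplicativity: product over
`x ∈ N` of `α(n, n' x) α(n', x) = α(n, n') α(n n', x)`. Invariance: product over `x ∈ N` of KTW; `x ↦ n x`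
and `x ↦ q x q⁻¹` are permutations of `N`.) -/
def KPW_stmt : Prop :=
  ∀ (Q : Type) [Group Q] [Finite Q] (N : Subgroup Q), N.Normal → ∀ α ∈ Coc Q,
    α ^ Nat.card N ∈ Kc N

/-- KCB. Coboundaries are in `Kc N` (`b = c`). -/
def KCB_stmt : Prop :=
  ∀ (Q : Type) [Group Q] (N : Subgroup Q), N.Normal → ∀ c : Q → ℂˣ, c 1 = 1 →
    (fun a b => c a * c b * (c (a * b))⁻¹) ∈ Kc N

/-- KBN. Representatives modulo `Kc N`. Proof: let `|A| = n s` with `r ∤ s`, `u n + v s = 1` (integers), so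
`α = (α ^ n) ^ u * (α ^ s) ^ v`. `|N|` is a power of `r` and divides `|A|`, so it divides `n` and
`α ^ n = (α ^ (n / |N|)) ^ |N| ∈ Kc N` by KPW. `(α ^ s) ^ n = α ^ |A|` is the coboundary of
`b a = ∏_{x : A} α(a, x)`; take `c` with `c ^ n = b`, `c 1 = 1` (roots exist in `ℂˣ`). Then
`β = α ^ s / (coboundary of c)` is in `Bn A n`, and `α ^ s * β⁻¹ ∈ Kc N` by KCB. Result: `β ^ v`. -/
def KBN_stmt : Prop :=
  ∀ (A : Type) [Group A] [Finite A] (N : Subgroup A), N.Normal → ∀ r : ℕ, r.Prime →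
    IsPGroup r N → ∀ α ∈ Coc A, ∃ β ∈ Bn A (r ^ padicValNat r (Nat.card A)), α * β⁻¹ ∈ Kc N

/-- KML. Multiplication by an invariant one-dimensional projective representation `b` with cocycle
`κ`: `σ ↦ b σ` (on `N`, `0` outside) is a bijection. (`S n ↦ b n • S n`; `b 1 = 1`,
`b n * b n⁻¹ = κ n n⁻¹`; `tw_mul`; the inverse map belongs to `κ⁻¹`.) -/
def KML_stmt : Prop :=
  ∀ (Q : Type) [Group Q] (N : Subgroup Q), N.Normal → ∀ β : Q → Q → ℂˣ, ∀ κ ∈ Kc N,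
    ∀ P : ℕ → Prop, GN N (β * κ) P = GN N β P

/-- KSC. Schur's lemma. Proof: `S n` is invertible with inverse `(β n n⁻¹)⁻¹ • S n⁻¹`. The map
`P f = |N|⁻¹ ∑_{n ∈ N} S n * f * (S n)⁻¹` on `End V` is a projection onto the commutant, and its trace is
`|N|⁻¹ ∑ trace (S n) * trace (S n)⁻¹ = 1` (the trace of `f ↦ a * f * b` is `trace a * trace b`). So the
commutant has dimension one and consists of the scalars. (`f ∈` commutant is fixed by `P`.) -/
def KSC_stmt : Prop :=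
  ∀ (Q : Type) [Group Q] [Finite Q] (N : Subgroup Q), ∀ β ∈ Coc Q,
    ∀ (V : Type) [AddCommGroup V] [Module ℂ V] [FiniteDimensional ℂ V] (S : Q → Module.End ℂ V),
    S 1 = 1 → (∀ n ∈ N, ∀ n' ∈ N, S n * S n' = ((β n n' : ℂˣ) : ℂ) • S (n * n')) →
    ∑ᶠ n ∈ (N : Set Q), LinearMap.trace ℂ V (S n) * LinearMap.trace ℂ V (S n⁻¹) *
      ((β n n⁻¹ : ℂˣ) : ℂ)⁻¹ = Nat.card N →
    ∀ f : Module.End ℂ V, (∀ n ∈ N, f * S n = S n * f) → ∃ c : ℂ, f = c • (1 : Module.End ℂ V)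

open Classical in
/-- KCM. Projective representations of an abelian group `N` for which all `S n` commute are
one-dimensional. (By KSC every `S n` is a scalar `b n`; the norm is `|N| k ^ 2`, so `k = 1` and
`σ = b` on `N`; `b n ≠ 0` as `S n` is invertible.) -/
def KCM_stmt : Prop :=
  ∀ (Q : Type) [Group Q] [Finite Q] (N : Subgroup Q), ∀ β ∈ Coc Q,
    (∀ x ∈ N, ∀ y ∈ N, β x y = β y x ∧ x * y = y * x) → ∀ (σ : Q → ℂ) (k : ℕ), PIrr N β σ k →
    k = 1 ∧ ∃ b : Q → ℂˣ, (∀ n ∈ N, σ n = b n) ∧ ∀ n ∈ N, ∀ n' ∈ N, b n * b n' = β n n' * b (n * n')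

/-- KLN. Linear characters. (A function `b` on `N` with values in `ℂˣ` and
`b n * b n' = β n n' * b (n n')` is in `PIrr N β _ 1`; for `β = 1` and the trivial character this is an
invariant element. Finiteness: for `β = 1` the elements of `PIrr N 1` are irreducible characters of
`N`, extended by zero, `k` is the degree.) -/
def KLN_stmt : Prop :=
  ∀ (Q : Type) [Group Q] [Finite Q] (N : Subgroup Q), N.Normal →
    (∀ β ∈ Coc Q, ∀ b : Q → ℂˣ, (∀ n ∈ N, ∀ n' ∈ N, b n * b n' = β n n' * b (n * n')) →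
      ∀ σ : Q → ℂ, (∀ n ∈ N, σ n = b n) → (∀ n, n ∉ N → σ n = 0) → PIrr N β σ 1) ∧
    (∀ P : ℕ → Prop, P 1 → 0 < GN N 1 P) ∧
    (∀ σ : Q → ℂ, ∀ k : ℕ, PIrr N 1 σ k → σ ∈ IrrOn N ∧ σ 1 = k) ∧
    (∀ σ ∈ IrrOn N, ∃ k : ℕ, PIrr N 1 σ k)

open Classical in
/-- KPG. Dimension prime to `p`. Proof: let `σ` be counted for `β`, `S` as in PIrr, `k = dim V`, `k ≠ 0` by
the norm, so `p ∤ k`. For `x, y ∈ N` one has `S x * S y = ω • (S y * S x)` with `ω = β x y / β y x`. Taking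
determinants `ω ^ k = 1`; `(S x) ^ p` is a nonzero scalar as `x ^ p = 1`, so `ω ^ p = 1`. So `ω = 1`, and by KCM
`σ = b` and `β ∈ Kc N` by the invariance. If `β ∈ Kc N` use KML with `1 * β`. -/
def KPG_stmt : Prop :=
  ∀ (Q : Type) [Group Q] [Finite Q] (N : Subgroup Q), N.Normal → ∀ (p : ℕ) [Fact p.Prime],
    (∀ x ∈ N, ∀ y ∈ N, x * y = y * x) → (∀ x ∈ N, x ^ p = 1) → ∀ β ∈ Coc Q,
    GN N β (fun k => (padicValNat p k : ℤ) = 0) =
      if β ∈ Kc N then GN N 1 (fun k => (padicValNat p k : ℤ) = 0) else 0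

/-- KNC. At most one invariant projective character if `N` is not central. Proof: let
`ω(x, y) = β x y / β y x` for `x, y ∈ N`, so `S x * S y = ω(x, y) • (S y * S x)`, and `R` the set of the `x ∈ N` with
`ω(x, y) = 1` for all `y ∈ N`, a subgroup, normal in `A` by KTW (`ω(q x q⁻¹, q y q⁻¹) = ω(x, y)`). `R = ⊥`:
for `x ≠ 1` choose `y` with `ω(y, x) ≠ 1`; taking traces of `S y * S x * (S y)⁻¹ = ω(y, x) • S x` we get
`σ x = 0`; so the norm is `σ 1 ^ 2 = k ^ 2 = |N|`; the same for `σ'`. `R = N`: by KCM `σ = b`, `σ' = b'` on `N`,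
`b' / b` is a homomorphism on `N` invariant under conjugation by `A`; its kernel is normal in `A`; it
is `N`, or it is `⊥` and then `q x q⁻¹ = x` for all `x ∈ N`, a contradiction. -/
def KNC_stmt : Prop :=
  ∀ (A : Type) [Group A] [Finite A] (N : Subgroup A), MinAb N →
    (∃ a : A, ∃ x ∈ N, a * x ≠ x * a) → ∀ β ∈ Coc A, ∀ (σ σ' : A → ℂ) (k k' : ℕ),
    PIrr N β σ k → PInv N β σ → PIrr N β σ' k' → PInv N β σ' → σ = σ'

end Pool.Agent.DR
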