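import Mathlib
import Pool.Agent.helper35.DR.Defs

/-!
# Project dr (MP_baa4d7_al), part A: chains, group theory

A module XX proves `theorem XX (hYY : YY_stmt) ... : XX_stmt` (any statements `YY_stmt` of the spec files
of this project may be used as hypotheses, without circles) in the file
`Pool/Agent/<seat>/DR/XX.lean`, namespace `Pool.Agent.DR`. Auxiliary lemmas get the prefix `XX_`.
All modules of project di (`helper81/DI/Spec{A,B,C,D}.lean`) and dq (`helper58/DC/Spec{1,2}.lean`) are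
proved and may be used as hypotheses too (`hA3 : Pool.Agent.DI.A3_stmt` and so on; how to obtain
them is seen in `Pool/Agent/helper81/DI/Final.lean` and `Pool/Agent/helper58/DC/All.lean`). The paper
proof is in the team store, `BAA4D7_reduced_helper35.md`.
-/

set_option autoImplicit false

namespace Pool.Agent.DR

open Pool.Agent.helper58.DC Pool.Agent.DI

/-! ### chains -/

/-- CHB. Index prime to `p`. (A `p`-subgroup of `G₂` is contained in `G₁`: the image of an element of
order a power of `p` in `G₂ / G₁` has order dividing `m`. So the two sets of chains are equal.) -/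
def CHB_stmt : Prop :=
  ∀ (Γ : Type) [Group Γ] [Finite Γ] (p : ℕ) [Fact p.Prime] (G₁ G₂ : Subgroup Γ), G₁ ≤ G₂ →
    G₁.Normal → ∀ m : ℕ, Nat.card G₂ = m * Nat.card G₁ → ¬ p ∣ m →
    ∀ (M : Subgroup Γ) (g : Subgroup Γ → ℤ), cSum p G₂ ⊥ M g = cSum p G₁ ⊥ M g

/-- CHC. Chains in `R × C_G(R)` which start with `R`. (Version of A11 of di without the assumption on
commutators. If `x ∈ G` normalises `R` then `[x, r] ∈ R ⊓ G = ⊥`, so `G ⊓ nz R = G ⊓ cz R`, and
`(R ⊔ G) ⊓ nz R = R ⊔ (G ⊓ cz R)`. The map `S ↦ R ⊔ S` from the `p`-subgroups of `G ⊓ cz R` to the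
`p`-subgroups between `R` and `(R ⊔ G) ⊓ nz R` is an order isomorphism with inverse `P ↦ P ⊓ G`; the
normaliser of a chain which contains `R` is contained in `nz R`, and `x ∈ nz R` normalises `R ⊔ S` iff
it normalises `S = (R ⊔ S) ⊓ G`; note that `⊥` is a term on the right side.) -/
def CHC_stmt : Prop :=
  ∀ (Γ : Type) [Group Γ] [Finite Γ] (p : ℕ) [Fact p.Prime] (G R M : Subgroup Γ)
    (g : Subgroup Γ → ℤ), G.Normal → IsPGroup p R → R ⊓ G = ⊥ →
    cSum p ((R ⊔ G) ⊓ nz R) R M g = cSum p (G ⊓ cz R) ⊥ (M ⊓ nz R) g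

/-- CHA. Decomposition of the chains of `G₂`. Proof: A10 of di with `L = G₂`, `Q = ⊥`, `M = ⊤`: the sum is
`cSum p G₁ ⊥ ⊤ h - ∑_R cSum p G₂ R ⊤ h` over the `p`-subgroups `R ≠ ⊥` of `G₂` with `R ⊓ G₁ = ⊥`. If
`R ⊔ G₁ ≠ G₂` every term is zero: `N = nrm C ≤ nz R`; if `N ⊔ G₂ = ⊤` then `R ⊔ G₁` is normalised by `N`
and by `G₂` (commutators of `G₂` are in `G₁`), so it is normal in `Γ`, hence `R ⊔ G₁ = G₁`, `R ≤ G₁`,
`R = ⊥`, a contradiction; so `h N = 0`. If `R ⊔ G₁ = G₂` then by A3 of di and CHC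
`cSum p G₂ R ⊤ h = cSum p (G₁ ⊓ cz R) ⊥ (nz R) h = 0`. -/
def CHA_stmt : Prop :=
  ∀ (Γ : Type) [Group Γ] [Finite Γ] (p : ℕ) [Fact p.Prime] (G₁ G₂ : Subgroup Γ)
    (h : Subgroup Γ → ℤ), G₁.Normal → G₂.Normal → G₁ ≤ G₂ →
    (∀ x ∈ G₂, ∀ y ∈ G₂, x * y * x⁻¹ * y⁻¹ ∈ G₁) →
    (∀ K : Subgroup Γ, K.Normal → G₁ ≤ K → K ≤ G₂ → K = G₁ ∨ K = G₂) →
    (∀ N : Subgroup Γ, N ⊔ G₂ ≠ ⊤ → h N = 0) →
    (∀ R : Subgroup Γ, IsPGroup p R → R ≠ ⊥ → R ≤ G₂ → R ⊓ G₁ = ⊥ → R ⊔ G₁ = G₂ →
      cSum p (G₁ ⊓ cz R) ⊥ (nz R) h = 0) →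
    cSum p G₂ ⊥ ⊤ h = cSum p G₁ ⊥ ⊤ h

/-! ### group theory -/

/-- GMN. An abelian minimal normal subgroup is an elementary abelian `r`-group. (Take a prime `r`
dividing `|N|`; `{x ∈ N | x ^ r = 1}` is a normal subgroup, not trivial by Cauchy.) -/
def GMN_stmt : Prop :=
  ∀ (A : Type) [Group A] [Finite A] (N : Subgroup A), MinAb N →
    ∃ r : ℕ, r.Prime ∧ (∀ x ∈ N, x ^ r = 1) ∧ ∃ k : ℕ, 1 ≤ k ∧ Nat.card N = r ^ k

/-- GVM. Supplements of `N`. (`V ⊓ N` is normalised by `V` and by `N`, which is abelian; so it is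
normal if `V ⊔ N = ⊤`, and is `⊥` or `N`. If `V ≤ W` for a complement `V`, then `W ⊓ N = ⊥` or `N`, and
`W = V ⊔ (W ⊓ N)` (Dedekind).) -/
def GVM_stmt : Prop :=
  ∀ (A : Type) [Group A] [Finite A] (N : Subgroup A), MinAb N →
    (∀ V : Subgroup A, V ⊔ N = ⊤ → V = ⊤ ∨ IsCpl N V) ∧
    (∀ V : Subgroup A, IsCpl N V → V ≠ ⊤ ∧ ∀ W : Subgroup A, V ≤ W → W = V ∨ W = ⊤) ∧
    (∀ V : Subgroup A, IsCpl N V → Nat.card V * Nat.card N = Nat.card A)

/-- GCN. The number of complements if `N` is not central. (`N` acts by conjugation on the set of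
complements; if `x ∈ N` normalises the complement `V` then `[x, v] ∈ N ⊓ V = ⊥` for `v ∈ V`, so `x`
commutes with `V` and `N`, and is central. The centralised elements of `N` form a normal subgroup,
which is `⊥` or `N`; so it is `⊥` as `N` is not central. All orbits have length `|N|`.) -/
def GCN_stmt : Prop :=
  ∀ (A : Type) [Group A] [Finite A] (N : Subgroup A), MinAb N →
    (∃ a : A, ∃ x ∈ N, a * x ≠ x * a) → Nat.card N ∣ ncpl N

/-- GCC. The number of complements if `N` is central. (`N` has prime order `r`: a subgroup of prime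
order of `N` is normal. If `V` is a complement then `A = V × N` and the complements are the graphs
`{v * f v}` of the homomorphisms `f : V → N`; these form a group of exponent `r`, so their number is a
power of `r`.) -/
def GCC_stmt : Prop :=
  ∀ (A : Type) [Group A] [Finite A] (N : Subgroup A), MinAb N →
    (∀ a : A, ∀ x ∈ N, a * x = x * a) → (Nat.card N).Prime ∧
    (ncpl N = 0 ∨ ∃ k : ℕ, ncpl N = Nat.card N ^ k) ∧
    (∀ V : Subgroup A, IsCpl N V → ncpl N = Nat.card (V →* N))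

/-- ECD. Orders. (The restriction of `q` to `S ⊓ N.comap q` has kernel `S ⊓ q.ker` and image
`S.map q ⊓ N`.) -/
def ECD_stmt : Prop :=
  ∀ (Γ Q : Type) [Group Γ] [Finite Γ] [Group Q] (q : Γ →* Q) (S : Subgroup Γ) (N : Subgroup Q),
    Nat.card (S ⊓ N.comap q : Subgroup Γ) =
      Nat.card (S ⊓ q.ker : Subgroup Γ) * Nat.card (S.map q ⊓ N : Subgroup Q)

/-- RCY. Reduced groups with a normal `p`-subgroup `P` and cyclic quotient are trivial. Proof: suppose
`P ≠ ⊥`. The centre of `P` is not trivial and its image `Z` in `A` is normal in `A`; take a minimal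
element `K` among the nontrivial normal subgroups of `A` contained in `Z`; it is abelian, `MinAb K`, and
`p ∣ |K|`, a contradiction. So `P = ⊥` and `A` is cyclic. If `A` is not trivial take a subgroup `N` of prime
order `r` (`MinAb N`); a cyclic group has at most one subgroup of each order, so `N` has at most
one complement, but `|N| = r > 1`. -/
def RCY_stmt : Prop :=
  ∀ (p : ℕ) [Fact p.Prime] (A : Type) [Group A] [Finite A], Red p A →
    (∃ P : Subgroup A, IsPGroup p P ∧ CycQ P) → Subsingleton A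

/-- HYC. The groups with a normal `p`-subgroup with cyclic quotient form a class closed under
subgroups and homomorphic images. (`P ⊓ H` as a subgroup of `H`; `P.map f`. For `CycQ (P ⊓ H)` use
`CycQ P ↔ IsCyclic (A ⧸ P)`, B0 of di, and that subgroups of cyclic groups are cyclic.) -/
def HYC_stmt : Prop :=
  ∀ (p : ℕ) [Fact p.Prime],
    (∀ (A : Type) [Group A] [Finite A] (H : Subgroup A),
      (∃ P : Subgroup A, IsPGroup p P ∧ CycQ P) → ∃ P : Subgroup H, IsPGroup p P ∧ CycQ P) ∧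
    (∀ (A B : Type) [Group A] [Finite A] [Group B] (f : A →* B), Function.Surjective f →
      (∃ P : Subgroup A, IsPGroup p P ∧ CycQ P) → ∃ P : Subgroup B, IsPGroup p P ∧ CycQ P)

end Pool.Agent.DR
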