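import Mathlib
import Pool.Agent.helper35.DR.Defs

/-!
# Project dr (MP_baa4d7_al), part T: cocycles associated with invariant characters

Rules: see `SpecA.lean`. Throughout `q : Γ →* Q`, `S ≤ Γ`, `H = S ⊓ q.ker`, and `T` is a projective
representation of `S` as in `AscT`. Note that `T (s * h) = T s * T h` for `h ∈ H` (normalised cocycle),
`T` restricted to `H` is a representation with character `ψ`, and
`(T s)⁻¹ = (α (q s) (q s)⁻¹)⁻¹ • T s⁻¹`.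
-/

set_option autoImplicit false

namespace Pool.Agent.DR

open Pool.Agent.helper58.DC Pool.Agent.DI

/-- TEX. Existence. Proof: let `ρ : H → GL(V)` afford `ψ`. For every `a : Q` choose `s a ∈ S` with
`q (s a) = a`, `s 1 = 1`, and an invertible `T₀ a` on `V` with `T₀ a * ρ h * (T₀ a)⁻¹ = ρ (s a * h * (s a)⁻¹)`,
`T₀ 1 = 1` (representations with the same irreducible character are isomorphic; compare
`Pool/Agent/helper93/DI/B7.lean`). For `x ∈ S` put `T x = T₀ (q x) * ρ ((s (q x))⁻¹ * x)` (`T x = 1` for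
`x ∉ S`). Then `T (x h) = T x * ρ h`, `T h = ρ h`, `T x * ρ h * (T x)⁻¹ = ρ (x h x⁻¹)`. So for `x, y ∈ S` the map
`T x * T y * (T (x y))⁻¹` commutes with all `ρ h`, and is a nonzero scalar by Schur; it depends only on
`q x`, `q y`. Cocycle identity: associativity. -/
def TEX_stmt : Prop :=
  ∀ (Γ Q : Type) [Group Γ] [Finite Γ] [Group Q] [Finite Q] (q : Γ →* Q) (S : Subgroup Γ),
    S.map q = ⊤ → ∀ ψ ∈ IrrOn (S ⊓ q.ker), (∀ s ∈ S, funMap (MulAut.conj s) ψ = ψ) →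
    ∃ α ∈ Coc Q, Asc S q ψ α

/-- TNM. Norms of the cosets. Proof: the summand is `trace (T s * T h) * trace ((T h)⁻¹ * (T s)⁻¹)`. By Schur
`∑_h T h * X * (T h)⁻¹ = (|H| trace X / dim V) • 1` for every `X`. Choose a basis and matrix units `E_ij`:
`trace (A * T h) * trace ((T h)⁻¹ * B) = ∑_{i,j} (A * T h * E_ij * (T h)⁻¹ * B)_ij`. Sum over `h`:
`|H| / dim V * trace (A * B)`, and `A * B = 1` for `A = T s`, `B = (T s)⁻¹`. -/
def TNM_stmt : Prop :=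
  ∀ (Γ Q : Type) [Group Γ] [Finite Γ] [Group Q] (q : Γ →* Q) (S : Subgroup Γ),
    ∀ ψ ∈ IrrOn (S ⊓ q.ker), ∀ α ∈ Coc Q, ∀ (V : Type) [AddCommGroup V] [Module ℂ V]
    [FiniteDimensional ℂ V] (T : Γ → Module.End ℂ V), AscT S q ψ α T → ∀ s ∈ S,
    ∑ᶠ h ∈ ((S ⊓ q.ker : Subgroup Γ) : Set Γ), LinearMap.trace ℂ V (T (s * h)) *
      LinearMap.trace ℂ V (T (s * h)⁻¹) * ((α (q s) (q s)⁻¹ : ℂˣ) : ℂ)⁻¹ =
      Nat.card (S ⊓ q.ker : Subgroup Γ)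

/-- TFW. From projective characters of `N` to characters. (`W` affords `σ` with `S' : Q → End W`,
cocycle `α⁻¹`; `x ↦ T x ⊗ S' (q x)` is a representation of `L = S ⊓ N.comap q` on `V ⊗ W` with character
`trace (T x) * σ (q x)`. Its norm is `|L|⁻¹ ∑_{n ∈ N} σ n σ n⁻¹ α(n, n⁻¹) · |H| = 1` by TNM and the norm of
`σ`, so it is irreducible: see NRM of `Pool/Agent/helper12/DD/Spec.lean` or the end of
`Pool/Agent/helper93/DI/B7.lean`.) -/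
def TFW_stmt : Prop :=
  ∀ (Γ Q : Type) [Group Γ] [Finite Γ] [Group Q] [Finite Q] (q : Γ →* Q) (S : Subgroup Γ),
    S.map q = ⊤ → ∀ ψ ∈ IrrOn (S ⊓ q.ker), ∀ α ∈ Coc Q, ∀ (V : Type) [AddCommGroup V] [Module ℂ V]
    [FiniteDimensional ℂ V] (T : Γ → Module.End ℂ V), AscT S q ψ α T →
    ∀ (N : Subgroup Q) (σ : Q → ℂ) (k : ℕ), PIrr N α⁻¹ σ k → ∀ φ : Γ → ℂ,
    (∀ x ∈ S ⊓ N.comap q, φ x = LinearMap.trace ℂ V (T x) * σ (q x)) →
    (∀ x, x ∉ S ⊓ N.comap q → φ x = 0) →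
    φ ∈ IrrOn (S ⊓ N.comap q) ∧ ∀ x ∈ S ⊓ q.ker, φ x = k * ψ x

/-- TBW. From characters to projective characters of `N`. Proof: let `ρ'` on `V'` afford `φ`
(`L = S ⊓ N.comap q`), `W = Hom_H(V, V')` (a submodule of `V →ₗ V'`), for `n ∈ N` choose `x ∈ L` with
`q x = n`, `S' n f = ρ' x ∘ f ∘ (T x)⁻¹`; it is independent of `x` and maps `W` to `W`;
`S' n * S' n' = (α n n')⁻¹ • S' (n n')`. The map `V ⊗ W → V'`, `v ⊗ f ↦ f v`, is `L`-equivariant for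
`T x ⊗ S' (q x)`, so its image is `L`-stable; it is not zero as `φ` restricted to `H` is `e ψ`, `e ≠ 0`, so it is
surjective, and `dim W = e` (multiplicity of `ψ` in `e ψ`), `dim V' = φ 1 = e ψ 1 = dim V * dim W`; so it is
bijective and `φ x = trace (T x) * σ (q x)`, `σ n = trace (S' n)`. Norm of `σ`: from the norm `1` of `φ` and
TNM. -/
def TBW_stmt : Prop :=
  ∀ (Γ Q : Type) [Group Γ] [Finite Γ] [Group Q] [Finite Q] (q : Γ →* Q) (S : Subgroup Γ),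
    S.map q = ⊤ → ∀ ψ ∈ IrrOn (S ⊓ q.ker), ∀ α ∈ Coc Q, ∀ (V : Type) [AddCommGroup V] [Module ℂ V]
    [FiniteDimensional ℂ V] (T : Γ → Module.End ℂ V), AscT S q ψ α T →
    ∀ (N : Subgroup Q), ∀ φ ∈ IrrOn (S ⊓ N.comap q), ∀ e : ℕ, (∀ x ∈ S ⊓ q.ker, φ x = e * ψ x) →
    ∃ σ : Q → ℂ, PIrr N α⁻¹ σ e ∧
      ∀ x ∈ S ⊓ N.comap q, φ x = LinearMap.trace ℂ V (T x) * σ (q x)

/-- TIV. Invariance and uniqueness. (For `s ∈ S`, `x ∈ L`: `T s * T x * (T s)⁻¹ = tw α (q s) (q x) • T (s x s⁻¹)`,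
so `trace (T x) = tw α (q s) (q x) * trace (T (s x s⁻¹))`. For every `n ∈ N` there is `x ∈ L` with
`q x = n`, `trace (T x) ≠ 0` by TNM. `tw_inv`. Off `L` both sides are `0`, as `S` normalises `L`.) -/
def TIV_stmt : Prop :=
  ∀ (Γ Q : Type) [Group Γ] [Finite Γ] [Group Q] [Finite Q] (q : Γ →* Q) (S : Subgroup Γ),
    S.map q = ⊤ → ∀ ψ ∈ IrrOn (S ⊓ q.ker), ∀ α ∈ Coc Q, ∀ (V : Type) [AddCommGroup V] [Module ℂ V]
    [FiniteDimensional ℂ V] (T : Γ → Module.End ℂ V), AscT S q ψ α T →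
    ∀ (N : Subgroup Q), N.Normal → ∀ (φ : Γ → ℂ) (σ : Q → ℂ), (∀ x, x ∉ S ⊓ N.comap q → φ x = 0) →
    (∀ x ∈ S ⊓ N.comap q, φ x = LinearMap.trace ℂ V (T x) * σ (q x)) →
    ((∀ s ∈ S, funMap (MulAut.conj s) φ = φ) ↔ PInv N α⁻¹ σ) ∧
    ∀ σ' : Q → ℂ, (∀ x ∈ S ⊓ N.comap q, φ x = LinearMap.trace ℂ V (T x) * σ' (q x)) →
      ∀ n ∈ N, σ' n = σ n

/-- TCL. The number of invariant characters over `ψ` (TFW, TBW, TIV; the number `e` is unique as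
`ψ 1 ≠ 0`, and `k` is unique: `ψ 1 * k = φ 1`). -/
def TCL_stmt : Prop :=
  ∀ (Γ Q : Type) [Group Γ] [Finite Γ] [Group Q] [Finite Q] (q : Γ →* Q) (S : Subgroup Γ),
    S.map q = ⊤ → ∀ ψ ∈ IrrOn (S ⊓ q.ker), ∀ α ∈ Coc Q, Asc S q ψ α →
    ∀ (N : Subgroup Q), N.Normal → ∀ P : ℕ → Prop,
    Nat.card {φ : Γ → ℂ // φ ∈ IrrOn (S ⊓ N.comap q) ∧
      (∃ e : ℕ, P e ∧ ∀ x ∈ S ⊓ q.ker, φ x = e * ψ x) ∧
      ∀ s ∈ S, funMap (MulAut.conj s) φ = φ} = GN N α⁻¹ P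

/-- TIN. The number `inn` by defects. (TCL with `P e : v_p(e) = d + v_p|N| - D`; by ECD
`|S ⊓ N.comap q| = |H| |N|`, and `φ 1 = e ψ 1`, `e ≠ 0`.) -/
def TIN_stmt : Prop :=
  ∀ (Γ Q : Type) [Group Γ] [Finite Γ] [Group Q] [Finite Q] (q : Γ →* Q) (S : Subgroup Γ),
    S.map q = ⊤ → ∀ ψ ∈ IrrOn (S ⊓ q.ker), ∀ α ∈ Coc Q, Asc S q ψ α →
    ∀ (N : Subgroup Q), N.Normal → ∀ (p : ℕ) [Fact p.Prime] (d D : ℤ), Defect p (S ⊓ q.ker) ψ d →
    inn p (S ⊓ N.comap q) S (S ⊓ q.ker) ψ D =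
      GN N α⁻¹ (fun k => (padicValNat p k : ℤ) = d + padicValNat p (Nat.card N) - D)

/-- TIS. The trivial case. (`φ ∈ IrrOn K` and `φ = e ψ` on `K`: both have norm one, so `e = 1`,
`φ = ψ`.) -/
def TIS_stmt : Prop :=
  ∀ (Γ : Type) [Group Γ] [Finite Γ] (p : ℕ) [Fact p.Prime] (K S : Subgroup Γ), ∀ ψ ∈ IrrOn K,
    (∀ s ∈ S, funMap (MulAut.conj s) ψ = ψ) → ∀ D : ℤ,
    (Defect p K ψ D → inn p K S K ψ D = 1) ∧ (¬ Defect p K ψ D → inn p K S K ψ D = 0)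

/-- TDU. The dual. (`T' s` is the transpose of `(T s)⁻¹` on the dual space for `s ∈ S`, and `1` for
`s ∉ S`.) -/
def TDU_stmt : Prop :=
  ∀ (Γ Q : Type) [Group Γ] [Group Q] (q : Γ →* Q) (S : Subgroup Γ) (ψ : Γ → ℂ), ∀ α ∈ Coc Q,
    Asc S q ψ α → Asc S q (dl ψ) α⁻¹

/-- TPR. The tensor product, for the fibre square. (`T e = T₀ (e.f t₀) ⊗ T₁ (e.f t₁)`;
`X.proj (e.f t) = e.l = (X2 X).proj e`; an element of the kernel of `(X2 X).proj` is `(X2 X).inc x`,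
`x : TT → G`, with components `X.inc (x t)`; `LinearMap.trace_tensorProduct'`.) -/
def TPR_stmt : Prop :=
  ∀ (G E A : Type) [Group G] [Group E] [Group A] (X : Extension G E A) (S : TT → Subgroup E)
    (ψ : TT → G → ℂ) (α : TT → A → A → ℂˣ),
    (∀ t, Asc (S t) X.proj (ext0 X.inc (ψ t)) (α t)) →
    Asc (prS X S) (X2 X).proj (ext0 (X2 X).inc (tens ψ)) (α t₀ * α t₁)

/-- TIF. Inflation to the cover. (`T' x = T (fcE X n x)`.) -/
def TIF_stmt : Prop :=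
  ∀ (G E A : Type) [Group G] [Group E] [Group A] (X : Extension G E A) (n : ℕ) (S : Subgroup E)
    (ψ : G → ℂ) (α : A → A → ℂˣ), Asc S X.proj (ext0 X.inc ψ) α →
    Asc (S.comap (fcE X n)) (XC X n).proj (ext0 (XC X n).inc ψ) (fun x y => α x.a y.a)

end Pool.Agent.DR
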