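import Mathlib
import Pool.Agent.helper35.DR.SpecA
import Pool.Agent.helper35.DR.SpecT

/-!
# Project dr (MP_baa4d7_al), part C: Clifford theory

Rules: see `SpecA.lean`. `K ≤ L ≤ M` are subgroups of `Γ`, `K` and `L` are normal in `M`. Characters of
subgroups are functions on `Γ`, zero outside the subgroup (`IrrOn`). Modules B1, B2, B3, B9a of di
(finiteness, orthogonality, restriction, induction) are the main tools.
-/

set_option autoImplicit false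

namespace Pool.Agent.DR

open Pool.Agent.helper58.DC Pool.Agent.DI

/-- CRE. Restriction and induction inside a group (B3 and B9a of di for the group `L` and its subgroup
`S.subgroupOf L`, transported; orthogonality B2). For `φ ∈ IrrOn L`, `θ ∈ IrrOn S` there is one
number `m`, the multiplicity of `θ` in `φ` and of `φ` in the induced function (Frobenius
reciprocity). -/
def CRE_stmt : Prop :=
  ∀ (Γ : Type) [Group Γ] [Finite Γ] (L S : Subgroup Γ), S ≤ L →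
    ∃ m : (Γ → ℂ) → (Γ → ℂ) → ℕ,
      (∀ φ ∈ IrrOn L, ∀ x ∈ S, φ x = ∑ᶠ θ ∈ IrrOn S, (m φ θ : ℂ) * θ x) ∧
      (∀ θ ∈ IrrOn S, ∀ x, indf L S θ x = ∑ᶠ φ ∈ IrrOn L, (m φ θ : ℂ) * φ x) ∧
      (∀ φ ∈ IrrOn L, ∀ θ ∈ IrrOn S,
        ∑ᶠ x ∈ (S : Set Γ), φ x * θ x⁻¹ = (Nat.card S : ℂ) * m φ θ)

/-- CUQ. Linear independence: coefficients in a sum of irreducible characters of `K` are determined
by the values on `K` (orthogonality). -/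
def CUQ_stmt : Prop :=
  ∀ (Γ : Type) [Group Γ] [Finite Γ] (K : Subgroup Γ) (a b : (Γ → ℂ) → ℂ),
    (∀ x ∈ K, ∑ᶠ θ ∈ IrrOn K, a θ * θ x = ∑ᶠ θ ∈ IrrOn K, b θ * θ x) →
    ∀ θ ∈ IrrOn K, a θ = b θ

open Classical in
/-- CCJ. Conjugates. (`funMap (conj n)` permutes `IrrOn K` for `n ∈ nz K`; `OverE` in terms of
coefficients: the restriction of `φ` has coefficient `e` at the `N`-conjugates of `ψ`, `0` at the others.
The number of conjugates is `|N| / |stF N ψ|`.) -/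
def CCJ_stmt : Prop :=
  ∀ (Γ : Type) [Group Γ] [Finite Γ] (K N : Subgroup Γ), N ≤ nz K → ∀ ψ ∈ IrrOn K,
    (∀ n ∈ N, funMap (MulAut.conj n) ψ ∈ IrrOn K ∧ (funMap (MulAut.conj n) ψ) 1 = ψ 1) ∧
    (∀ (φ : Γ → ℂ) (e : ℕ), OverE K N φ ψ e ↔ ∀ x ∈ K, φ x = ∑ᶠ θ ∈ IrrOn K,
      (if ∃ n ∈ N, θ = funMap (MulAut.conj n) ψ then (e : ℂ) else 0) * θ x) ∧
    (Nat.card {θ : Γ → ℂ // ∃ n ∈ N, θ = funMap (MulAut.conj n) ψ} * Nat.card (stF N ψ) =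
      Nat.card N) ∧
    (∀ (φ : Γ → ℂ) (e : ℕ), OverE K N φ ψ e →
      φ 1 * Nat.card (stF N ψ) = e * Nat.card N * ψ 1)

/-- CFA. Clifford's theorem. Proof: let `m` be as in CRE for `S = K`. `m φ θ` is invariant under
conjugation of `θ` by `L` (`φ` is a class function of `L`; CUQ). Let `m φ ψ ≠ 0` (exists as `φ 1 ≠ 0`). Then `φ` is a
constituent of `indf L K ψ` (Frobenius), whose restriction to `K` is a combination of conjugates of `ψ`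
(as `K` is normal), with nonnegative coefficients; so all constituents of the restriction of `φ` are
conjugates of `ψ`. Uniqueness: CUQ and CCJ. -/
def CFA_stmt : Prop :=
  ∀ (Γ : Type) [Group Γ] [Finite Γ] (K L : Subgroup Γ), K ≤ L → L ≤ nz K →
    (∀ φ ∈ IrrOn L, ∃ ψ ∈ IrrOn K, ∃ e : ℕ, 0 < e ∧ OverE K L φ ψ e) ∧
    (∀ φ : Γ → ℂ, ∀ ψ ∈ IrrOn K, ∀ ψ' ∈ IrrOn K, ∀ e e' : ℕ, 0 < e → 0 < e' →
      OverE K L φ ψ e → OverE K L φ ψ' e' → e = e' ∧ ∃ n ∈ L, ψ' = funMap (MulAut.conj n) ψ)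

/-- CFB. The Clifford correspondence. Let `S = stF L ψ` (`K ≤ S`). Proof: let `φ₀ ∈ IrrOn S` with
`φ₀ = e ψ` on `K`. `indf L S φ₀` restricted to `K` is `e` times the sum of the conjugates of `ψ` (the `t ∈ L`
in one coset `t S` give the same conjugate), so `OverE`. Let `φ ∈ IrrOn L` be a constituent of
`indf L S φ₀` (CRE). It is over `ψ`: `OverE K L φ ψ e'` by CFA, and `e' ≥ e` as `φ₀` is a constituent of the
restriction of `φ` to `S` (Frobenius). Comparing the values at `1`, `φ 1 ≤ (indf L S φ₀) 1 = |L : S| e ψ 1 ≤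
|L : S| e' ψ 1 = φ 1` (CCJ); so `indf L S φ₀ = φ`, `e' = e`. Injectivity: if `φ` is induced from `φ₀ ≠ φ₀'`,
the restriction of `φ` to `S` contains `φ₀ + φ₀'`, so `e ≥ e + e`, a contradiction. Surjectivity: let
`OverE K L φ ψ e`, `e > 0`; some constituent `φ₀` of the restriction of `φ` to `S` is over `ψ` (the
restrictions to `K` of the constituents of `φ` restricted to `S` add up to the restriction of `φ`, in which
`ψ` occurs; a constituent in which `ψ` occurs is `e₀ ψ` on `K` by CFA for `K ≤ S`, as `ψ` is invariant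
under `S`). By the first part `indf L S φ₀` is irreducible and by Frobenius it contains `φ`. -/
def CFB_stmt : Prop :=
  ∀ (Γ : Type) [Group Γ] [Finite Γ] (K L : Subgroup Γ), K ≤ L → L ≤ nz K → ∀ ψ ∈ IrrOn K,
    (∀ φ₀ ∈ IrrOn (stF L ψ), ∀ e : ℕ, (∀ x ∈ K, φ₀ x = e * ψ x) →
      indf L (stF L ψ) φ₀ ∈ IrrOn L ∧ OverE K L (indf L (stF L ψ) φ₀) ψ e ∧
      indf L (stF L ψ) φ₀ 1 * Nat.card (stF L ψ) = Nat.card L * φ₀ 1) ∧
    (∀ φ₀ ∈ IrrOn (stF L ψ), ∀ φ₁ ∈ IrrOn (stF L ψ), ∀ e e' : ℕ, (∀ x ∈ K, φ₀ x = e * ψ x) →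
      (∀ x ∈ K, φ₁ x = e' * ψ x) → indf L (stF L ψ) φ₀ = indf L (stF L ψ) φ₁ → φ₀ = φ₁) ∧
    (∀ φ ∈ IrrOn L, ∀ e : ℕ, 0 < e → OverE K L φ ψ e → ∃ φ₀ ∈ IrrOn (stF L ψ),
      (∀ x ∈ K, φ₀ x = e * ψ x) ∧ indf L (stF L ψ) φ₀ = φ)

/-- CFC. Equivariance. (`s = m t m⁻¹` in the sum; `m ∈ stF M ψ` normalises `L` and `stF L ψ`.) -/
def CFC_stmt : Prop :=
  ∀ (Γ : Type) [Group Γ] [Finite Γ] (K L M : Subgroup Γ), K ≤ L → L ≤ M → M ≤ nz K → M ≤ nz L →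
    ∀ ψ : Γ → ℂ, (stF M ψ ⊓ L = stF L ψ) ∧ ∀ m ∈ stF M ψ, ∀ φ : Γ → ℂ,
      funMap (MulAut.conj m) (indf L (stF L ψ) φ) =
        indf L (stF L ψ) (funMap (MulAut.conj m) φ) ∧
      (φ ∈ IrrOn (stF L ψ) → funMap (MulAut.conj m) φ ∈ IrrOn (stF L ψ))

/-- CFI. Invariance in the Clifford correspondence. Proof: let `φ = indf L (stF L ψ) φ₀`. If `φ` is
invariant under `M` and `m ∈ M`, then `OverE K L φ (funMap (conj m) ψ) e`, so by CFA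
`funMap (conj m) ψ = funMap (conj l) ψ` for some `l ∈ L`, and `l⁻¹ m ∈ stF M ψ`; so `M = stF M ψ ⊔ L`. For
`m ∈ stF M ψ` the function `funMap (conj m) φ₀` induces to `funMap (conj m) φ = φ` (CFC), so it is `φ₀` (CFB).
Conversely every element of `M = stF M ψ ⊔ L` is a product `m l` (`L` is normal in `M`), and `φ` is invariant under
`L` (class function) and `stF M ψ`. -/
def CFI_stmt : Prop :=
  ∀ (Γ : Type) [Group Γ] [Finite Γ] (K L M : Subgroup Γ), K ≤ L → L ≤ M → M ≤ nz K → M ≤ nz L →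
    ∀ ψ ∈ IrrOn K, ∀ φ₀ ∈ IrrOn (stF L ψ), ∀ e : ℕ, 0 < e → (∀ x ∈ K, φ₀ x = e * ψ x) →
    ((∀ m ∈ M, funMap (MulAut.conj m) (indf L (stF L ψ) φ₀) = indf L (stF L ψ) φ₀) ↔
      stF M ψ ⊔ L = M ∧ ∀ m ∈ stF M ψ, funMap (MulAut.conj m) φ₀ = φ₀)

/-- CFD. The count. Let `R` be a property which agrees for `φ` and `ψ` if `φ` is over `ψ`. Proof: count the
pairs `(φ, ψ)`, `φ` in the set on the left and over `ψ`. For given `φ` there are `|L| / |stF L ψ|` of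
them (CFA, CCJ). For given `ψ` with `R ψ` the `φ` correspond to the `φ₀` counted by `inn` if
`stF M ψ ⊔ L = M`, and there are none otherwise (CFB, CFI; `stF M ψ ⊓ L = stF L ψ`, CFC). Defects:
`v_p|L| - v_p(φ 1) = v_p|stF L ψ| - v_p(φ₀ 1)` by the degree formula in CFB. The number `|stF L ψ|` is
constant on the conjugates of `ψ`. -/
def CFD_stmt : Prop :=
  ∀ (Γ : Type) [Group Γ] [Finite Γ] (p : ℕ) [Fact p.Prime] (K L M : Subgroup Γ), K ≤ L → L ≤ M →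
    M ≤ nz K → M ≤ nz L → ∀ R : (Γ → ℂ) → Prop,
    (∀ φ ∈ IrrOn L, ∀ ψ ∈ IrrOn K, ∀ e : ℕ, 0 < e → OverE K L φ ψ e → (R φ ↔ R ψ)) → ∀ D : ℤ,
    (Nat.card L : ℤ) * Nat.card {φ : Γ → ℂ // φ ∈ IrrOn L ∧
      (∀ m ∈ M, funMap (MulAut.conj m) φ = φ) ∧ Defect p L φ D ∧ R φ} =
    ∑ᶠ ψ ∈ {ψ : Γ → ℂ | ψ ∈ IrrOn K ∧ R ψ ∧ stF M ψ ⊔ L = M},
      (Nat.card (stF M ψ ⊓ L : Subgroup Γ) : ℤ) * inn p (stF M ψ ⊓ L) (stF M ψ) K ψ D

/-- CFO. Central characters. (B11 of di with multiplicity `e`: for `g ∈ G₁` the class of `g` is contained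
in `G₁`, `φ` vanishes outside `N ⊓ G₂`, all conjugates of `ψ` have the same sum over the class of `g` and
the same value at `1`.) -/
def CFO_stmt : Prop :=
  ∀ (Γ : Type) [Group Γ] [Finite Γ] (G₁ G₂ N : Subgroup Γ), G₁.Normal → G₁ ≤ G₂ →
    ∀ φ ∈ IrrOn (N ⊓ G₂), ∀ ψ ∈ IrrOn (N ⊓ G₁), ∀ e : ℕ, 0 < e →
    OverE (N ⊓ G₁) (N ⊓ G₂) φ ψ e → ∀ g ∈ G₁, omega φ g = omega ψ g

/-- CFE. The function `hf` (CFD with `M = N`, `L = N ⊓ G₂`, `K = N ⊓ G₁`, `R = Cov M G₁ τ`, CFO). If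
`N ⊔ G₂ = ⊤` then `stF N ψ ⊔ (N ⊓ G₂) = N` iff `stF N ψ ⊔ G₂ = ⊤` (Dedekind); if `N ⊔ G₂ ≠ ⊤` both sides are
`0`. -/
def CFE_stmt : Prop :=
  ∀ (Γ : Type) [Group Γ] [Finite Γ] (p : ℕ) [Fact p.Prime] (M : Ideal (integralClosure ℤ ℂ))
    (G₁ G₂ N : Subgroup Γ), G₁.Normal → G₂.Normal → G₁ ≤ G₂ → ∀ (τ : Γ → ℂ) (D : ℤ),
    hf p M G₁ G₂ τ D N =
    ∑ᶠ ψ ∈ {ψ : Γ → ℂ | ψ ∈ IrrOn (N ⊓ G₁) ∧ Cov M G₁ τ ψ ∧ stF N ψ ⊔ G₂ = ⊤},
      (Nat.card (stF N ψ ⊓ G₂ : Subgroup Γ) : ℤ) *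
        inn p (stF N ψ ⊓ G₂) (stF N ψ) (N ⊓ G₁) ψ D

end Pool.Agent.DR
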