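import Mathlib
import Pool.Agent.helper35.DR.SpecC

/-!
# Project dr (MP_baa4d7_al), part R: the relation

Rules: see `SpecA.lean`. `M` is a maximal ideal of the ring of algebraic integers with `p ∈ M`,
`G₁ ≤ G₂` are normal subgroups of `Γ`.
-/

set_option autoImplicit false

namespace Pool.Agent.DR

open Pool.Agent.helper58.DC Pool.Agent.DI

/-- RCT. The function `hf` for the normaliser of a chain of `K = G₂`. Let `N = nrm (cmap G₂.subtype C)`; then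
`N ⊓ G₂ = (nrm C).map G₂.subtype` (B14 of di) and the elements of `IrrOn (N ⊓ G₂)` are the `ext0 θ`,
`θ ∈ IrrOn (nrm C)`, with the same defects (B13 of di). `(XQ G₂).stab C θ` is the stabiliser of `θ` in `N`.
Its image in `Γ ⧸ G₂` is everything iff `stab ⊔ G₂ = ⊤`; then `N ⊔ G₂ = ⊤` and `N = stab * (N ⊓ G₂)`, and
`N ⊓ G₂` fixes `θ`, so `θ` is `N`-invariant; conversely if `θ` is `N`-invariant and `N ⊔ G₂ = ⊤` then
`stab = N`. -/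
def RCT_stmt : Prop :=
  ∀ (Γ : Type) [Group Γ] [Finite Γ] (p : ℕ) [Fact p.Prime] (M : Ideal (integralClosure ℤ ℂ))
    (G₁ G₂ : Subgroup Γ) [G₂.Normal] (τ : Γ → ℂ) (D : ℤ) (C : Finset (Subgroup G₂)),
    IsChain (· ≤ ·) (C : Set (Subgroup G₂)) → C.Nonempty →
    hf p M G₁ G₂ τ D (nrm (cmap G₂.subtype C)) = (Nat.card (nrm C) : ℤ) *
      Nat.card {θ : G₂ → ℂ // θ ∈ IrrOn (nrm C) ∧ Defect p (nrm C) θ D ∧
        Cov M G₁ τ (ext0 G₂.subtype θ) ∧ ((XQ G₂).stab C θ).map (XQ G₂).proj = ⊤}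

open Classical in
/-- RBL. Summation over the radical chains of a group `K` embedded in `Γ`, for any extension `Y` of `K`
and `U = ⊤`. Every `θ ∈ IrrOn (nrm C)`, `C` radical, induces to the block of exactly one `b ∈ R` (C9 of
di), and then `Cov` for `ext0 i θ` and for `ext0 i b` are equivalent (C16, C1 of di). So the sum is
`∑_{b ∈ R, Cov} |K| * altSum Y p M b d ⊤` by D1 of di, and every `altSum` is zero: by `InvFor` for the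
blocks of positive defect, by D5 of di (`1 ≤ d`) for the others. (`R` from C15 of di.) -/
def RBL_stmt : Prop :=
  ∀ (K E A Γ : Type) [Group K] [Group E] [Group A] [Group Γ] [Finite K] [Finite E] [Finite Γ]
    (Y : Extension K E A) (i : K →* Γ), Function.Injective i → ∀ (p : ℕ) [Fact p.Prime]
    (M : Ideal (integralClosure ℤ ℂ)), M.IsMaximal → (p : integralClosure ℤ ℂ) ∈ M →
    IsOp p (⊤ : Subgroup K) ⊥ → InvFor p M A → ∀ (G₁ : Subgroup Γ) (τ : Γ → ℂ) (d : ℤ), 1 ≤ d →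
    ∑ᶠ C ∈ {C : Finset (Subgroup K) | IsRadical p C}, (-1) ^ (C.card + 1) *
      ((Nat.card (nrm C) : ℤ) * Nat.card {θ : K → ℂ // θ ∈ IrrOn (nrm C) ∧
        Defect p (nrm C) θ d ∧ Cov M G₁ τ (ext0 i θ) ∧ (Y.stab C θ).map Y.proj = ⊤}) = 0

/-- RTP. The sum over the chains of `G₂` is zero. (Let `Y = O_p(G₂)` (A2 of di), normal in `Γ`. If
`Y ≠ ⊥` use A4 of di. If `Y = ⊥`: A7 and A8 of di with `i = G₂.subtype`, A14; RCT; RBL with `XQ G₂`.) -/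
def RTP_stmt : Prop :=
  ∀ (Γ : Type) [Group Γ] [Finite Γ] (p : ℕ) [Fact p.Prime] (M : Ideal (integralClosure ℤ ℂ)),
    M.IsMaximal → (p : integralClosure ℤ ℂ) ∈ M → ∀ (G₁ G₂ : Subgroup Γ) [G₂.Normal],
    InvFor p M (Γ ⧸ G₂) → ∀ (τ : Γ → ℂ) (D : ℤ), 1 ≤ D →
    cSum p G₂ ⊥ ⊤ (hf p M G₁ G₂ τ D) = 0

/-- RYE. The extension `1 → G₁ ⊓ cz R → nz R / R → Γ / G₂ → 1` for a complement `R` of `G₁` in `G₂`.
(`G₁ ⊓ nz R = G₁ ⊓ cz R`, `nz R ⊓ G₂ = R ⊔ (G₁ ⊓ cz R)`, `R` is abelian. `E' = nz R ⧸ R`; the projection is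
induced by `nz R → Γ → Γ ⧸ G₂`, surjective as `nz R ⊔ G₂ = ⊤`. The action: conjugation; `R` acts
trivially.) -/
def RYE_stmt : Prop :=
  ∀ (Γ : Type) [Group Γ] [Finite Γ] (G₁ G₂ R : Subgroup Γ) [G₂.Normal], G₁.Normal → G₁ ≤ G₂ →
    (∀ x ∈ G₂, ∀ y ∈ G₂, x * y * x⁻¹ * y⁻¹ ∈ G₁) → R ≤ G₂ → R ⊓ G₁ = ⊥ → R ⊔ G₁ = G₂ →
    nz R ⊔ G₂ = ⊤ → (nz R ⊓ G₂ = R ⊔ (G₁ ⊓ cz R)) ∧ (∀ x ∈ R, ∀ y ∈ R, x * y = y * x) ∧
    ∃ (E' : Type) (_ : Group E') (_ : Finite E') (Y : Extension ↥(G₁ ⊓ cz R) E' (Γ ⧸ G₂))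
      (π : nz R →* E'), Function.Surjective π ∧ (∀ x : nz R, π x = 1 ↔ (x : Γ) ∈ R) ∧
      (∀ (k : ↥(G₁ ⊓ cz R)) (hk : (k : Γ) ∈ nz R), π ⟨k, hk⟩ = Y.inc k) ∧
      (∀ m : nz R, Y.proj (π m) = QuotientGroup.mk' G₂ (m : Γ)) ∧
      ∀ (m : nz R) (k : ↥(G₁ ⊓ cz R)), ((Y.act (π m) k : ↥(G₁ ⊓ cz R)) : Γ) = m * k * (m : Γ)⁻¹

/-- RDP. Characters of `R ⊔ N'` for commuting `R`, `N'` with `R ⊓ N' = ⊥` and `R` abelian: products of a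
linear character `l` of `R` and an irreducible character `θ` of `N'`. (`R ⊔ N' ≃* R × N'`; IRP2, IRC2 of
`helper58/DC/Spec1` or a central character argument: `R` acts by scalars.) -/
def RDP_stmt : Prop :=
  ∀ (Γ : Type) [Group Γ] [Finite Γ] (R N' : Subgroup Γ), (∀ x ∈ R, ∀ y ∈ R, x * y = y * x) →
    (∀ x ∈ R, ∀ y ∈ N', x * y = y * x) → R ⊓ N' = ⊥ →
    (∀ l : R → ℂˣ, (∀ x y, l (x * y) = l x * l y) → ∀ θ ∈ IrrOn N', ∃ φ ∈ IrrOn (R ⊔ N'),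
      ∀ (x : R), ∀ y ∈ N', φ (x * y) = l x * θ y) ∧
    (∀ φ ∈ IrrOn (R ⊔ N'), ∃ l : R → ℂˣ, (∀ x y, l (x * y) = l x * l y) ∧ ∃ θ ∈ IrrOn N',
      ∀ (x : R), ∀ y ∈ N', φ (x * y) = l x * θ y) ∧
    (∀ (l l' : R → ℂˣ), (∀ x y, l (x * y) = l x * l y) → (∀ x y, l' (x * y) = l' x * l' y) →
      ∀ θ ∈ IrrOn N', ∀ θ' ∈ IrrOn N', (∀ (x : R), ∀ y ∈ N', (l x : ℂ) * θ y = l' x * θ' y) →
      l = l' ∧ θ = θ')

/-- RYC. The function `hf` for chains of `K = G₁ ⊓ cz R`. Let `N = nz R ⊓ nrm (cmap K.subtype C)`. `R` is contained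
in `N`, `N ⊓ G₂ = R ⊔ N'` with `N' = (nrm C).map K.subtype`. By RDP the `φ ∈ IrrOn (N ⊓ G₂)` are the
products `l θ`; `φ` is `N`-invariant iff `l` and `θ` are; `Defect p (N ⊓ G₂) φ D` iff `θ` has defect
`D - v_p|R|`; `Cov` for `φ` and `θ` are equivalent, because `φ` and `θ` agree on `G₁`. If `N ⊔ G₂ = ⊤` then
`nz R = N * (nz R ⊓ G₂)`, and `nz R ⊓ G₂ = R ⊔ K` centralises `R`; so `l` is `N`-invariant iff it is
`nz R`-invariant. As in RCT, `N ⊔ G₂ = ⊤` and `θ` is `N`-invariant iff `(Y.stab C θ).map Y.proj = ⊤`. -/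
def RYC_stmt : Prop :=
  ∀ (Γ : Type) [Group Γ] [Finite Γ] (p : ℕ) [Fact p.Prime] (M : Ideal (integralClosure ℤ ℂ))
    (G₁ G₂ R : Subgroup Γ) [G₂.Normal], G₁.Normal → G₁ ≤ G₂ → R ≤ G₂ → R ⊓ G₁ = ⊥ →
    nz R ⊓ G₂ = R ⊔ (G₁ ⊓ cz R) → (∀ x ∈ R, ∀ y ∈ R, x * y = y * x) →
    ∀ (E' : Type) [Group E'] [Finite E'] (Y : Extension ↥(G₁ ⊓ cz R) E' (Γ ⧸ G₂))
      (π : nz R →* E'), Function.Surjective π → (∀ x : nz R, π x = 1 ↔ (x : Γ) ∈ R) →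
      (∀ (k : ↥(G₁ ⊓ cz R)) (hk : (k : Γ) ∈ nz R), π ⟨k, hk⟩ = Y.inc k) →
      (∀ m : nz R, Y.proj (π m) = QuotientGroup.mk' G₂ (m : Γ)) →
      (∀ (m : nz R) (k : ↥(G₁ ⊓ cz R)), ((Y.act (π m) k : ↥(G₁ ⊓ cz R)) : Γ) =
        m * k * (m : Γ)⁻¹) →
    ∀ (τ : Γ → ℂ) (D : ℤ) (C : Finset (Subgroup ↥(G₁ ⊓ cz R))),
    IsChain (· ≤ ·) (C : Set (Subgroup ↥(G₁ ⊓ cz R))) → C.Nonempty →
    hf p M G₁ G₂ τ D (nz R ⊓ nrm (cmap (G₁ ⊓ cz R).subtype C)) =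
      (Nat.card R : ℤ) * Nat.card {l : R → ℂˣ // (∀ x y, l (x * y) = l x * l y) ∧
        ∀ m ∈ nz R, ∀ x y : R, (y : Γ) = m * x * m⁻¹ → l y = l x} *
      ((Nat.card (nrm C) : ℤ) * Nat.card {θ : ↥(G₁ ⊓ cz R) → ℂ // θ ∈ IrrOn (nrm C) ∧
        Defect p (nrm C) θ (D - padicValNat p (Nat.card R)) ∧
        Cov M G₁ τ (ext0 (G₁ ⊓ cz R).subtype θ) ∧ (Y.stab C θ).map Y.proj = ⊤})

/-- RCC. The correction terms vanish. (If `nz R ⊔ G₂ ≠ ⊤` all values of `hf` on subgroups of `nz R` are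
`0`. Otherwise let `K = G₁ ⊓ cz R`, `Y₀ = O_p(K)`; `nz R` normalises `K` and `Y₀`. If `Y₀ ≠ ⊥` use A4 of di. If
`Y₀ = ⊥`: A7, A8 of di (`i = K.subtype`), A14, RYE, RYC, and RBL with `d = D - v_p|R|`; note
`InvFor p M (Γ ⧸ G₂)`.) -/
def RCC_stmt : Prop :=
  ∀ (Γ : Type) [Group Γ] [Finite Γ] (p : ℕ) [Fact p.Prime] (M : Ideal (integralClosure ℤ ℂ)),
    M.IsMaximal → (p : integralClosure ℤ ℂ) ∈ M → ∀ (G₁ G₂ R : Subgroup Γ) [G₂.Normal],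
    G₁.Normal → G₁ ≤ G₂ → (∀ x ∈ G₂, ∀ y ∈ G₂, x * y * x⁻¹ * y⁻¹ ∈ G₁) →
    InvFor p M (Γ ⧸ G₂) → IsPGroup p R → R ≤ G₂ → R ⊓ G₁ = ⊥ → R ⊔ G₁ = G₂ →
    ∀ (τ : Γ → ℂ) (D : ℤ), (padicValNat p (Nat.card R) : ℤ) + 1 ≤ D →
    cSum p (G₁ ⊓ cz R) ⊥ (nz R) (hf p M G₁ G₂ τ D) = 0

/-- RST. Stabilisers. (B13, B14 of di for `i = X.inc`; `e ∈ nrm (cmap X.inc C)` iff
`chainMap (X.act e) C = C`; `X.proj.ker = X.inc.range` by `X.exact`; `ψ` is fixed by `nrm C`, SN of dq.) -/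
def RST_stmt : Prop :=
  ∀ (G E A : Type) [Group G] [Group E] [Group A] [Finite G] [Finite E] (X : Extension G E A)
    (C : Finset (Subgroup G)), IsChain (· ≤ ·) (C : Set (Subgroup G)) → C.Nonempty →
    X.proj.ker = X.inc.range ∧
    nrm (cmap X.inc C) ⊓ X.inc.range = (nrm C).map X.inc ∧
    ∀ ψ ∈ IrrOn (nrm C), stF (nrm (cmap X.inc C)) (ext0 X.inc ψ) = X.stab C ψ ∧
      X.stab C ψ ⊓ X.proj.ker = (nrm C).map X.inc ∧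
      (∀ s ∈ X.stab C ψ, funMap (MulAut.conj s) (ext0 X.inc ψ) = ext0 X.inc ψ)

/-- RPA. From chains to the relation. Proof: by A7, A14, A8 of di (`i = X.inc`, `M = ⊤`) the sum over the
radical chains `C` of `G` of `(-1) ^ (C.card + 1) * hf (nrm (cmap X.inc C))` is zero. Use CFE for
`N = nrm (cmap X.inc C)`; by RST and B13 of di the `ψ` there are the `ext0 X.inc ψ₀`, `ψ₀ ∈ IrrOn (nrm C)`, and
`stF N ψ = X.stab C ψ₀`, `N ⊓ G₁ = X.stab C ψ₀ ⊓ X.proj.ker`, `stF N ψ ⊔ N₀.comap X.proj = ⊤` iff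
`(X.stab C ψ₀).map X.proj ⊔ N₀ = ⊤`. `Cov` for `ext0 X.inc ψ₀` and `τ = omega (ext0 X.inc χ)` is equivalent to
`Induces M ψ₀ χ`: `ψ₀` induces to some `b ∈ Irr G` (C9 of di), `Cov` for `ext0 ψ₀` and `ext0 b` are
equivalent (C16), `Cov` for `b` implies `Induces M b χ` (C10), and conversely (C16); IM of dq. -/
def RPA_stmt : Prop :=
  ∀ (G E A : Type) [Group G] [Group E] [Group A] [Finite G] [Finite E] (X : Extension G E A)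
    (p : ℕ) [Fact p.Prime] (M : Ideal (integralClosure ℤ ℂ)), M.IsMaximal →
    (p : integralClosure ℤ ℂ) ∈ M → IsOp p (⊤ : Subgroup G) ⊥ → ∀ χ ∈ Irr G, Stable X M χ →
    ∀ (N : Subgroup A), N.Normal → ∀ D : ℤ,
    cSum p X.inc.range ⊥ ⊤
      (hf p M X.inc.range (N.comap X.proj) (omega (ext0 X.inc χ)) D) = 0 → Rel X p M χ N D

/-- RLB. The relation, `p ∤ |N|`. (`G₁ = X.inc.range`, `G₂ = N.comap X.proj`, `E ⧸ G₂ ≃* A ⧸ N`; RTP, CHB with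
`m = |N|` (ECD), RPA.) -/
def RLB_stmt : Prop :=
  ∀ (G E A : Type) [Group G] [Group E] [Group A] [Finite G] [Finite E] [Finite A]
    (X : Extension G E A) (p : ℕ) [Fact p.Prime] (M : Ideal (integralClosure ℤ ℂ)), M.IsMaximal →
    (p : integralClosure ℤ ℂ) ∈ M → IsOp p (⊤ : Subgroup G) ⊥ → ∀ χ ∈ Irr G, Stable X M χ →
    ∀ (N : Subgroup A) [N.Normal], ¬ p ∣ Nat.card N → InvFor p M (A ⧸ N) → ∀ D : ℤ, 1 ≤ D →
    Rel X p M χ N D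

/-- RLA. The relation, `N` an abelian minimal normal `p`-subgroup. (RTP, CHA with RCC, RPA. The
hypotheses of CHA: `G₂ / G₁ = N` is abelian; a normal subgroup `K` between `G₁` and `G₂` is
`(K.map X.proj).comap X.proj`; `hf` is `0` if `N ⊔ G₂ ≠ ⊤` by definition. For a complement `R` of `G₁` in
`G₂`: `|R| = |N|`.) -/
def RLA_stmt : Prop :=
  ∀ (G E A : Type) [Group G] [Group E] [Group A] [Finite G] [Finite E] [Finite A]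
    (X : Extension G E A) (p : ℕ) [Fact p.Prime] (M : Ideal (integralClosure ℤ ℂ)), M.IsMaximal →
    (p : integralClosure ℤ ℂ) ∈ M → IsOp p (⊤ : Subgroup G) ⊥ → ∀ χ ∈ Irr G, Stable X M χ →
    ∀ (N : Subgroup A) [N.Normal], MinAb N → InvFor p M (A ⧸ N) →
    ∀ D : ℤ, (padicValNat p (Nat.card N) : ℤ) + 1 ≤ D → Rel X p M χ N D

end Pool.Agent.DR
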