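import Mathlib
import Pool.Agent.helper35.DR.SpecK
import Pool.Agent.helper35.DR.SpecR
import Pool.Agent.helper58.DC.Spec2

/-!
# Project dr (MP_baa4d7_al), part P: the fibre square; `N` is a `p`-group

Rules: see `SpecA.lean`. All of `helper58/DC/Spec1` is proved (see `helper58/DC/All.lean`), except that
IO, PA, PR, PT need IRP, IRC, which follow from IRP2, IRC2 (proved, see `helper58/DC/FG.lean` or
`helper83`); they may be taken as hypotheses.
`X2 X = kext X (diag A)` has the elements `e` with `X.proj (e.f t) = e.l` for both `t : TT`, the action on `TT`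
is trivial, so `(X2 X).act e x t = X.act (e.f t) (x t)`.
-/

set_option autoImplicit false

namespace Pool.Agent.DR

open Pool.Agent.helper58.DC Pool.Agent.DI

/-- PCH. Chains of `T → G` are families of chains of `G` with a path (AS, AX, AU of dq); the signed
number of paths is PSG of dq (`(-1) ^ (W.card - 1)`; all chains and paths are nonempty). -/
def PCH_stmt : Prop :=
  ∀ (G T : Type) [Group G] [Finite G] [Fintype T] (p : ℕ) [Fact p.Prime],
    IsOp p (⊤ : Subgroup G) ⊥ → ∀ (Φ : Finset (Subgroup (T → G)) → ℤ)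
    (Φ' : (T → Finset (Subgroup G)) → ℤ),
    (∀ C : T → Finset (Subgroup G), (∀ t, IsRadical p (C t)) → ∀ W : Finset (T → ℕ),
      IsPath (fun t => (C t).card - 1) W → Φ (asmC C W) = Φ' C) →
    ∑ᶠ C' ∈ {C' : Finset (Subgroup (T → G)) | IsRadical p C'}, (-1) ^ (C'.card + 1) * Φ C' =
      ∑ᶠ C ∈ {C : T → Finset (Subgroup G) | ∀ t, IsRadical p (C t)},
        (∏ t, (-1) ^ ((C t).card + 1)) * Φ' C

/-- PSB. Stabilisers. (AE of dq: `chainMap ((X2 X).act e) (asmC C W) = asmC (t ↦ chainMap (X.act (e.f t)) (C t)) W`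
(the action on `TT` and on `W` is trivial); by AU it is `asmC C W` iff all components are fixed. SK of dq:
`funMap ((X2 X).act e) (tens ψ)` is the product of the `funMap (X.act (e.f t)) (ψ t)`; if `e` fixes the chain
these are irreducible characters of `nrm (C t)` and by IO (uniqueness) the product is `tens ψ` iff the
factors agree.) -/
def PSB_stmt : Prop :=
  ∀ (G E A : Type) [Group G] [Group E] [Group A] [Finite G] [Finite E] (X : Extension G E A)
    (p : ℕ) [Fact p.Prime], IsOp p (⊤ : Subgroup G) ⊥ → ∀ (C : TT → Finset (Subgroup G)),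
    (∀ t, IsRadical p (C t)) → ∀ W : Finset (TT → ℕ), IsPath (fun t => (C t).card - 1) W →
    ∀ ψ : TT → G → ℂ, (∀ t, ψ t ∈ IrrOn (nrm (C t))) →
    (X2 X).stab (asmC C W) (tens ψ) = prS X (fun t => X.stab (C t) (ψ t))

/-- PMP. The image and the kernel. (`e.l = X.proj (e.f t)`; for `l` in both images choose the
components. The kernel of `(X2 X).proj` consists of the `(X2 X).inc x`, with components `X.inc (x t)`.) -/
def PMP_stmt : Prop :=
  ∀ (G E A : Type) [Group G] [Group E] [Group A] [Finite G] [Finite E] (X : Extension G E A)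
    (S : TT → Subgroup E),
    (prS X S).map (X2 X).proj = (S t₀).map X.proj ⊓ (S t₁).map X.proj ∧
    Nat.card (prS X S ⊓ (X2 X).proj.ker : Subgroup (KE X (diag A))) =
      Nat.card (S t₀ ⊓ X.proj.ker : Subgroup E) * Nat.card (S t₁ ⊓ X.proj.ker : Subgroup E) ∧
    Finite (KE X (diag A))

/-- PDL. Duals. (`χ g⁻¹` is the character of the dual representation; the class of `g⁻¹` consists of the
inverses, so `omega (dl ψ) g = omega ψ g⁻¹`; `funMap α (dl ψ) = dl (funMap α ψ)`.) -/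
def PDL_stmt : Prop :=
  ∀ (G : Type) [Group G] [Finite G] (ψ χ : G → ℂ), dl (dl ψ) = ψ ∧
    (∀ H : Subgroup G, dl ψ ∈ IrrOn H ↔ ψ ∈ IrrOn H) ∧ (dl χ ∈ Irr G ↔ χ ∈ Irr G) ∧
    (∀ (p : ℕ) (H : Subgroup G) (d : ℤ), Defect p H (dl ψ) d ↔ Defect p H ψ d) ∧
    (∀ M : Ideal (integralClosure ℤ ℂ), Induces M (dl ψ) (dl χ) ↔ Induces M ψ χ) ∧
    (∀ (E A : Type) [Group E] [Group A] (X : Extension G E A) (C : Finset (Subgroup G)),
      X.stab C (dl ψ) = X.stab C ψ)

/-- PFM. The block of the family `fam χ`. (IRP, IP of dq and PDL; `Stable`: SK first item, IP;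
`O_p`: PT of dq.) -/
def PFM_stmt : Prop :=
  ∀ (G E A : Type) [Group G] [Group E] [Group A] [Finite G] [Finite E] (X : Extension G E A)
    (p : ℕ) [Fact p.Prime] (M : Ideal (integralClosure ℤ ℂ)), ∀ χ ∈ Irr G, Stable X M χ →
    tens (fam χ) ∈ Irr (TT → G) ∧ Stable (X2 X) M (tens (fam χ)) ∧
    (IsOp p (⊤ : Subgroup G) ⊥ → IsOp p (⊤ : Subgroup (TT → G)) ⊥)

open Classical in
/-- PIR. Characters of `nrm (asmC C W)` in the block of `tens (fam χ)` are the
`tens (two ψ₀ (dl ψ₁))` with `ψ₀ ∈ IrrOn (nrm (C t₀))`, `ψ₁ ∈ IrrOn (nrm (C t₁))` in the block of `χ`; sum of a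
function over them. (AS of dq: `nrm (asmC C W)` is the product; IO, IP of dq; PDL.) -/
def PIR_stmt : Prop :=
  ∀ (G : Type) [Group G] [Finite G] (p : ℕ) [Fact p.Prime] (M : Ideal (integralClosure ℤ ℂ)),
    IsOp p (⊤ : Subgroup G) ⊥ → ∀ χ ∈ Irr G, ∀ (C : TT → Finset (Subgroup G)),
    (∀ t, IsRadical p (C t)) → ∀ W : Finset (TT → ℕ), IsPath (fun t => (C t).card - 1) W →
    ∀ (F : ((TT → G) → ℂ) → ℤ),
    ∑ᶠ ψ' ∈ {ψ' : (TT → G) → ℂ | ψ' ∈ IrrOn (nrm (asmC C W)) ∧ Induces M ψ' (tens (fam χ))}, F ψ' =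
      ∑ᶠ ψ₀ ∈ {ψ₀ : G → ℂ | ψ₀ ∈ IrrOn (nrm (C t₀)) ∧ Induces M ψ₀ χ},
        ∑ᶠ ψ₁ ∈ {ψ₁ : G → ℂ | ψ₁ ∈ IrrOn (nrm (C t₁)) ∧ Induces M ψ₁ χ},
          F (tens (two ψ₀ (dl ψ₁)))

open Classical in
/-- PRL. The relation for the fibre square as a sum over pairs of pairs. (Rel for `X2 X`; PCH with
`T = TT`, PIR with `F ψ' = if (stab).map proj ⊔ N = ⊤ then relT .. else 0`, PSB, PMP, PDL; a sum over a
family `C : TT → ..` is a double sum, a sum over radical chains and characters is a sum over pairs.) -/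
def PRL_stmt : Prop :=
  ∀ (G E A : Type) [Group G] [Group E] [Group A] [Finite G] [Finite E] (X : Extension G E A)
    (p : ℕ) [Fact p.Prime] (M : Ideal (integralClosure ℤ ℂ)), IsOp p (⊤ : Subgroup G) ⊥ →
    ∀ χ ∈ Irr G, ∀ (N : Subgroup A) (D : ℤ), Rel (X2 X) p M (tens (fam χ)) N D →
    ∑ᶠ x ∈ {x : Finset (Subgroup G) × (G → ℂ) | IsPair p M χ x},
      ∑ᶠ y ∈ {y : Finset (Subgroup G) × (G → ℂ) | IsPair p M χ y},
        (-1) ^ (x.1.card + 1) * (-1) ^ (y.1.card + 1) *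
          (if (Vx X x ⊓ Vx X y) ⊔ N = ⊤ then relP X p N x y D else 0) = 0

/-- PFU. Full pairs: both stabilisers cover `A`. Every pair `x` with `Vx X x = ⊤` has an associated
cocycle `a x` (TEX with `q = X.proj`, `S = X.stab x.1 x.2`, RST), and `relP` is given by TIN for `X2 X`: the
cocycle of the product is `a x * (a y)⁻¹` (TPR, TDU; `ext0 X.inc (dl ψ) = dl (ext0 X.inc ψ)`), the defect
of the product character is `dfc p x + dfc p y`, orders by ECD, PMP and RST. -/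
def PFU_stmt : Prop :=
  ∀ (G E A : Type) [Group G] [Group E] [Group A] [Finite G] [Finite E] [Finite A]
    (X : Extension G E A) (p : ℕ) [Fact p.Prime] (M : Ideal (integralClosure ℤ ℂ)),
    IsOp p (⊤ : Subgroup G) ⊥ → ∀ χ ∈ Irr G,
    ∃ a : Finset (Subgroup G) × (G → ℂ) → A → A → ℂˣ,
      (∀ x, IsPair p M χ x → Vx X x = ⊤ → a x ∈ Coc A) ∧
      ∀ x y, IsPair p M χ x → IsPair p M χ y → Vx X x = ⊤ → Vx X y = ⊤ →
      ∀ (N : Subgroup A), N.Normal → ∀ D : ℤ,
      relP X p N x y D = (Nat.card N : ℤ) * (Nat.card (nrm x.1) * Nat.card (nrm y.1)) *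
        GN N (a x * (a y)⁻¹)⁻¹
          (fun k => (padicValNat p k : ℤ) = dfc p x + dfc p y + padicValNat p (Nat.card N) - D)

open Classical in
/-- PCO. Complement pairs. (`S ⊓ N.comap proj = S ⊓ proj.ker` as `(Vx x ⊓ Vx y) ⊓ N = ⊥`; TIS.) -/
def PCO_stmt : Prop :=
  ∀ (G E A : Type) [Group G] [Group E] [Group A] [Finite G] [Finite E] [Finite A]
    (X : Extension G E A) (p : ℕ) [Fact p.Prime] (M : Ideal (integralClosure ℤ ℂ)),
    IsOp p (⊤ : Subgroup G) ⊥ → ∀ χ ∈ Irr G, ∀ x y, IsPair p M χ x → IsPair p M χ y →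
    ∀ N : Subgroup A, (Vx X x ⊓ Vx X y) ⊓ N = ⊥ → ∀ D : ℤ,
    relP X p N x y D = (Nat.card (nrm x.1) * Nat.card (nrm y.1) : ℤ) *
      (if dfc p x + dfc p y = D then 1 else 0)

/-- PAL. `altSum` as a sum over pairs. (D1 of di; `Defect p (nrm C) ψ d` iff `dfc p (C, ψ) = d` for
`ψ ∈ IrrOn (nrm C)`.) -/
def PAL_stmt : Prop :=
  ∀ (G E A : Type) [Group G] [Group E] [Group A] [Finite G] (X : Extension G E A) (p : ℕ)
    (M : Ideal (integralClosure ℤ ℂ)), ∀ χ ∈ Irr G, ∀ (d : ℤ) (U : Subgroup A),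
    (Nat.card G : ℤ) * altSum X p M χ d U =
      ∑ᶠ x ∈ {x : Finset (Subgroup G) × (G → ℂ) | IsPair p M χ x ∧ dfc p x = d ∧ Vx X x = U},
        (-1) ^ (x.1.card + 1) * (Nat.card (nrm x.1) : ℤ)

/-- PEQ. The main equation. Proof: PRL (with RLA for `X2 X`, PFM, PMP). The condition
`(Vx x ⊓ Vx y) ⊔ N = ⊤` holds iff `Vx x = Vx y = ⊤` or `Vx x ⊓ Vx y` is a complement `V` (GVM). First kind: PFU.
Second kind: by PCO, for fixed `V`, the sum of `w x * w y` over the pairs with `Vx x ⊓ Vx y = V` and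
`dfc x + dfc y = D`, `w x = (-1)^(card + 1) |nrm x.1|`. By GVM (`V` is maximal) these are the pairs with
`Vx x, Vx y ∈ {V, ⊤}`, not both `⊤`. The sum of the `w x` with `Vx x ∈ {V, ⊤}`, `dfc x = d` is
`|G| (altSum V + altSum ⊤) = 0` (PAL and the hypothesis). So the second kind contributes
`- ncpl N * ∑_{Vx x = Vx y = ⊤, dfc x + dfc y = D} w x * w y`. -/
def PEQ_stmt : Prop :=
  ∀ (G E A : Type) [Group G] [Group E] [Group A] [Finite G] [Finite E] [Finite A]
    (X : Extension G E A) (p : ℕ) [Fact p.Prime] (M : Ideal (integralClosure ℤ ℂ)), M.IsMaximal →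
    (p : integralClosure ℤ ℂ) ∈ M → IsOp p (⊤ : Subgroup G) ⊥ → ∀ χ ∈ Irr G, Stable X M χ →
    ∀ (N : Subgroup A) [N.Normal], MinAb N → InvFor p M (A ⧸ N) →
    (∀ V : Subgroup A, IsCpl N V → ∀ d : ℤ, altSum X p M χ d V + altSum X p M χ d ⊤ = 0) →
    ∃ a : Finset (Subgroup G) × (G → ℂ) → A → A → ℂˣ,
      (∀ x, IsPair p M χ x → Vx X x = ⊤ → a x ∈ Coc A) ∧
      ∀ D : ℤ, (padicValNat p (Nat.card N) : ℤ) + 1 ≤ D →
      (Nat.card N : ℤ) *
        ∑ᶠ x ∈ {x : Finset (Subgroup G) × (G → ℂ) | IsPair p M χ x ∧ Vx X x = ⊤},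
        ∑ᶠ y ∈ {y : Finset (Subgroup G) × (G → ℂ) | IsPair p M χ y ∧ Vx X y = ⊤},
          ((-1) ^ (x.1.card + 1) * (Nat.card (nrm x.1) : ℤ)) *
            ((-1) ^ (y.1.card + 1) * (Nat.card (nrm y.1) : ℤ)) *
          GN N (a x * (a y)⁻¹)⁻¹
            (fun k => (padicValNat p k : ℤ) = dfc p x + dfc p y + padicValNat p (Nat.card N) - D) =
      (ncpl N : ℤ) *
        ∑ᶠ x ∈ {x : Finset (Subgroup G) × (G → ℂ) | IsPair p M χ x ∧ Vx X x = ⊤},
        ∑ᶠ y ∈ {y : Finset (Subgroup G) × (G → ℂ) | IsPair p M χ y ∧ Vx X y = ⊤ ∧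
          dfc p x + dfc p y = D},
          ((-1) ^ (x.1.card + 1) * (Nat.card (nrm x.1) : ℤ)) *
            ((-1) ^ (y.1.card + 1) * (Nat.card (nrm y.1) : ℤ))

open Classical in
/-- PAB. The top coefficient argument. Proof: for a coset `c` of `K` let `ν c e` be the sum of the `w x` with
`a x ∈ c`, `d x = e`. Suppose that `ν c e ≠ 0` for some `c` and `e ≥ 1`; let `e₀` be the largest such `e` and
`D = 2 e₀ + v`. On the left the terms with `d x + d y < 2 e₀` vanish (negative first argument of `g`). For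
`d x + d y ≥ 2 e₀`, either `d x = d y = e₀`, or one of them, say `d x = e`, is `> e₀`; then the sum over the `x`
with `a x` in a given coset and `d x = e` is `0`, as `g j` depends only on the coset of its argument. What
remains is `m * c₀ * ∑_c (ν c e₀) ^ 2 > 0` (`g 0` vanishes for different cosets). On the right `D > 2 e₀` since `v ≥ 1`, so in
every term `d x > e₀` or `d y > e₀`, and the sum is `0` because `∑_c ν c e = 0` for `e > e₀`. Contradiction. So
all `ν c e` with `e ≥ 1` are `0`, and so are their sums over `c`. -/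
def PAB_stmt : Prop :=
  ∀ (𝒢 : Type) [CommGroup 𝒢] (K : Subgroup 𝒢) (g : ℤ → 𝒢 → ℤ) (c₀ m c v : ℤ), 0 < c₀ → 0 < m →
    1 ≤ v → (∀ j u κ, κ ∈ K → g j (u * κ) = g j u) → (∀ u, g 0 u = if u ∈ K then c₀ else 0) →
    (∀ j < 0, ∀ u, g j u = 0) → ∀ (Y : Type) [Fintype Y] (w d : Y → ℤ) (a : Y → 𝒢),
    (∀ D : ℤ, v + 1 ≤ D → m * ∑ x : Y, ∑ y : Y, w x * w y * g (d x + d y + v - D) (a x * (a y)⁻¹)⁻¹ =
      c * ∑ x : Y, ∑ y : Y, if d x + d y = D then w x * w y else 0) →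
    ∀ e : ℤ, 1 ≤ e → ∑ y : Y, (if d y = e then w y else 0) = 0

/-- PCA. Case (a). (PEQ, PAB with `𝒢 = Coc A`, `K = Kc N` (a subgroup of it), `g j β = GN N β (v_p(k) = j)`:
KML, KPG (`GMN`: `N` has exponent `p` as `p ∣ |N|`), KLN for `c₀ > 0`; `Y` the finite set of all pairs with
`Vx X x = ⊤`; PAL.) -/
def PCA_stmt : Prop :=
  ∀ (G E A : Type) [Group G] [Group E] [Group A] [Finite G] [Finite E] [Finite A]
    (X : Extension G E A) (p : ℕ) [Fact p.Prime] (M : Ideal (integralClosure ℤ ℂ)), M.IsMaximal →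
    (p : integralClosure ℤ ℂ) ∈ M → IsOp p (⊤ : Subgroup G) ⊥ → ∀ χ ∈ Irr G, Stable X M χ →
    ∀ (N : Subgroup A) [N.Normal], MinAb N → p ∣ Nat.card N → InvFor p M (A ⧸ N) →
    (∀ V : Subgroup A, IsCpl N V → ∀ d : ℤ, altSum X p M χ d V + altSum X p M χ d ⊤ = 0) →
    ∀ d : ℤ, 1 ≤ d → altSum X p M χ d ⊤ = 0

end Pool.Agent.DR
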