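import Mathlib
import Pool.Agent.helper35.DR.SpecP

/-!
# Project dr (MP_baa4d7_al), part Z: the cover; `N` is an `r`-group, `r ≠ p`; final induction

Rules: see `SpecA.lean`. `Cv A n` is the central extension of `A` by `Zn A n`, the dual group of
`Bn A n`; `prC A n : Cv A n → A`; `FC X n ≤ E × Cv A n` is the fibre product, `fcE X n : FC X n → E`,
`XC X n` the extension `1 → G → FC X n → Cv A n → 1`. Write `Nh = N.comap (prC A n)`,
`κ₀ = GN Nh 1 (fun _ => True)`, the number of the irreducible characters of `Nh` invariant under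
`Cv A n`.
-/

set_option autoImplicit false

namespace Pool.Agent.DR

open Pool.Agent.helper58.DC Pool.Agent.DI

/-- ZFN. Elementary facts on the cover. (`Bn A n` is finite for `n ≥ 1`: functions `A × A →` roots of
unity. `z ^ n = 1` for `z : Zn A n` because `β ^ n = 1` for `β ∈ Bn A n`; so `|Zn A n|` is a power of `r` if `n` is. The
kernel of `prC` is the set of the `(z, 1)`, which are central. The kernel of `fcE` consists of the
`(1, (z, 1))`, central in `FC X n`.) -/
def ZFN_stmt : Prop :=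
  ∀ (A : Type) [Group A] [Finite A] (n : ℕ), 1 ≤ n →
    Finite (Bn A n) ∧ Finite (Zn A n) ∧ Finite (Cv A n) ∧ Function.Surjective (prC A n) ∧
    Nat.card (prC A n).ker = Nat.card (Zn A n) ∧
    (∀ x ∈ (prC A n).ker, ∀ y, x * y = y * x) ∧
    (∀ r : ℕ, r.Prime → (∃ k, n = r ^ k) → ∃ j, Nat.card (Zn A n) = r ^ j) ∧
    (∀ (N : Subgroup A), Nat.card (N.comap (prC A n)) = Nat.card N * Nat.card (Zn A n)) ∧
    (∀ (N : Subgroup A) [N.Normal],
      Nonempty ((Cv A n ⧸ N.comap (prC A n)) ≃* (A ⧸ N))) ∧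
    ∀ (G E : Type) [Group G] [Group E] [Finite G] [Finite E] (X : Extension G E A),
      Finite (FC X n) ∧ Function.Surjective (fcE X n) ∧
      Nat.card (fcE X n).ker = Nat.card (Zn A n) ∧
      (∀ x ∈ (fcE X n).ker, ∀ y, x * y = y * x) ∧ (fcE X n).ker ⊓ (XC X n).proj.ker = ⊥

/-- ZKC. All inflated cocycles are in `Kc Nh`. Proof: by KBN `α = β * κ`, `β ∈ Bn A n`, `κ ∈ Kc N`. The
inflation of `κ` is in `Kc Nh` (compose `b` with `prC`). The inflation of `β`: take `b x = (x.z) β`; then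
`b x * b y = β(x.a, y.a)⁻¹ * b (x * y)`, as `(x * y).z = x.z * y.z * uB x.a y.a`; so the inflation of `β⁻¹` is the
coboundary of `b`, in `Kc Nh` by KCB. -/
def ZKC_stmt : Prop :=
  ∀ (A : Type) [Group A] [Finite A] (N : Subgroup A), N.Normal → ∀ r : ℕ, r.Prime →
    IsPGroup r N → ∀ α ∈ Coc A,
    (fun x y : Cv A (r ^ padicValNat r (Nat.card A)) => α x.a y.a) ∈
      Kc (N.comap (prC A (r ^ padicValNat r (Nat.card A))))

/-- ZGN. The numbers for `Nh`: `|Nh|` is prime to `p`, so the degrees of its irreducible characters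
are prime to `p` (B1 of di, KLN); KML with `1 * α⁻¹`, ZKC. -/
def ZGN_stmt : Prop :=
  ∀ (p : ℕ) [Fact p.Prime] (A : Type) [Group A] [Finite A] (N : Subgroup A), N.Normal →
    ∀ r : ℕ, r.Prime → r ≠ p → IsPGroup r N → ∀ α ∈ Coc A, ∀ j : ℤ,
    (j = 0 → GN (N.comap (prC A (r ^ padicValNat r (Nat.card A))))
        (fun x y : Cv A (r ^ padicValNat r (Nat.card A)) => α x.a y.a)⁻¹
        (fun k => (padicValNat p k : ℤ) = j) =
      GN (N.comap (prC A (r ^ padicValNat r (Nat.card A)))) 1 (fun _ => True)) ∧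
    (j ≠ 0 → GN (N.comap (prC A (r ^ padicValNat r (Nat.card A))))
        (fun x y : Cv A (r ^ padicValNat r (Nat.card A)) => α x.a y.a)⁻¹
        (fun k => (padicValNat p k : ℤ) = j) = 0)

/-- ZST. Stabilisers for `XC X n`. (`(XC X n).act x = X.act (fcE X n x)`. An element `x : Cv A n` is in
the image iff some `e ∈ X.stab C ψ` has `X.proj e = x.a`.) -/
def ZST_stmt : Prop :=
  ∀ (G E A : Type) [Group G] [Group E] [Group A] (X : Extension G E A) (n : ℕ)
    (C : Finset (Subgroup G)) (ψ : G → ℂ),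
    (XC X n).stab C ψ = (X.stab C ψ).comap (fcE X n) ∧
    ((XC X n).stab C ψ).map (XC X n).proj = ((X.stab C ψ).map X.proj).comap (prC A n) ∧
    (∀ (M : Ideal (integralClosure ℤ ℂ)) (χ : G → ℂ), Stable X M χ → Stable (XC X n) M χ)

open Classical in
/-- ZFL. Full pairs. (TEX for `X`, RST, TIF, TIN for `XC X n`, ZGN; order of `S ⊓ Nh.comap proj` by ECD, RST
for `XC X n`; `v_p|Nh| = 0`.) -/
def ZFL_stmt : Prop :=
  ∀ (G E A : Type) [Group G] [Group E] [Group A] [Finite G] [Finite E] [Finite A]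
    (X : Extension G E A) (p : ℕ) [Fact p.Prime] (N : Subgroup A), N.Normal → ∀ r : ℕ, r.Prime →
    r ≠ p → IsPGroup r N → ∀ (C : Finset (Subgroup G)), IsChain (· ≤ ·) (C : Set (Subgroup G)) →
    C.Nonempty → ∀ ψ ∈ IrrOn (nrm C), (X.stab C ψ).map X.proj = ⊤ → ∀ D : ℤ,
    relT (XC X (r ^ padicValNat r (Nat.card A))) p
        (N.comap (prC A (r ^ padicValNat r (Nat.card A)))) C ψ D =
      (Nat.card N : ℤ) * Nat.card (Zn A (r ^ padicValNat r (Nat.card A))) * Nat.card (nrm C) *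
        (if Defect p (nrm C) ψ D then
          (GN (N.comap (prC A (r ^ padicValNat r (Nat.card A)))) 1 (fun _ => True) : ℤ) else 0)

open Classical in
/-- ZCO. Complement pairs. Let `S = (XC X n).stab C ψ`, `V = (X.stab C ψ).map X.proj`, `Z₁ = (fcE X n).ker`, a
central subgroup contained in `S`. `S ⊓ Nh.comap proj` is the product of `H = S ⊓ proj.ker` (the image of
`nrm C`) and `Z₁` (its image in `Cv A n` is `V.comap prC ⊓ Nh = (prC A n).ker`). By RDP (`R = Z₁`) the
irreducible characters over `ψ` are the products `l ψ`, all `S`-invariant, `|Z₁| = |Zn|` of them (number of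
linear characters of a finite commutative group), of defect that of `ψ` (`p ∤ |Z₁|`). -/
def ZCO_stmt : Prop :=
  ∀ (G E A : Type) [Group G] [Group E] [Group A] [Finite G] [Finite E] [Finite A]
    (X : Extension G E A) (p : ℕ) [Fact p.Prime] (n : ℕ), 1 ≤ n → ¬ p ∣ Nat.card (Zn A n) →
    ∀ (N : Subgroup A), ∀ (C : Finset (Subgroup G)), IsChain (· ≤ ·) (C : Set (Subgroup G)) →
    C.Nonempty → ∀ ψ ∈ IrrOn (nrm C), (X.stab C ψ).map X.proj ⊓ N = ⊥ → ∀ D : ℤ,
    relT (XC X n) p (N.comap (prC A n)) C ψ D =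
      (Nat.card (Zn A n) : ℤ) * Nat.card (nrm C) *
        (if Defect p (nrm C) ψ D then (Nat.card (Zn A n) : ℤ) else 0)

open Classical in
/-- ZRL. The equation. (RLB for `XC X n` and `Nh`, `n = r ^ v_r|A|`; `|Nh| = |N| |Zn|` is prime to `p`;
`V ⊔ N = ⊤` iff `V = ⊤` or `V` is a complement (GVM); ZST; ZFL, ZCO; D1 of di.) -/
def ZRL_stmt : Prop :=
  ∀ (G E A : Type) [Group G] [Group E] [Group A] [Finite G] [Finite E] [Finite A]
    (X : Extension G E A) (p : ℕ) [Fact p.Prime] (M : Ideal (integralClosure ℤ ℂ)), M.IsMaximal →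
    (p : integralClosure ℤ ℂ) ∈ M → IsOp p (⊤ : Subgroup G) ⊥ → ∀ χ ∈ Irr G, Stable X M χ →
    ∀ (N : Subgroup A) [N.Normal], MinAb N → ∀ r : ℕ, r.Prime → r ≠ p → IsPGroup r N →
    InvFor p M (A ⧸ N) → ∀ D : ℤ, 1 ≤ D →
    (Nat.card N : ℤ) * GN (N.comap (prC A (r ^ padicValNat r (Nat.card A)))) 1 (fun _ => True) *
        altSum X p M χ D ⊤ +
      (Nat.card (Zn A (r ^ padicValNat r (Nat.card A))) : ℤ) *
        ∑ᶠ V : {V : Subgroup A // IsCpl N V}, altSum X p M χ D V.1 = 0

/-- ZNA. `κ₀ ≥ 1`, and `κ₀ ≤ |Zn|` if `N` is not central. (First part: KLN. Second part: let `σ` be counted by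
`κ₀`, `S` its representation. The `(z, 1)` are central in `Cv A n`, so they act by scalars (KSC), `S (z, 1) = l z`,
`l : Zn A n → ℂˣ` a homomorphism; `σ' a = σ (1, a)` on `N` is in `PIrr N β` and `PInv N β` for
`β a a' = l (uB a a')` (`(1, a) * (1, a') = (uB a a', 1) * (1, a a')`; norm: the sum over `Nh` is `|Zn|` times the sum
over `N`). By KNC `σ'` is determined by `l`, and `σ (z, a) = l z * σ' a`; so `σ ↦ l` is injective, and the number
of homomorphisms `Zn A n → ℂˣ` is `|Zn A n|` (finite commutative group).) -/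
def ZNA_stmt : Prop :=
  ∀ (A : Type) [Group A] [Finite A] (N : Subgroup A), MinAb N → ∀ n : ℕ, 1 ≤ n →
    1 ≤ GN (N.comap (prC A n)) 1 (fun _ => True) ∧
    ((∃ a : A, ∃ x ∈ N, a * x ≠ x * a) →
      GN (N.comap (prC A n)) 1 (fun _ => True) ≤ Nat.card (Zn A n))

/-- ZNB. `N` central. `N` is cyclic of prime order `r`, so `Nh` is commutative (generated by the central
subgroup `(prC A n).ker` and one element), and `κ₀` is the number of homomorphisms `l : Nh → ℂˣ` with
`l (a x a⁻¹) = l x` (KLN, KSC); so `κ₀ ≤ |Nh| = r |Zn|`, and `κ₀ = r |Zn|` iff `Nh` is central in `Cv A n`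
(homomorphisms separate the elements). For `x ∈ Nh` the map `a ↦ a x a⁻¹ x⁻¹` is a homomorphism
`Cv A n → (prC A n).ker` (as `N` is central), trivial on `Nh`. -/
def ZNB_stmt : Prop :=
  ∀ (A : Type) [Group A] [Finite A] (N : Subgroup A), MinAb N →
    (∀ a : A, ∀ x ∈ N, a * x = x * a) → ∀ n : ℕ, 1 ≤ n →
    GN (N.comap (prC A n)) 1 (fun _ => True) ≤ Nat.card N * Nat.card (Zn A n) ∧
    (GN (N.comap (prC A n)) 1 (fun _ => True) = Nat.card N * Nat.card (Zn A n) ↔
      ∀ x ∈ N.comap (prC A n), ∀ y, x * y = y * x) ∧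
    ∀ x ∈ N.comap (prC A n), ∃ f : Cv A n →* (prC A n).ker,
      (∀ a, ((f a : (prC A n).ker) : Cv A n) = a * x * a⁻¹ * x⁻¹) ∧ ∀ a ∈ N.comap (prC A n), f a = 1

/-- ZNC. `N` central of order `r`, exactly one complement `V`: `Nh` is central. (`V →* N` is trivial
(GCC), so `V` has no quotient of order `r`; the homomorphism `f` of ZNB induces a homomorphism from
`Cv A n ⧸ Nh ≃* A ⧸ N ≃* V` to an `r`-group, commutative, so it is trivial: a nontrivial
finite commutative `r`-group has a quotient of order `r`, and the image of `V` would be one.) -/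
def ZNC_stmt : Prop :=
  ∀ (A : Type) [Group A] [Finite A] (N : Subgroup A), MinAb N →
    (∀ a : A, ∀ x ∈ N, a * x = x * a) → ncpl N = 1 → ∀ k : ℕ,
    ∀ x ∈ N.comap (prC A (Nat.card N ^ k)), ∀ y, x * y = y * x

/-- ZND. `N` central of order `r`, a complement `V` and a nontrivial homomorphism `θ : V → N`: `Nh` is not
central, for `n = r ^ v_r|A|`, which is a multiple of `r`. (Let `ε : N × N → ℂˣ` be bilinear and
nondegenerate with values in the `r`-th roots of unity. For `a = v x`, `a' = v' x'` (`v, v' ∈ V`, `x, x' ∈ N`)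
put `β(a, a') = ε(θ v, x')`: bilinear, so a cocycle in `Bn A n`. Choose `v`, `x` with `ε(θ v, x) ≠ 1`; then
`(1, v) * (1, x) ≠ (1, x) * (1, v)`, because `uB v x` and `uB x v` differ at `β`.) -/
def ZND_stmt : Prop :=
  ∀ (A : Type) [Group A] [Finite A] (N : Subgroup A), MinAb N →
    (∀ a : A, ∀ x ∈ N, a * x = x * a) → ∀ V : Subgroup A, IsCpl N V → (∃ θ : V →* N, θ ≠ 1) →
    ¬ ∀ x ∈ N.comap (prC A (Nat.card N ^ padicValNat (Nat.card N) (Nat.card A))),
      ∀ y, x * y = y * x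

/-- ZNU. The numerical lemma. Let `κ₀`, `z = |Zn|`, `c = ncpl N`. `c = 0`: `κ₀ ≥ 1`. `N` not central:
`|N| ∣ c` (GCN), so `c ≥ 2 |N|`, and `κ₀ ≤ z` (ZNA): `|N| κ₀ ≤ |N| z < z c`. `N` central, `|N| = r`, `c ≠ 0, r`,
`c` a power of `r` (GCC): `c = 1`: `κ₀ = r z` (ZNC, ZNB), `r ^ 2 z ≠ z`. `c ≥ r ^ 2`: `κ₀ < r z` (ZNB, ZND; `c > 1`
gives a nontrivial `θ` by GCC), `r κ₀ < r ^ 2 z ≤ z c`. -/
def ZNU_stmt : Prop :=
  ∀ (A : Type) [Group A] [Finite A] (N : Subgroup A), MinAb N → ∀ r : ℕ, r.Prime →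
    IsPGroup r N → ncpl N ≠ Nat.card N →
    Nat.card N * GN (N.comap (prC A (r ^ padicValNat r (Nat.card A)))) 1 (fun _ => True) ≠
      Nat.card (Zn A (r ^ padicValNat r (Nat.card A))) * ncpl N

/-- ZCA. Case (b). (ZRL, the hypothesis on complements, ZNU.) -/
def ZCA_stmt : Prop :=
  ∀ (G E A : Type) [Group G] [Group E] [Group A] [Finite G] [Finite E] [Finite A]
    (X : Extension G E A) (p : ℕ) [Fact p.Prime] (M : Ideal (integralClosure ℤ ℂ)), M.IsMaximal →
    (p : integralClosure ℤ ℂ) ∈ M → IsOp p (⊤ : Subgroup G) ⊥ → ∀ χ ∈ Irr G, Stable X M χ →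
    ∀ (N : Subgroup A) [N.Normal], MinAb N → ¬ p ∣ Nat.card N → ncpl N ≠ Nat.card N →
    InvFor p M (A ⧸ N) →
    (∀ V : Subgroup A, IsCpl N V → ∀ d : ℤ, altSum X p M χ d V + altSum X p M χ d ⊤ = 0) →
    ∀ d : ℤ, 1 ≤ d → altSum X p M χ d ⊤ = 0

/-- FIS. Invariance under isomorphism. (Composition of isomorphisms; a subgroup `H` of `A` and its
image under `e` are isomorphic, and so are the quotients.) -/
def FIS_stmt : Prop :=
  ∀ (p : ℕ) (M : Ideal (integralClosure ℤ ℂ)) (Q Q' : Type) [Group Q] [Group Q'] (_ : Q ≃* Q'),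
    InvFor p M Q → InvFor p M Q'

/-- FST. The induction step for one extension. Suppose that `A` is not reduced and `InvFor` holds for all
proper subgroups and all proper quotients of `A`. Proof: by D13 of di it is enough that for every `U`
the sum of the `altSum X p M χ d V`, `V ≥ U`, is `0`; for `U ≠ ⊤` it is `altSum (resE X U) p M χ d ⊤ = 0` (RE of
dq). For `U = ⊤`: if the block is not stable use ST of dq; `d ≤ 0`: D6 of di. Otherwise take `N` from
`¬ Red p A`: PCA or ZCA; for a complement `V` the sum over `W ≥ V` has the two terms `V`, `⊤` (GVM). -/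
def FST_stmt : Prop :=
  ∀ (p : ℕ) [Fact p.Prime] (M : Ideal (integralClosure ℤ ℂ)), M.IsMaximal →
    (p : integralClosure ℤ ℂ) ∈ M → ∀ (G E A : Type) [Group G] [Group E] [Group A] [Finite G]
    [Finite E] (X : Extension G E A), ¬ Red p A →
    (∀ U : Subgroup A, U ≠ ⊤ → InvFor p M U) →
    (∀ (N : Subgroup A) [N.Normal], N ≠ ⊥ → InvFor p M (A ⧸ N)) →
    IsOp p (⊤ : Subgroup G) ⊥ → ∀ χ ∈ Irr G, PosDefect p M χ →
    ∀ (d : ℤ) (U : Subgroup A), altSum X p M χ d U = 0

/-- FTR. Trivial quotient. (`X.inc` is surjective, the conditions on the stabilisers are empty, so the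
numbers `kC` for `X` and for `trivE G` are equal.) -/
def FTR_stmt : Prop :=
  ∀ (p : ℕ) (M : Ideal (integralClosure ℤ ℂ)), Ord p M → ∀ (A : Type) [Group A],
    Subsingleton A → InvFor p M A

/-- FIN. The theorem. (First part: strong induction on `|A|`, FST; a group isomorphic to `A` is in the
class. Second part: the class of the finite groups with a normal `p`-subgroup with cyclic quotient
(HYC); reduced groups in it are trivial (RCY), FTR.) -/
def FIN_stmt : Prop :=
  ∀ (p : ℕ) [Fact p.Prime] (M : Ideal (integralClosure ℤ ℂ)), M.IsMaximal →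
    (p : integralClosure ℤ ℂ) ∈ M →
    (∀ 𝒞 : (A : Type) → [Group A] → Prop,
      (∀ (A : Type) [Group A] (H : Subgroup A), 𝒞 A → 𝒞 H) →
      (∀ (A B : Type) [Group A] [Group B] (f : A →* B), Function.Surjective f → 𝒞 A → 𝒞 B) →
      (∀ (A : Type) [Group A] [Finite A], 𝒞 A → Red p A → InvFor p M A) →
      ∀ (A : Type) [Group A] [Finite A], 𝒞 A → InvFor p M A) ∧
    (Ord p M → ∀ (A : Type) [Group A] [Finite A],
      (∃ P : Subgroup A, IsPGroup p P ∧ CycQ P) → InvFor p M A)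

end Pool.Agent.DR
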