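import Mathlib
import Pool.Agent.helper35.DR.SpecZ

/-!
# Project dr (MP_baa4d7_al): local form, for the groups `E` of a class, and the final statements

`𝒳` is a class of groups closed under subgroups and homomorphic images.
-/

set_option autoImplicit false

namespace Pool.Agent.DR

open Pool.Agent.helper58.DC Pool.Agent.DI

/-- The class `𝒳` of groups is closed under subgroups and homomorphic images. -/
structure ClX (𝒳 : (E : Type) → [Group E] → Prop) : Prop where
  sub : ∀ (E : Type) [Group E] (H : Subgroup E), 𝒳 E → 𝒳 H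
  img : ∀ (E F : Type) [Group E] [Group F] (f : E →* F), Function.Surjective f → 𝒳 E → 𝒳 F

/-- The class `𝒳` is closed under direct products of two groups. -/
def PrX (𝒳 : (E : Type) → [Group E] → Prop) : Prop :=
  ∀ (E F : Type) [Group E] [Group F], 𝒳 E → 𝒳 F → 𝒳 (E × F)

/-- The class `𝒳` is closed under extensions by central subgroups of order prime to `p`. -/
def CeX (p : ℕ) (𝒳 : (E : Type) → [Group E] → Prop) : Prop :=
  ∀ (E F : Type) [Group E] [Group F] [Finite E] (f : E →* F), Function.Surjective f →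
    (∀ x ∈ f.ker, ∀ y, x * y = y * x) → ¬ p ∣ Nat.card f.ker → 𝒳 F → 𝒳 E

/-- The invariant conjecture for all extensions `1 → G → E → A → 1` with `E` in the class `𝒳` and `A`
isomorphic to `Q`. -/
def InvX (p : ℕ) (M : Ideal (integralClosure ℤ ℂ)) (𝒳 : (E : Type) → [Group E] → Prop)
    (Q : Type) [Group Q] : Prop :=
  ∀ (G E A : Type) [Group G] [Group E] [Group A] [Finite G] [Finite E] (X : Extension G E A),
    𝒳 E → Nonempty (A ≃* Q) → IsOp p (⊤ : Subgroup G) ⊥ → ∀ χ ∈ Irr G, PosDefect p M χ →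
      ∀ (d : ℤ) (U : Subgroup A), altSum X p M χ d U = 0

/-- Every crossed homomorphism of `A / N` to the group of homomorphisms `N → ℂˣ` is principal. (The
crossed homomorphisms are the functions `f : A → N → ℂˣ` with `f a` a homomorphism, `f (a * b) x = f a x *
f b (a⁻¹ * x * a)` and `f a = 1` for `a ∈ N`; `f` is principal if there is a homomorphism `l : N → ℂˣ` with
`f a x = l (a⁻¹ * x * a) / l x`.) -/
def CrP {A : Type} [Group A] (N : Subgroup A) : Prop :=
  ∀ f : A → A → ℂˣ, (∀ a, ∀ x ∈ N, ∀ y ∈ N, f a (x * y) = f a x * f a y) →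
    (∀ a b, ∀ x ∈ N, f (a * b) x = f a x * f b (a⁻¹ * x * a)) → (∀ a ∈ N, ∀ x ∈ N, f a x = 1) →
    ∃ l : A → ℂˣ, (∀ x ∈ N, ∀ y ∈ N, l (x * y) = l x * l y) ∧
      ∀ a, ∀ x ∈ N, f a x = l (a⁻¹ * x * a) * (l x)⁻¹

end Pool.Agent.DR
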