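import Mathlib
import Pool.Agent.helper35.DR.DefsX
import Pool.Agent.helper98.DR.RBL
import Pool.Agent.helper45.DR.RCC
import Pool.Agent.helper87.DR.RLA

/-!
# Project dr, local form: the relation
-/

set_option autoImplicit false

namespace Pool.Agent.DR

open Pool.Agent.helper58.DC Pool.Agent.DI

open Classical in
/-- Local form of RBL. -/
def RBLX_stmt : Prop :=
  ∀ (K E A Γ : Type) [Group K] [Group E] [Group A] [Group Γ] [Finite K] [Finite E] [Finite Γ]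
    (Y : Extension K E A) (i : K →* Γ), Function.Injective i → ∀ (p : ℕ) [Fact p.Prime]
    (M : Ideal (integralClosure ℤ ℂ)), M.IsMaximal → (p : integralClosure ℤ ℂ) ∈ M →
    IsOp p (⊤ : Subgroup K) ⊥ → ∀ 𝒳 : (E : Type) → [Group E] → Prop, 𝒳 E →
    InvX p M 𝒳 A → ∀ (G₁ : Subgroup Γ) (τ : Γ → ℂ) (d : ℤ), 1 ≤ d →
    ∑ᶠ C ∈ {C : Finset (Subgroup K) | IsRadical p C}, (-1) ^ (C.card + 1) *
      ((Nat.card (nrm C) : ℤ) * Nat.card {θ : K → ℂ // θ ∈ IrrOn (nrm C) ∧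
        Defect p (nrm C) θ d ∧ Cov M G₁ τ (ext0 i θ) ∧ (Y.stab C θ).map Y.proj = ⊤}) = 0

theorem RBLX (hD1 : D1_stmt) (hD5 : D5_stmt) (hC15 : C15_stmt) (hC9 : C9_stmt)
    (hC16 : C16_stmt) (hC1 : C1_stmt) (hB2 : B2_stmt) : RBLX_stmt := by
  classical
  intro K E A Γ _ _ _ _ _ _ _ Y i hi p _ M hM hpM hop 𝒳 hXE hinv G₁ τ d hd
  obtain ⟨-, hsym, htr, -⟩ := hC1 p M hM hpM
  obtain ⟨R, hR, hRu⟩ := hC15 K M
  have halt : ∀ b ∈ R, altSum Y p M b d ⊤ = 0 := by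
    intro b hb
    by_cases hpos : PosDefect p M b
    · exact hinv K E A Y hXE ⟨MulEquiv.refl A⟩ hop b (hR b hb) hpos d ⊤
    · exact hD5 K E A Y p M hM hpM b (hR b hb) hpos d hd ⊤
  -- the count
  have hN : ∀ C : Finset (Subgroup K), IsRadical p C →
      (Nat.card {θ : K → ℂ // θ ∈ IrrOn (nrm C) ∧
        Defect p (nrm C) θ d ∧ Cov M G₁ τ (ext0 i θ) ∧ (Y.stab C θ).map Y.proj = ⊤} : ℤ) =
      ∑ b ∈ R, if Cov M G₁ τ (ext0 i b) then (kC Y p M b d ⊤ C : ℤ) else 0 := by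
    intro C hC
    have h1 : ∀ ψ ∈ IrrOn (nrm C), ∃! b, b ∈ R ∧ Induces M ψ b := fun ψ hψ =>
      hRu ψ (hC9 K p M hM hpM C hC ψ hψ)
    have h2 : ∀ ψ ∈ IrrOn (nrm C), ∀ b ∈ R, Induces M ψ b →
        (Cov M G₁ τ (ext0 i ψ) ↔ Cov M G₁ τ (ext0 i b)) := by
      intro ψ _ b _ hI
      have h3 := hC16 K Γ p M hM hpM i hi ψ b hI
      constructor
      · intro h g hg
        exact htr _ _ _ (hsym _ _ (h3 g)) (h g hg)
      · intro h g hg
        exact htr _ _ _ (h3 g) (h g hg)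
    have h4 := RBL_count (IrrOn (nrm C)) (hB2 K (nrm C)).1 R (Induces M)
      (fun ψ => Cov M G₁ τ (ext0 i ψ))
      (fun ψ => Defect p (nrm C) ψ d ∧ (Y.stab C ψ).map Y.proj = ⊤) h1 h2
    have e1 : Nat.card {ψ : K → ℂ // ψ ∈ IrrOn (nrm C) ∧
          Defect p (nrm C) ψ d ∧ Cov M G₁ τ (ext0 i ψ) ∧
          (Y.stab C ψ).map Y.proj = ⊤} = Nat.card {ψ : K → ℂ // ψ ∈ IrrOn (nrm C) ∧
          (Defect p (nrm C) ψ d ∧ (Y.stab C ψ).map Y.proj = ⊤) ∧
          Cov M G₁ τ (ext0 i ψ)} := by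
      apply Nat.card_congr
      apply Equiv.subtypeEquivRight
      intro ψ
      tauto
    rw [e1, h4]
    apply Finset.sum_congr rfl
    intro b _
    have e2 : kC Y p M b d ⊤ C =
        Nat.card {ψ : K → ℂ // ψ ∈ IrrOn (nrm C) ∧
          (Defect p (nrm C) ψ d ∧ (Y.stab C ψ).map Y.proj = ⊤) ∧ Induces M ψ b} := by
      unfold kC
      apply Nat.card_congr
      apply Equiv.subtypeEquivRight
      intro ψ
      tauto
    rw [e2]
  have hfin : {C : Finset (Subgroup K) | IsRadical p C}.Finite := Set.toFinite _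
  rw [finsum_mem_eq_finite_toFinset_sum _ hfin]
  have hL : ∀ C ∈ hfin.toFinset, (-1 : ℤ) ^ (C.card + 1) *
      ((Nat.card (nrm C) : ℤ) * Nat.card {θ : K → ℂ // θ ∈ IrrOn (nrm C) ∧
        Defect p (nrm C) θ d ∧ Cov M G₁ τ (ext0 i θ) ∧ (Y.stab C θ).map Y.proj = ⊤}) =
      ∑ b ∈ R, if Cov M G₁ τ (ext0 i b) then (-1 : ℤ) ^ (C.card + 1) *
          ((Nat.card (nrm C) : ℤ) * (kC Y p M b d ⊤ C : ℤ)) else 0 := by
    intro C hC
    have hC' : IsRadical p C := by simpa using hC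
    rw [hN C hC', Finset.mul_sum, Finset.mul_sum]
    apply Finset.sum_congr rfl
    intro b _
    by_cases hb : Cov M G₁ τ (ext0 i b)
    · simp only [hb, if_true]
    · simp [hb]
  rw [Finset.sum_congr rfl hL, Finset.sum_comm]
  apply Finset.sum_eq_zero
  intro b hb
  by_cases hcb : Cov M G₁ τ (ext0 i b)
  · simp only [hcb, if_true]
    have h5 := hD1 K E A Y p M b (hR b hb) d ⊤
    rw [halt b hb, mul_zero, finsum_mem_eq_finite_toFinset_sum _ hfin] at h5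
    exact h5.symm
  · simp [hcb]

/-- Local form of RTP. -/
def RTPX_stmt : Prop :=
  ∀ (Γ : Type) [Group Γ] [Finite Γ] (p : ℕ) [Fact p.Prime] (M : Ideal (integralClosure ℤ ℂ)),
    M.IsMaximal → (p : integralClosure ℤ ℂ) ∈ M → 
    ∀ 𝒳 : (E : Type) → [Group E] → Prop, 𝒳 Γ → ∀ (G₁ G₂ : Subgroup Γ)
    [G₂.Normal], InvX p M 𝒳 (Γ ⧸ G₂) → ∀ (τ : Γ → ℂ) (D : ℤ), 1 ≤ D →
    cSum p G₂ ⊥ ⊤ (hf p M G₁ G₂ τ D) = 0

theorem RTPX (hA2 : A2_stmt) (hA4 : A4_stmt) (hA7 : A7_stmt) (hA8 : A8_stmt) (hA14 : A14_stmt)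
    (hRCT : RCT_stmt) (hRBL : RBLX_stmt) : RTPX_stmt := by
  intro Γ _ _ p _ M hM hpM 𝒳 hXΓ G₁ G₂ _ hInv τ D hD
  have hnz : nz G₂ = ⊤ := Subgroup.normalizer_eq_top G₂
  obtain ⟨P, hP⟩ := (hA2 Γ p G₂).1
  obtain ⟨hPle, hPp, hPnz, hPnz2, -⟩ := (hA2 Γ p G₂).2 P hP
  rw [hnz] at hPnz2
  by_cases hbot : P = ⊥
  · subst hbot
    have h7 := hA7 Γ p G₂ ⊥ ⊤ (hf p M G₁ G₂ τ D) hP (by rw [hnz]; exact le_top)
    rw [← h7]
    have h8 := hA8 G₂ Γ p G₂.subtype G₂.subtype_injective ⊤ (hf p M G₁ G₂ τ D)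
    rw [Subgroup.range_subtype] at h8
    rw [← h8]
    have hop : IsOp p (⊤ : Subgroup G₂) ⊥ := by
      rw [(hA14 G₂ Γ p G₂.subtype G₂.subtype_injective).2.1, Subgroup.range_subtype]
      exact hP
    have hR := hRBL G₂ Γ (Γ ⧸ G₂) Γ (XQ G₂) G₂.subtype G₂.subtype_injective p M hM hpM hop 𝒳 hXΓ hInv
      G₁ τ D hD
    rw [← hR]
    apply finsum_mem_congr rfl
    intro C hC
    have hC' : IsRadical p C := hC
    obtain ⟨P₀, hP₀, -⟩ := hC'.radical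
    rw [top_inf_eq, hRCT Γ p M G₁ G₂ τ D C hC'.chain ⟨P₀, hP₀⟩]
  · refine hA4 Γ p G₂ ⊥ ⊤ P _ hPp hPle hPnz (le_trans le_top hPnz2) ?_
    intro h
    exact hbot (le_bot_iff.1 h)

/-- Local form of RCC. -/
def RCCX_stmt : Prop :=
  ∀ (Γ : Type) [Group Γ] [Finite Γ] (p : ℕ) [Fact p.Prime] (M : Ideal (integralClosure ℤ ℂ)),
    M.IsMaximal → (p : integralClosure ℤ ℂ) ∈ M → ∀ 𝒳 : (E : Type) → [Group E] → Prop, 
    ClX 𝒳 → 𝒳 Γ → ∀ (G₁ G₂ R : Subgroup Γ) [G₂.Normal],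
    G₁.Normal → G₁ ≤ G₂ → (∀ x ∈ G₂, ∀ y ∈ G₂, x * y * x⁻¹ * y⁻¹ ∈ G₁) →
    InvX p M 𝒳 (Γ ⧸ G₂) → IsPGroup p R → R ≤ G₂ → R ⊓ G₁ = ⊥ → R ⊔ G₁ = G₂ →
    ∀ (τ : Γ → ℂ) (D : ℤ), (padicValNat p (Nat.card R) : ℤ) + 1 ≤ D →
    cSum p (G₁ ⊓ cz R) ⊥ (nz R) (hf p M G₁ G₂ τ D) = 0

theorem RCCX (hA2 : A2_stmt) (hA4 : A4_stmt) (hA7 : A7_stmt) (hA8 : A8_stmt) (hA14 : A14_stmt)
    (hRYE : RYE_stmt) (hRYC : RYC_stmt) (hRBL : RBLX_stmt) : RCCX_stmt := by
  classical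
  intro Γ _ _ p _ M hM hpM 𝒳 hCl hXΓ G₁ G₂ R hG₂ hG₁ hle hcomm hinv hRp hRG hRi hRs τ D hD
  by_cases htop : nz R ⊔ G₂ = ⊤
  · obtain ⟨⟨Y₀, hY₀⟩, hY⟩ := hA2 Γ p (G₁ ⊓ cz R)
    obtain ⟨y1, y2, y3, y4, -⟩ := hY Y₀ hY₀
    have hnK := RCC_inf G₁ R hG₁
    by_cases hbot : Y₀ = ⊥
    · rw [hbot] at hY₀
      rw [← hA7 Γ p (G₁ ⊓ cz R) ⊥ (nz R) _ hY₀ (inf_le_left.trans hnK)]
      have h8 := hA8 ↥(G₁ ⊓ cz R) Γ p (G₁ ⊓ cz R).subtype (G₁ ⊓ cz R).subtype_injective (nz R)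
        (hf p M G₁ G₂ τ D)
      rw [Subgroup.range_subtype] at h8
      rw [← h8]
      obtain ⟨z1, z2, E', _, _, Y, π, π1, π2, π3, π4, π5⟩ :=
        hRYE Γ G₁ G₂ R hG₁ hle hcomm hRG hRi hRs htop
      have hop : IsOp p (⊤ : Subgroup ↥(G₁ ⊓ cz R)) ⊥ :=
        ((hA14 Γ Γ p (MonoidHom.id Γ) Function.injective_id).2.2 (G₁ ⊓ cz R)).2 hY₀
      have hz := hRBL ↥(G₁ ⊓ cz R) E' (Γ ⧸ G₂) Γ Y (G₁ ⊓ cz R).subtype
        (G₁ ⊓ cz R).subtype_injective p M hM hpM hop 𝒳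
        (hCl.img _ _ π π1 (hCl.sub Γ (nz R) hXΓ)) hinv G₁ τ
        (D - padicValNat p (Nat.card R)) (by linarith)
      set c : ℤ := (Nat.card R : ℤ) * Nat.card {l : R → ℂˣ // (∀ x y, l (x * y) = l x * l y) ∧
        ∀ m ∈ nz R, ∀ x y : R, (y : Γ) = m * x * m⁻¹ → l y = l x} with hc
      have h1 : ∀ C ∈ {C : Finset (Subgroup ↥(G₁ ⊓ cz R)) | IsRadical p C},
          (-1 : ℤ) ^ (C.card + 1) *
            hf p M G₁ G₂ τ D (nz R ⊓ nrm (cmap (G₁ ⊓ cz R).subtype C)) =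
          c * ((-1 : ℤ) ^ (C.card + 1) * ((Nat.card (nrm C) : ℤ) *
            Nat.card {θ : ↥(G₁ ⊓ cz R) → ℂ // θ ∈ IrrOn (nrm C) ∧
              Defect p (nrm C) θ (D - padicValNat p (Nat.card R)) ∧
              Cov M G₁ τ (ext0 (G₁ ⊓ cz R).subtype θ) ∧ (Y.stab C θ).map Y.proj = ⊤})) := by
        intro C hC
        have hC' : IsRadical p C := hC
        obtain ⟨P₀, hP₀, -⟩ := hC'.radical
        rw [hRYC Γ p M G₁ G₂ R hG₁ hle hRG hRi z1 z2 E' Y π π1 π2 π3 π4 π5 τ D C hC'.chain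
          ⟨P₀, hP₀⟩, ← hc]
        ring
      rw [finsum_mem_congr rfl h1]
      have hfin : {C : Finset (Subgroup ↥(G₁ ⊓ cz R)) | IsRadical p C}.Finite := Set.toFinite _
      rw [finsum_mem_eq_finite_toFinset_sum _ hfin] at hz ⊢
      rw [← Finset.mul_sum, hz, mul_zero]
    · exact hA4 Γ p (G₁ ⊓ cz R) ⊥ (nz R) Y₀ _ y2 y1 y3 (inf_le_left.trans (hnK.trans y4))
        fun h => hbot (le_bot_iff.1 h)
  · unfold cSum
    refine finsum_mem_eq_zero_of_forall_eq_zero fun C _ => ?_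
    have : hf p M G₁ G₂ τ D (nz R ⊓ nrm C) = 0 := by
      unfold hf
      rw [if_neg]
      intro h
      apply htop
      rw [eq_top_iff, ← h]
      exact sup_le_sup_right inf_le_left _
    rw [this, mul_zero]

/-- Local form of RLA. -/
def RLAX_stmt : Prop :=
  ∀ (G E A : Type) [Group G] [Group E] [Group A] [Finite G] [Finite E] [Finite A]
    (X : Extension G E A) (p : ℕ) [Fact p.Prime] (M : Ideal (integralClosure ℤ ℂ)), M.IsMaximal →
    (p : integralClosure ℤ ℂ) ∈ M → IsOp p (⊤ : Subgroup G) ⊥ → ∀ χ ∈ Irr G, Stable X M χ →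
    ∀ 𝒳 : (E : Type) → [Group E] → Prop, ClX 𝒳 → 𝒳 E →
    ∀ (N : Subgroup A) [N.Normal], MinAb N → InvX p M 𝒳 (A ⧸ N) →
    ∀ D : ℤ, (padicValNat p (Nat.card N) : ℤ) + 1 ≤ D → Rel X p M χ N D

theorem RLAX (hRTP : RTPX_stmt) (hCHA : CHA_stmt) (hRCC : RCCX_stmt) (hRPA : RPA_stmt) :
    RLAX_stmt := by
  intro G E A _ _ _ _ _ _ X p _ M hM hpM hOp χ hχ hSt 𝒳 hCl hXE N _ hMin hInv D hD
  have hker := RLA_ker X
  apply hRPA G E A X p M hM hpM hOp χ hχ hSt N hMin.nor D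
  have hG2 : (N.comap X.proj).Normal := inferInstance
  have hG1 : X.inc.range.Normal := by
    rw [← hker]
    infer_instance
  have hG12 : X.inc.range ≤ N.comap X.proj := by
    rw [← hker]
    intro x hx
    rw [Subgroup.mem_comap, MonoidHom.mem_ker.mp hx]
    exact one_mem _
  have hcomm : ∀ x ∈ N.comap X.proj, ∀ y ∈ N.comap X.proj,
      x * y * x⁻¹ * y⁻¹ ∈ X.inc.range := by
    intro x hx y hy
    rw [← hker, MonoidHom.mem_ker, map_mul, map_mul, map_mul, map_inv, map_inv,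
      hMin.comm _ (Subgroup.mem_comap.mp hx) _ (Subgroup.mem_comap.mp hy)]
    group
  have hD1 : 1 ≤ D := by
    have : (0 : ℤ) ≤ (padicValNat p (Nat.card N) : ℤ) := Int.natCast_nonneg _
    omega
  have hInv' : InvX p M 𝒳 (E ⧸ (N.comap X.proj)) := by
    intro G' E' A' _ _ _ _ _ X' hX' hne
    apply hInv G' E' A' X' hX'
    obtain ⟨e⟩ := hne
    let φ : E →* A ⧸ N := (QuotientGroup.mk' N).comp X.proj
    have hφ : Function.Surjective φ :=
      (QuotientGroup.mk'_surjective N).comp X.proj_surjective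
    have hφk : N.comap X.proj = φ.ker := by
      ext x
      rw [MonoidHom.mem_ker, Subgroup.mem_comap]
      exact (QuotientGroup.eq_one_iff (X.proj x)).symm
    exact ⟨e.trans ((QuotientGroup.quotientMulEquivOfEq hφk).trans
      (QuotientGroup.quotientKerEquivOfSurjective φ hφ))⟩
  have h0 := hRTP E p M hM hpM 𝒳 hXE X.inc.range (N.comap X.proj) hInv' (omega (ext0 X.inc χ)) D hD1
  rw [← h0]
  symm
  apply hCHA E p X.inc.range (N.comap X.proj) _ hG1 hG2 hG12 hcomm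
  · intro K hK hK1 hK2
    have hK3 : (K.map X.proj).comap X.proj = K :=
      Subgroup.comap_map_eq_self (hker ▸ hK1)
    have hK4 : (K.map X.proj).Normal := hK.map X.proj X.proj_surjective
    have hK5 : K.map X.proj ≤ N := by
      rintro _ ⟨x, hx, rfl⟩
      exact hK2 hx
    rcases hMin.min _ hK4 hK5 with h | h
    · left
      rw [← hK3, h, MonoidHom.comap_bot, hker]
    · right
      rw [← hK3, h]
  · intro N' hN'
    unfold hf
    rw [if_neg hN']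
  · intro R hR _ hR2 hR3 hR4
    refine hRCC E p M hM hpM 𝒳 hCl hXE X.inc.range (N.comap X.proj) R hG1 hG12 hcomm hInv' hR hR2 hR3 hR4
      (omega (ext0 X.inc χ)) D ?_
    have hinj : Function.Injective (X.proj.comp R.subtype) := by
      rw [injective_iff_map_eq_one]
      intro x hx
      have h1 : (x : E) ∈ R ⊓ X.inc.range := by
        refine ⟨x.2, ?_⟩
        rw [← hker]
        exact hx
      rw [hR3, Subgroup.mem_bot] at h1
      exact Subtype.ext h1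
    have hrange : (X.proj.comp R.subtype).range = N := by
      have h2 : R.map X.proj = N := by
        have h3 : (N.comap X.proj).map X.proj = N :=
          Subgroup.map_comap_eq_self_of_surjective X.proj_surjective N
        have h4 : (X.inc.range).map X.proj = ⊥ := by
          rw [← hker, Subgroup.map_eq_bot_iff]
        rw [← h3, ← hR4, Subgroup.map_sup, h4, sup_bot_eq]
      rw [MonoidHom.range_comp, Subgroup.range_subtype]
      exact h2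
    have hcard : Nat.card R = Nat.card N := by
      rw [← hrange]
      exact Nat.card_congr (MonoidHom.ofInjective hinj).toEquiv
    rw [hcard]
    exact hD

/-- Local form of RLB. -/
def RLBX_stmt : Prop :=
  ∀ (G E A : Type) [Group G] [Group E] [Group A] [Finite G] [Finite E] [Finite A]
    (X : Extension G E A) (p : ℕ) [Fact p.Prime] (M : Ideal (integralClosure ℤ ℂ)), M.IsMaximal →
    (p : integralClosure ℤ ℂ) ∈ M → IsOp p (⊤ : Subgroup G) ⊥ → ∀ χ ∈ Irr G, Stable X M χ →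
    ∀ 𝒳 : (E : Type) → [Group E] → Prop, 𝒳 E →
    ∀ (N : Subgroup A) [N.Normal], ¬ p ∣ Nat.card N → InvX p M 𝒳 (A ⧸ N) → ∀ D : ℤ, 1 ≤ D →
    Rel X p M χ N D

theorem RLBX (hRTP : RTPX_stmt) (hCHB : CHB_stmt) (hECD : ECD_stmt) (hRPA : RPA_stmt) :
    RLBX_stmt := by
  intro G E A _ _ _ _ _ _ X p _ M hM hp hO χ hχ hst 𝒳 hXE N hN hpN hI D hD
  have hnor : (N.comap X.proj).Normal := hN.comap X.proj
  refine hRPA G E A X p M hM hp hO χ hχ hst N hN D ?_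
  -- the quotient `E ⧸ G₂`
  have hq : Nonempty (E ⧸ N.comap X.proj ≃* A ⧸ N) := by
    let f : E →* A ⧸ N := (QuotientGroup.mk' N).comp X.proj
    have hf : Function.Surjective f :=
      (QuotientGroup.mk'_surjective N).comp X.proj_surjective
    have hk : f.ker = N.comap X.proj := by
      ext e
      rw [MonoidHom.mem_ker, Subgroup.mem_comap]
      exact QuotientGroup.eq_one_iff (X.proj e)
    exact ⟨(QuotientGroup.quotientMulEquivOfEq hk.symm).trans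
      (QuotientGroup.quotientKerEquivOfSurjective f hf)⟩
  have hI' : InvX p M 𝒳 (E ⧸ N.comap X.proj) := by
    obtain ⟨φ⟩ := hq
    intro G' E' A' _ _ _ _ _ X' hX' hA' hO' χ' hχ' hpd d U
    obtain ⟨ψ⟩ := hA'
    exact hI G' E' A' X' hX' ⟨ψ.trans φ⟩ hO' χ' hχ' hpd d U
  have h1 := hRTP E p M hM hp 𝒳 hXE X.inc.range (N.comap X.proj) hI' (omega (ext0 X.inc χ)) D hD
  have hle : X.inc.range ≤ N.comap X.proj := by
    rintro e ⟨g, rfl⟩
    rw [Subgroup.mem_comap, (X.exact (X.inc g)).2 ⟨g, rfl⟩]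
    exact one_mem _
  have hker : X.proj.ker = X.inc.range := by
    ext e
    rw [MonoidHom.mem_ker, X.exact e]
    rfl
  have hnr : X.inc.range.Normal := by
    rw [← hker]
    exact MonoidHom.normal_ker _
  have hcard : Nat.card (N.comap X.proj) = Nat.card N * Nat.card X.inc.range := by
    have h := hECD E A X.proj ⊤ N
    rw [top_inf_eq, top_inf_eq, hker, Subgroup.map_top_of_surjective X.proj X.proj_surjective,
      top_inf_eq] at h
    rw [h, mul_comm]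
  rw [← hCHB E p X.inc.range (N.comap X.proj) hle hnr (Nat.card N) hcard hpN ⊤]
  exact h1

end Pool.Agent.DR
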