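import Mathlib
import Pool.Agent.helper35.DR.LocA
import Pool.Agent.helper52.DR.PEQ
import Pool.Agent.helper51.DR.PCA

/-!
# Project dr, local form: the fibre square
-/

set_option autoImplicit false

namespace Pool.Agent.DR

open Pool.Agent.helper58.DC Pool.Agent.DI

open Classical in
/-- Local form of PEQ. -/
def PEQX_stmt : Prop :=
  ∀ (G E A : Type) [Group G] [Group E] [Group A] [Finite G] [Finite E] [Finite A]
    (X : Extension G E A) (p : ℕ) [Fact p.Prime] (M : Ideal (integralClosure ℤ ℂ)), M.IsMaximal →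
    (p : integralClosure ℤ ℂ) ∈ M → IsOp p (⊤ : Subgroup G) ⊥ → ∀ χ ∈ Irr G, Stable X M χ →
    ∀ 𝒳 : (E : Type) → [Group E] → Prop, ClX 𝒳 →
    𝒳 (KE X (diag A)) → ∀ (N : Subgroup A) [N.Normal], MinAb N → InvX p M 𝒳 (A ⧸ N) →
    (∀ V : Subgroup A, IsCpl N V → ∀ d : ℤ, altSum X p M χ d V + altSum X p M χ d ⊤ = 0) →
    ∃ a : Finset (Subgroup G) × (G → ℂ) → A → A → ℂˣ,
      (∀ x, IsPair p M χ x → Vx X x = ⊤ → a x ∈ Coc A) ∧
      ∀ D : ℤ, (padicValNat p (Nat.card N) : ℤ) + 1 ≤ D →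
      (Nat.card N : ℤ) *
        ∑ᶠ x ∈ {x : Finset (Subgroup G) × (G → ℂ) | IsPair p M χ x ∧ Vx X x = ⊤},
        ∑ᶠ y ∈ {y : Finset (Subgroup G) × (G → ℂ) | IsPair p M χ y ∧ Vx X y = ⊤},
          ((-1) ^ (x.1.card + 1) * (Nat.card (nrm x.1) : ℤ)) *
            ((-1) ^ (y.1.card + 1) * (Nat.card (nrm y.1) : ℤ)) *
          GN N (a x * (a y)⁻¹)⁻¹
            (fun k => (padicValNat p k : ℤ) = dfc p x + dfc p y + padicValNat p (Nat.card N) - D) =
      (ncpl N : ℤ) *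
        ∑ᶠ x ∈ {x : Finset (Subgroup G) × (G → ℂ) | IsPair p M χ x ∧ Vx X x = ⊤},
        ∑ᶠ y ∈ {y : Finset (Subgroup G) × (G → ℂ) | IsPair p M χ y ∧ Vx X y = ⊤ ∧
          dfc p x + dfc p y = D},
          ((-1) ^ (x.1.card + 1) * (Nat.card (nrm x.1) : ℤ)) *
            ((-1) ^ (y.1.card + 1) * (Nat.card (nrm y.1) : ℤ))

theorem PEQX (hIF : IF_stmt) (hPRL : PRL_stmt) (hPFU : PFU_stmt) (hPCO : PCO_stmt) (hPAL : PAL_stmt)
    (hPFM : PFM_stmt) (hPMP : PMP_stmt) (hRLA : RLAX_stmt) (hGVM : GVM_stmt) : PEQX_stmt := by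
  classical
  intro G E A _ _ _ _ _ _ X p _ M hM hpM hop χ hχ hst 𝒳 hCl hXK N _ hN hinv halt
  obtain ⟨a, ha, hfu⟩ := hPFU G E A X p M hop χ hχ
  refine ⟨a, ha, fun D hD => ?_⟩
  obtain ⟨hF1, hF2, hF3⟩ := hPFM G E A X p M χ hχ hst
  have hfinKE : Finite (KE X (diag A)) := (hPMP G E A X (fun _ => ⊤)).2.2
  have hrel : Rel (X2 X) p M (tens (fam χ)) N D :=
    hRLA (TT → G) (KE X (diag A)) A (X2 X) p M hM hpM (hF3 hop) (tens (fam χ)) hF1 hF2 𝒳 hCl hXK N hN hinv D hD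
  have hprl := hPRL G E A X p M hop χ hχ N D hrel
  have hfinP : {x : Finset (Subgroup G) × (G → ℂ) | IsPair p M χ x}.Finite := by
    have h1 : (⋃ C : Finset (Subgroup G), (fun ψ : G → ℂ => (C, ψ)) '' IrrOn (nrm C)).Finite :=
      Set.finite_iUnion fun C => (hIF G (nrm C)).1.image _
    refine h1.subset ?_
    rintro ⟨C, ψ⟩ hx
    exact Set.mem_iUnion.2 ⟨C, ψ, hx.2.1, rfl⟩
  obtain ⟨S, hS⟩ : ∃ S : Finset (Finset (Subgroup G) × (G → ℂ)), ∀ x, x ∈ S ↔ IsPair p M χ x :=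
    ⟨hfinP.toFinset, fun x => by rw [Set.Finite.mem_toFinset]; rfl⟩
  obtain ⟨hV1, hV2, hV3⟩ := hGVM A N hN
  let _ : Fintype (Subgroup A) := Fintype.ofFinite _
  have hcard : (ncpl N : ℤ) = ((Finset.univ.filter (fun V : Subgroup A => IsCpl N V)).card : ℤ) := by
    rw [ncpl, Nat.card_eq_fintype_card, Fintype.card_subtype]
  have hpr : ∀ (Q : Finset (Subgroup G) × (G → ℂ) → Prop) (f : Finset (Subgroup G) × (G → ℂ) → ℤ),
      ∑ᶠ x ∈ {x : Finset (Subgroup G) × (G → ℂ) | IsPair p M χ x ∧ Q x}, f x =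
      ∑ x ∈ S, if Q x then f x else 0 := fun Q f => PEQ_fs S _ hS Q f
  have hpr1 : ∀ (f : Finset (Subgroup G) × (G → ℂ) → ℤ),
      ∑ᶠ x ∈ {x : Finset (Subgroup G) × (G → ℂ) | IsPair p M χ x}, f x =
      ∑ x ∈ S, f x := fun f => PEQ_fs1 S _ hS f
  rw [hcard]
  simp only [hpr]
  simp only [hpr1] at hprl
  refine Eq.trans ?_ ((PEQ_abs S (fun x => (-1) ^ (x.1.card + 1) * (Nat.card (nrm x.1) : ℤ)) (dfc p) (Vx X) ⊤
    (Finset.univ.filter (fun V : Subgroup A => IsCpl N V)) ?_ (fun x y => Vx X x ⊓ Vx X y) _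
    (fun x y => (GN N (a x * (a y)⁻¹)⁻¹
      (fun k => (padicValNat p k : ℤ) = dfc p x + dfc p y + padicValNat p (Nat.card N) - D) : ℤ))
    (Nat.card N : ℤ) D hprl ?_ ?_ ?_).trans ?_)
  · rfl
  · intro h
    exact (hV2 ⊤ (Finset.mem_filter.1 h).2).1 rfl
  · intro x hx y hy
    have hx' := (hS x).1 hx
    have hy' := (hS y).1 hy
    simp only [Finset.mem_filter, Finset.mem_univ, true_and]
    by_cases hb : Vx X x = ⊤ ∧ Vx X y = ⊤
    · have h1 : ¬ IsCpl N (Vx X x ⊓ Vx X y) := by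
        intro h
        exact (hV2 _ h).1 (by rw [hb.1, hb.2, inf_top_eq])
      have h2 : (Vx X x ⊓ Vx X y) ⊔ N = ⊤ := by rw [hb.1, hb.2, inf_top_eq, top_sup_eq]
      rw [if_pos hb, if_neg h1, if_pos h2, hfu x y hx' hy' hb.1 hb.2 N inferInstance D]
      ring
    · rw [if_neg hb]
      by_cases h2 : (Vx X x ⊓ Vx X y) ⊔ N = ⊤
      · rcases hV1 _ h2 with h3 | h3
        · exact absurd (inf_eq_top_iff.1 h3) hb
        · rw [if_pos h2, if_pos h3, hPCO G E A X p M hop χ hχ x y hx' hy' N h3.1 D]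
          split_ifs <;> ring
      · have h3 : ¬ IsCpl N (Vx X x ⊓ Vx X y) := fun h => h2 h.2
        rw [if_neg h2, if_neg h3]
        ring
  · intro x _ y _ V hV
    have hV' := (Finset.mem_filter.1 hV).2
    obtain ⟨hVt, hVm⟩ := hV2 V hV'
    constructor
    · intro h
      have h1 : V ≤ Vx X x := h ▸ inf_le_left
      have h2 : V ≤ Vx X y := h ▸ inf_le_right
      refine ⟨⟨hVm _ h1, hVm _ h2⟩, fun hb => hVt ?_⟩
      rw [← h]
      exact inf_eq_top_iff.2 hb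
    · rintro ⟨⟨h1 | h1, h2 | h2⟩, h3⟩
      · show Vx X x ⊓ Vx X y = V
        rw [h1, h2, inf_idem]
      · show Vx X x ⊓ Vx X y = V
        rw [h1, h2, inf_top_eq]
      · show Vx X x ⊓ Vx X y = V
        rw [h1, h2, top_inf_eq]
      · exact absurd ⟨h1, h2⟩ h3
  · intro V hV e
    have hV' := (Finset.mem_filter.1 hV).2
    have h1 := hPAL G E A X p M χ hχ e V
    have h2 := hPAL G E A X p M χ hχ e ⊤
    rw [hpr] at h1 h2
    have h3 : ∀ c : Subgroup A, (∑ x ∈ S, if dfc p x = e ∧ Vx X x = c then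
        (-1) ^ (x.1.card + 1) * (Nat.card (nrm x.1) : ℤ) else 0) =
        ∑ x ∈ S, @ite ℤ (dfc p x = e ∧ Vx X x = c) (Classical.propDecidable _)
          ((-1) ^ (x.1.card + 1) * (Nat.card (nrm x.1) : ℤ)) 0 := fun c => by
      congr! 
    change (∑ x ∈ S, if dfc p x = e ∧ Vx X x = V then
        (-1) ^ (x.1.card + 1) * (Nat.card (nrm x.1) : ℤ) else 0) + (∑ x ∈ S, if dfc p x = e ∧ Vx X x = ⊤ then
        (-1) ^ (x.1.card + 1) * (Nat.card (nrm x.1) : ℤ) else 0) = 0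
    rw [h3, h3, ← h1, ← h2, ← mul_add, halt V hV' e, mul_zero]
  · congr!

/-- Local form of PCA. -/
def PCAX_stmt : Prop :=
  ∀ (G E A : Type) [Group G] [Group E] [Group A] [Finite G] [Finite E] [Finite A]
    (X : Extension G E A) (p : ℕ) [Fact p.Prime] (M : Ideal (integralClosure ℤ ℂ)), M.IsMaximal →
    (p : integralClosure ℤ ℂ) ∈ M → IsOp p (⊤ : Subgroup G) ⊥ → ∀ χ ∈ Irr G, Stable X M χ →
    ∀ 𝒳 : (E : Type) → [Group E] → Prop, ClX 𝒳 →
    𝒳 (KE X (diag A)) → ∀ (N : Subgroup A) [N.Normal], MinAb N → p ∣ Nat.card N →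
    InvX p M 𝒳 (A ⧸ N) →
    (∀ V : Subgroup A, IsCpl N V → ∀ d : ℤ, altSum X p M χ d V + altSum X p M χ d ⊤ = 0) →
    ∀ d : ℤ, 1 ≤ d → altSum X p M χ d ⊤ = 0

theorem PCAX (hPEQ : PEQX_stmt) (hPAB : PAB_stmt) (hKML : KML_stmt) (hKPG : KPG_stmt)
    (hGMN : GMN_stmt) (hKLN : KLN_stmt) (hPAL : PAL_stmt) (hB2 : Pool.Agent.DI.B2_stmt) :
    PCAX_stmt := by
  classical
  intro G E A _ _ _ _ _ _ X p _ M hM hpM hOp χ hχ hst 𝒳 hCl hXK N hN hmin hpN hInv hV d hd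
  obtain ⟨a, ha, hrel⟩ := hPEQ G E A X p M hM hpM hOp χ hχ hst 𝒳 hCl hXK N hmin hInv hV
  have hp : p.Prime := Fact.out
  -- the exponent of `N`
  have hexp : ∀ x ∈ N, x ^ p = 1 := by
    obtain ⟨r, hr, hr1, k, hk, hcard⟩ := hGMN A N hmin
    have h1 : p ∣ r ^ k := hcard ▸ hpN
    have h2 : p = r := (Nat.prime_dvd_prime_iff_eq hp hr).1 (hp.dvd_of_dvd_pow h1)
    rw [h2]
    exact hr1
  have hN0 : 0 < Nat.card N := Nat.card_pos
  have hv1 : 1 ≤ padicValNat p (Nat.card N) := one_le_padicValNat_of_dvd hN0.ne' hpN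
  set Y : Set (Finset (Subgroup G) × (G → ℂ)) := {x | IsPair p M χ x ∧ Vx X x = ⊤} with hY
  have hYfin : Y.Finite := PCA_fin hB2 X p M χ
  have : Fintype Y := hYfin.fintype
  have hc0 : 0 < GN N 1 (fun k => (padicValNat p k : ℤ) = 0) :=
    (hKLN A N hN).2.1 (fun k => (padicValNat p k : ℤ) = 0) (by simp)
  have hmain := hPAB (Coc A) ((Kc N).subgroupOf (Coc A))
    (fun j β => (GN N β.1 (fun k => (padicValNat p k : ℤ) = j) : ℤ))
    (GN N 1 (fun k => (padicValNat p k : ℤ) = 0) : ℤ) (Nat.card N : ℤ) (ncpl N : ℤ)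
    (padicValNat p (Nat.card N) : ℤ) (by exact_mod_cast hc0) (by exact_mod_cast hN0)
    (by exact_mod_cast hv1)
    (fun j u κ hκ => by
      rw [Subgroup.mem_subgroupOf] at hκ
      have h1 := hKML A N hN u.1 κ.1 hκ (fun k => (padicValNat p k : ℤ) = j)
      exact congrArg Nat.cast h1)
    (fun u => by
      have h1 := hKPG A N hN p hmin.comm hexp u.1 u.2
      rw [h1, Subgroup.mem_subgroupOf]
      split_ifs <;> rfl)
    (fun j hj u => by
      rw [PCA_neg N u.1 p hj]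
      rfl)
    Y (fun x => (-1) ^ (x.1.1.card + 1) * (Nat.card (nrm x.1.1) : ℤ)) (fun x => dfc p x.1)
    (fun x => ⟨a x.1, ha x.1 x.2.1 x.2.2⟩)
    (fun D hD => by
      have h1 := hrel D hD
      rw [PCA_sum0 Y, PCA_sum0 Y] at h1
      have h2 : ∀ x : Y, ∑ᶠ y ∈ {y : Finset (Subgroup G) × (G → ℂ) | IsPair p M χ y ∧
          Vx X y = ⊤ ∧ dfc p x.1 + dfc p y = D},
          ((-1) ^ (x.1.1.card + 1) * (Nat.card (nrm x.1.1) : ℤ)) *
            ((-1) ^ (y.1.card + 1) * (Nat.card (nrm y.1) : ℤ)) =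
          ∑ y : Y, if dfc p x.1 + dfc p y.1 = D then
            ((-1) ^ (x.1.1.card + 1) * (Nat.card (nrm x.1.1) : ℤ)) *
            ((-1) ^ (y.1.1.card + 1) * (Nat.card (nrm y.1.1) : ℤ)) else 0 := by
        intro x
        refine PCA_sum Y _ (fun y => dfc p x.1 + dfc p y = D) _ fun y => ?_
        exact (and_assoc (a := IsPair p M χ y) (b := Vx X y = ⊤)
          (c := dfc p x.1 + dfc p y = D)).symm
      rw [Finset.sum_congr rfl fun x _ => h2 x] at h1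
      rw [← h1]
      congr 1
      refine Finset.sum_congr rfl fun x _ => ?_
      rw [PCA_sum0 Y]
      rfl)
    d hd
  have hal := hPAL G E A X p M χ hχ d ⊤
  rw [PCA_sum Y _ (fun y => dfc p y = d) _ (fun y => by
    rw [Set.mem_ofPred_eq, hY, Set.mem_ofPred_eq]; tauto)] at hal
  rw [hmain] at hal
  have hG0 : (Nat.card G : ℤ) ≠ 0 := by
    have : 0 < Nat.card G := Nat.card_pos
    exact_mod_cast this.ne'
  exact (mul_eq_zero.1 hal).resolve_left hG0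

end Pool.Agent.DR
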