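import Mathlib
import Pool.Agent.helper35.DR.DefsX
import Pool.Agent.helper31.DR.ZNA

/-!
# Project dr, module ZNE: crossed homomorphisms which are not principal
-/

set_option autoImplicit false

namespace Pool.Agent.DR

open Pool.Agent.helper58.DC Pool.Agent.DI

/-- If `N` is not central and has a complement, and if there is a crossed homomorphism of `A / N` to the
dual of `N` which is not principal, then `κ₀ < |Zn|`. -/
def ZNE_stmt : Prop :=
  ∀ (A : Type) [Group A] [Finite A] (N : Subgroup A), MinAb N →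
    (∃ a : A, ∃ x ∈ N, a * x ≠ x * a) → ∀ V : Subgroup A, IsCpl N V → ¬ CrP N → ∀ r : ℕ, r.Prime →
    IsPGroup r N →
    GN (N.comap (prC A (r ^ padicValNat r (Nat.card A)))) 1 (fun _ => True) <
      Nat.card (Zn A (r ^ padicValNat r (Nat.card A)))

theorem ZNE_lt (hZFN : ZFN_stmt) (hKSC : KSC_stmt) (hKNC : KNC_stmt) {A : Type} [Group A]
    [Finite A] (N : Subgroup A) (hN : MinAb N) (hcen : ∃ a : A, ∃ x ∈ N, a * x ≠ x * a) (n : ℕ)
    (hn : 1 ≤ n) (β : Bn A n)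
    (hno : ∀ (σ : A → ℂ) (k : ℕ), PIrr N β.1 σ k → ¬ PInv N β.1 σ) :
    GN (N.comap (prC A n)) 1 (fun _ => True) < Nat.card (Zn A n) := by
  obtain ⟨-, hfZ, hfC, -, -, -, -, hcard, -, -⟩ := hZFN A n hn
  have hhom : Nat.card (Zn A n →* ℂˣ) = Nat.card (Zn A n) :=
    CommGroup.card_monoidHom_of_hasEnoughRootsOfUnity (Zn A n) ℂ
  have hfin : Finite (Zn A n →* ℂˣ) := by
    refine Nat.finite_of_card_ne_zero ?_
    rw [hhom]
    exact (Nat.card_pos (α := Zn A n)).ne'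
  rw [← hhom]
  have key : ∀ s : {σ : Cv A n → ℂ // ∃ k, PIrr (N.comap (prC A n)) 1 σ k ∧ True ∧
      PInv (N.comap (prC A n)) 1 σ}, ∃ l : Zn A n →* ℂˣ,
      (∀ x : Cv A n, s.1 x = (l x.z : ℂ) * s.1 ⟨1, x.a⟩) ∧
      ∃ k, PIrr N (ZNA_b l) (fun a => s.1 ⟨1, a⟩) k ∧
        PInv N (ZNA_b l) (fun a => s.1 ⟨1, a⟩) := by
    rintro ⟨σ, k, h1, -, h2⟩
    obtain ⟨l, hl1, hl2⟩ := ZNA_rep hKSC N (hcard N) σ k h1
    exact ⟨l, hl1, k, hl2, ZNA_inv N σ l hl1 h2⟩
  choose l hl k hk hinv using key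
  have hinj : Function.Injective l := by
    intro s t hst
    have h1 := hKNC A N hN hcen (ZNA_b (l s)) (ZNA_coc _) (fun a => s.1 ⟨1, a⟩)
      (fun a => t.1 ⟨1, a⟩) (k s) (k t) (hk s) (hinv s) (by rw [hst]; exact hk t)
      (by rw [hst]; exact hinv t)
    refine Subtype.ext (funext fun x => ?_)
    rw [hl s x, hl t x, hst]
    have h2 := congrFun h1 x.a
    rw [h2]
  let lβ : Zn A n →* ℂˣ :=
    { toFun := fun z => z.1 β
      map_one' := rfl
      map_mul' := fun _ _ => rfl }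
  have hlβ : ZNA_b lβ = β.1 := rfl
  have hmiss : lβ ∉ Set.range l := by
    rintro ⟨s, hs⟩
    have h1 := hk s
    have h2 := hinv s
    rw [hs, hlβ] at h1 h2
    exact hno _ _ h1 h2
  have hfs : Finite {σ : Cv A n → ℂ // ∃ k, PIrr (N.comap (prC A n)) 1 σ k ∧ True ∧
      PInv (N.comap (prC A n)) 1 σ} := Finite.of_injective l hinj
  unfold GN
  have := Fintype.ofFinite {σ : Cv A n → ℂ // ∃ k, PIrr (N.comap (prC A n)) 1 σ k ∧ True ∧
      PInv (N.comap (prC A n)) 1 σ}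
  have := Fintype.ofFinite (Zn A n →* ℂˣ)
  rw [Nat.card_eq_fintype_card, Nat.card_eq_fintype_card]
  exact Fintype.card_lt_of_injective_of_notMem l hinj hmiss

theorem ZNE (hZFN : ZFN_stmt) (hKSC : KSC_stmt) (hKNC : KNC_stmt) (hKCM : KCM_stmt)
    (hGMN : GMN_stmt) : ZNE_stmt := by
  classical
  intro A _ _ N hN hcen V hV hf r hr hNr
  have hr' : Fact r.Prime := ⟨hr⟩
  have hnor : N.Normal := hN.nor
  set n : ℕ := r ^ padicValNat r (Nat.card A) with hn
  have hn1 : 1 ≤ n := Nat.one_le_pow _ _ hr.pos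
  -- the exponent
  obtain ⟨r', hr'p, hexp', k, hk, hNcard⟩ := hGMN A N hN
  have hrr : r' = r := by
    obtain ⟨j, hj⟩ := IsPGroup.iff_card.1 hNr
    have h1 : r' ∣ r ^ j := by
      rw [← hj, hNcard]
      exact dvd_pow_self _ (by omega)
    exact (Nat.prime_dvd_prime_iff_eq hr'p hr).1 (hr'p.dvd_of_dvd_pow h1)
  have hexp : ∀ x ∈ N, x ^ r = 1 := hrr ▸ hexp'
  have hrn : r ∣ n := by
    have h1 : r ∣ Nat.card A := by
      refine dvd_trans ?_ (Subgroup.card_subgroup_dvd_card N)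
      rw [hNcard, hrr]
      exact dvd_pow_self _ (by omega)
    rw [hn]
    refine dvd_pow_self _ ?_
    have h2 := one_le_padicValNat_of_dvd (p := r) (n := Nat.card A) Nat.card_pos.ne' h1
    omega
  unfold CrP at hf
  push Not at hf
  obtain ⟨f, hf1, hf2, hf3, hf4⟩ := hf
  -- the projection to `N`
  have hdec : ∀ a : A, ∃ x ∈ N, ∃ v ∈ V, a = x * v := by
    intro a
    have h1 : a ∈ N ⊔ V := by rw [sup_comm, hV.2]; exact Subgroup.mem_top a
    obtain ⟨x, hx, v, hv, h⟩ := Subgroup.mem_sup_of_normal_left.1 h1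
    exact ⟨x, hx, v, hv, h.symm⟩
  choose π hπN v hvV hav using hdec
  have huniq : ∀ x ∈ N, ∀ x' ∈ N, ∀ w ∈ V, ∀ w' ∈ V, x * w = x' * w' → x = x' := by
    intro x hx x' hx' w hw w' hw' h
    have h1 : x'⁻¹ * x = w' * w⁻¹ := by
      rw [eq_mul_inv_iff_mul_eq, mul_assoc, h, inv_mul_cancel_left]
    have h2 : x'⁻¹ * x ∈ V ⊓ N :=
      ⟨h1 ▸ V.mul_mem hw' (V.inv_mem hw), N.mul_mem (N.inv_mem hx') hx⟩
    rw [hV.1, Subgroup.mem_bot] at h2
    exact (inv_mul_eq_one.1 h2).symm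
  have hπx : ∀ x ∈ N, π x = x := by
    intro x hx
    refine huniq _ (hπN x) _ hx _ (hvV x) 1 V.one_mem ?_
    rw [← hav x, mul_one]
  have hπm : ∀ a b, π (a * b) = π a * (a * π b * a⁻¹) := by
    intro a b
    have hNc : a * π b * a⁻¹ ∈ N := hnor.conj_mem _ (hπN b) a
    refine huniq _ (hπN _) _ (N.mul_mem (hπN a) hNc) (v (a * b)) (hvV _) (v a * v b)
      (V.mul_mem (hvV a) (hvV b)) ?_
    rw [← hav (a * b)]
    have h1 : a * π b * a⁻¹ * π a = π a * (a * π b * a⁻¹) := hN.comm _ hNc _ (hπN a)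
    calc a * b = a * (π b * v b) := by rw [← hav b]
      _ = (a * π b * a⁻¹) * a * v b := by group
      _ = (a * π b * a⁻¹) * (π a * v a) * v b := by rw [← hav a]
      _ = ((a * π b * a⁻¹) * π a) * (v a * v b) := by group
      _ = _ := by rw [h1]
  have hf5 : ∀ a, f a 1 = 1 := by
    intro a
    have h1 := hf1 a 1 N.one_mem 1 N.one_mem
    rw [mul_one] at h1
    exact mul_eq_left.mp h1.symm
  -- the cocycle
  have hβ : (fun a b => f a (a * π b * a⁻¹)) ∈ Bn A n := by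
    refine ⟨⟨?_, ?_, ?_⟩, ?_⟩
    · intro a b c
      have hb : a * π b * a⁻¹ ∈ N := hnor.conj_mem _ (hπN b) a
      have hc : b * π c * b⁻¹ ∈ N := hnor.conj_mem _ (hπN c) b
      have hc' : a * (b * π c * b⁻¹) * a⁻¹ ∈ N := hnor.conj_mem _ hc a
      have e1 : (a * b) * π c * (a * b)⁻¹ = a * (b * π c * b⁻¹) * a⁻¹ := by group
      have e2 : a * π (b * c) * a⁻¹ = (a * π b * a⁻¹) * (a * (b * π c * b⁻¹) * a⁻¹) := by
        rw [hπm b c]; group
      have e3 : a⁻¹ * (a * (b * π c * b⁻¹) * a⁻¹) * a = b * π c * b⁻¹ := by group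
      simp only
      rw [e1, e2, hf2 a b _ hc', hf1 a _ hb _ hc', e3]
      exact (mul_assoc _ _ _).symm
    · intro a
      have h1 : (1 : A) * π a * 1⁻¹ ∈ N := hnor.conj_mem _ (hπN a) 1
      exact hf3 1 N.one_mem _ h1
    · intro a
      simp only
      rw [hπx 1 N.one_mem, mul_one, mul_inv_cancel]
      exact hf5 a
    · intro a b
      have hb : a * π b * a⁻¹ ∈ N := hnor.conj_mem _ (hπN b) a
      have h1 : ∀ (j : ℕ) (x : A), x ∈ N → f a (x ^ j) = f a x ^ j := by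
        intro j x hx
        induction j with
        | zero => rw [pow_zero, pow_zero, hf5]
        | succ j ih => rw [pow_succ, pow_succ, hf1 a _ (N.pow_mem hx j) _ hx, ih]
      obtain ⟨m, hm⟩ := hrn
      simp only
      rw [← h1 n _ hb, hm, pow_mul, hexp _ hb, one_pow, hf5]
  refine ZNE_lt hZFN hKSC hKNC N hN hcen n hn1 ⟨_, hβ⟩ ?_
  intro σ k hσ hinv
  have hβN : ∀ x ∈ N, ∀ b, f x (x * π b * x⁻¹) = 1 := by
    intro x hx b
    exact hf3 x hx _ (hnor.conj_mem _ (hπN b) x)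
  obtain ⟨-, l, hl1, hl2⟩ := hKCM A N (fun a b => f a (a * π b * a⁻¹)) hβ.1
    (fun x hx y hy => ⟨by rw [hβN x hx, hβN y hy], hN.comm x hx y hy⟩) σ k hσ
  obtain ⟨a, x, hx, hne⟩ := hf4 l (fun x hx y hy => by
    have h1 := hl2 x hx y hy
    rw [hβN x hx, one_mul] at h1
    exact h1.symm)
  apply hne
  -- invariance
  have hx' : a⁻¹ * x * a ∈ N := by
    have := hnor.conj_mem x hx a⁻¹
    rwa [inv_inv] at this
  have hxx : a * (a⁻¹ * x * a) * a⁻¹ = x := by group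
  have h1 := hinv a (a⁻¹ * x * a) hx'
  rw [hxx, hl1 _ hx', hl1 _ hx] at h1
  have h2 : tw (fun a b => f a (a * π b * a⁻¹)) a (a⁻¹ * x * a) = f a x := by
    unfold tw
    rw [hxx]
    change f a (a * π (a⁻¹ * x * a) * a⁻¹) * (f x (x * π a * x⁻¹))⁻¹ = f a x
    rw [hβN x hx, inv_one, mul_one, hπx _ hx', hxx]
  rw [h2, ← Units.val_mul] at h1
  have h3 := Units.ext h1
  rw [eq_mul_inv_iff_mul_eq]
  exact h3.symm

end Pool.Agent.DR
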