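import Mathlib
import Pool.Agent.helper35.DR.LocA
import Pool.Agent.helper35.DR.ZNE
import Pool.Agent.helper33.DR.ZRL
import Pool.Agent.helper91.DR.ZCA

/-!
# Project dr, local form: the cover
-/

set_option autoImplicit false

namespace Pool.Agent.DR

open Pool.Agent.helper58.DC Pool.Agent.DI

/-- Local form of ZRL. -/
def ZRLX_stmt : Prop :=
  ∀ (G E A : Type) [Group G] [Group E] [Group A] [Finite G] [Finite E] [Finite A]
    (X : Extension G E A) (p : ℕ) [Fact p.Prime] (M : Ideal (integralClosure ℤ ℂ)), M.IsMaximal →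
    (p : integralClosure ℤ ℂ) ∈ M → IsOp p (⊤ : Subgroup G) ⊥ → ∀ χ ∈ Irr G, Stable X M χ →
    ∀ 𝒳 : (E : Type) → [Group E] → Prop, ∀ (N : Subgroup A) [N.Normal],
    MinAb N → ∀ r : ℕ, r.Prime → r ≠ p → IsPGroup r N →
    𝒳 (FC X (r ^ padicValNat r (Nat.card A))) → InvX p M 𝒳 (A ⧸ N) → ∀ D : ℤ, 1 ≤ D →
    (Nat.card N : ℤ) * GN (N.comap (prC A (r ^ padicValNat r (Nat.card A)))) 1 (fun _ => True) *
        altSum X p M χ D ⊤ +
      (Nat.card (Zn A (r ^ padicValNat r (Nat.card A))) : ℤ) *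
        ∑ᶠ V : {V : Subgroup A // IsCpl N V}, altSum X p M χ D V.1 = 0

theorem ZRLX (hD1 : D1_stmt) (hB2 : B2_stmt) (hGVM : GVM_stmt) (hRLB : RLBX_stmt) (hZFN : ZFN_stmt)
    (hZST : ZST_stmt) (hZFL : ZFL_stmt) (hZCO : ZCO_stmt) : ZRLX_stmt := by
  classical
  intro G E A _ _ _ _ _ _ X p _ M hM hpM hop χ hχ hst 𝒳 N _ hN r hr hrp hNr hXF hInv D hD
  set n : ℕ := r ^ padicValNat r (Nat.card A) with hn
  have hn1 : 1 ≤ n := Nat.one_le_pow _ _ hr.pos
  obtain ⟨-, hfZ, hfC, hsur, -, -, hpow, hcard, hquo, hE⟩ := hZFN A n hn1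
  obtain ⟨hfFC, -, -, -, -⟩ := hE G E X
  have hpp : p.Prime := Fact.out
  -- orders
  obtain ⟨j, hj⟩ := hpow r hr ⟨_, rfl⟩
  have hpz : ¬ p ∣ Nat.card (Zn A n) := by
    rw [hj]
    intro h
    exact hrp ((Nat.prime_dvd_prime_iff_eq hpp hr).1 (hpp.dvd_of_dvd_pow h)).symm
  have : Fact r.Prime := ⟨hr⟩
  obtain ⟨k, hk⟩ := (IsPGroup.iff_card.1 hNr)
  have hpN : ¬ p ∣ Nat.card N := by
    rw [hk]
    intro h
    exact hrp ((Nat.prime_dvd_prime_iff_eq hpp hr).1 (hpp.dvd_of_dvd_pow h)).symm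
  have hpNh : ¬ p ∣ Nat.card (N.comap (prC A n)) := by
    rw [hcard N]
    intro h
    rcases (Nat.Prime.dvd_mul hpp).1 h with h | h
    · exact hpN h
    · exact hpz h
  obtain ⟨e⟩ := hquo N
  have hInv' : InvX p M 𝒳 (Cv A n ⧸ N.comap (prC A n)) := by
    intro G' E' A' _ _ _ _ _ X' hX' hf hop' χ' hχ' hpos d U
    obtain ⟨f⟩ := hf
    exact hInv G' E' A' X' hX' ⟨f.trans e⟩ hop' χ' hχ' hpos d U
  have hstX : Stable (XC X n) M χ := (hZST G E A X n ∅ χ).2.2 M χ hst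
  have hrel := hRLB G (FC X n) (Cv A n) (XC X n) p M hM hpM hop χ hχ hstX 𝒳 hXF
    (N.comap (prC A n)) hpNh hInv' D hD
  unfold Rel at hrel
  set κ : ℤ := (GN (N.comap (prC A n)) 1 (fun _ => True) : ℤ) with hκ
  set z : ℤ := (Nat.card (Zn A n) : ℤ) with hz
  haveI : Fintype {V : Subgroup A // IsCpl N V} := Fintype.ofFinite _
  have hRfin : {C : Finset (Subgroup G) | IsRadical p C}.Finite := Set.toFinite _
  set R : Finset (Finset (Subgroup G)) := hRfin.toFinset with hR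
  have hmem : ∀ C, C ∈ R ↔ IsRadical p C := fun C => by
    rw [hR, Set.Finite.mem_toFinset]; rfl
  have hfs : ∀ f : Finset (Subgroup G) → ℤ,
      ∑ᶠ C ∈ {C : Finset (Subgroup G) | IsRadical p C}, f C = ∑ C ∈ R, f C := by
    intro f
    rw [finsum_mem_eq_finite_toFinset_sum _ hRfin]
  have hinner : ∀ C ∈ R, ∑ᶠ ψ ∈ {ψ : G → ℂ | ψ ∈ IrrOn (nrm C) ∧ Induces M ψ χ ∧
      ((XC X n).stab C ψ).map (XC X n).proj ⊔ N.comap (prC A n) = ⊤},
        relT (XC X n) p (N.comap (prC A n)) C ψ D =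
      ((Nat.card N : ℤ) * z * Nat.card (nrm C) * κ) * (kC X p M χ D ⊤ C : ℤ) +
        (z * Nat.card (nrm C) * z) * ∑ V : {V : Subgroup A // IsCpl N V},
        (kC X p M χ D V.1 C : ℤ) := by
    intro C hC
    rw [hmem] at hC
    have hne : C.Nonempty := by
      obtain ⟨P, hP, -⟩ := hC.radical
      exact ⟨P, hP⟩
    refine ZRL_inner hGVM X p M χ D N hN C (hB2 G (nrm C)).1 _ _ _ _ ?_ ?_ ?_
    · intro ψ _
      rw [(hZST G E A X n C ψ).2.1, ZRL_sup _ hsur]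
    · intro ψ hψ hV
      rw [hZFL G E A X p N inferInstance r hr hrp hNr C hC.chain hne ψ hψ hV D]
      by_cases h : Defect p (nrm C) ψ D
      · rw [if_pos h, if_pos h]
      · rw [if_neg h, if_neg h, mul_zero]
    · intro ψ hψ hV
      rw [hZCO G E A X p n hn1 hpz N C hC.chain hne ψ hψ hV D]
      by_cases h : Defect p (nrm C) ψ D
      · rw [if_pos h, if_pos h]
      · rw [if_neg h, if_neg h, mul_zero]
  rw [hfs, Finset.sum_congr rfl (fun C hC => by rw [hinner C hC])] at hrel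
  -- the alternating sums
  have halt : ∀ U : Subgroup A, (Nat.card G : ℤ) * altSum X p M χ D U =
      ∑ C ∈ R, (-1) ^ (C.card + 1) * ((Nat.card (nrm C) : ℤ) * kC X p M χ D U C) := by
    intro U
    rw [hD1 G E A X p M χ hχ D U, hfs]
  have hG0 : (Nat.card G : ℤ) ≠ 0 := by
    exact_mod_cast Nat.card_pos.ne'
  have hz0 : z ≠ 0 := by
    rw [hz]
    exact_mod_cast Nat.card_pos.ne'
  rw [finsum_eq_sum_of_fintype]
  have hkey : (z * (Nat.card G : ℤ)) * ((Nat.card N : ℤ) * κ * altSum X p M χ D ⊤ +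
      z * ∑ V : {V : Subgroup A // IsCpl N V}, altSum X p M χ D V.1) = 0 := by
    rw [← hrel]
    have e1 : (z * (Nat.card G : ℤ)) * ((Nat.card N : ℤ) * κ * altSum X p M χ D ⊤ +
        z * ∑ V : {V : Subgroup A // IsCpl N V}, altSum X p M χ D V.1) =
        z * (Nat.card N : ℤ) * κ * ((Nat.card G : ℤ) * altSum X p M χ D ⊤) +
        z * z * ∑ V : {V : Subgroup A // IsCpl N V},
          ((Nat.card G : ℤ) * altSum X p M χ D V.1) := by
      rw [← Finset.mul_sum]; ring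
    rw [e1, halt]
    simp_rw [halt]
    rw [Finset.sum_comm, Finset.mul_sum, Finset.mul_sum, ← Finset.sum_add_distrib]
    refine Finset.sum_congr rfl fun C _ => ?_
    rw [← Finset.mul_sum, ← Finset.mul_sum]
    ring
  rcases mul_eq_zero.1 hkey with h | h
  · exact absurd h (mul_ne_zero hz0 hG0)
  · exact h

/-- The numerical lemma, with the condition on crossed homomorphisms. -/
def ZNUX_stmt : Prop :=
  ∀ (A : Type) [Group A] [Finite A] (N : Subgroup A), MinAb N → ∀ r : ℕ, r.Prime →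
    IsPGroup r N → (ncpl N ≠ Nat.card N ∨ ((∃ a : A, ∃ x ∈ N, a * x ≠ x * a) ∧ ¬ CrP N)) →
    Nat.card N * GN (N.comap (prC A (r ^ padicValNat r (Nat.card A)))) 1 (fun _ => True) ≠
      Nat.card (Zn A (r ^ padicValNat r (Nat.card A))) * ncpl N

theorem ZNUX (hZNU : ZNU_stmt) (hZNE : ZNE_stmt) : ZNUX_stmt := by
  intro A _ _ N hN r hr hNr h
  by_cases hc : ncpl N = Nat.card N
  · rcases h with h | ⟨h1, h2⟩
    · exact absurd hc h
    · have hpos : 0 < ncpl N := by rw [hc]; exact Nat.card_pos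
      have hne : Nonempty {V : Subgroup A // IsCpl N V} := by
        by_contra hE
        rw [not_nonempty_iff] at hE
        unfold ncpl at hpos
        rw [Nat.card_of_isEmpty] at hpos
        exact lt_irrefl _ hpos
      obtain ⟨V, hV⟩ := hne
      have h3 := hZNE A N hN h1 V hV h2 r hr hNr
      have h4 : Nat.card N * GN (N.comap (prC A (r ^ padicValNat r (Nat.card A)))) 1
          (fun _ => True) < Nat.card N * Nat.card (Zn A (r ^ padicValNat r (Nat.card A))) :=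
        Nat.mul_lt_mul_of_pos_left h3 Nat.card_pos
      rw [hc, mul_comm (Nat.card (Zn A _))]
      exact h4.ne
  · exact hZNU A N hN r hr hNr hc

/-- Local form of ZCA. -/
def ZCAX_stmt : Prop :=
  ∀ (G E A : Type) [Group G] [Group E] [Group A] [Finite G] [Finite E] [Finite A]
    (X : Extension G E A) (p : ℕ) [Fact p.Prime] (M : Ideal (integralClosure ℤ ℂ)), M.IsMaximal →
    (p : integralClosure ℤ ℂ) ∈ M → IsOp p (⊤ : Subgroup G) ⊥ → ∀ χ ∈ Irr G, Stable X M χ →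
    ∀ 𝒳 : (E : Type) → [Group E] → Prop, ∀ (N : Subgroup A) [N.Normal],
    MinAb N → ¬ p ∣ Nat.card N →
    (ncpl N ≠ Nat.card N ∨ ((∃ a : A, ∃ x ∈ N, a * x ≠ x * a) ∧ ¬ CrP N)) →
    (∀ n : ℕ, 1 ≤ n → ¬ p ∣ Nat.card (Zn A n) → 𝒳 (FC X n)) → InvX p M 𝒳 (A ⧸ N) →
    (∀ V : Subgroup A, IsCpl N V → ∀ d : ℤ, altSum X p M χ d V + altSum X p M χ d ⊤ = 0) →
    ∀ d : ℤ, 1 ≤ d → altSum X p M χ d ⊤ = 0

theorem ZCAX (hZFN : ZFN_stmt) (hGMN : GMN_stmt) (hZRL : ZRLX_stmt) (hZNU : ZNUX_stmt) : ZCAX_stmt := by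
  classical
  intro G E A _ _ _ _ _ _ X p _ M hM hpM hop χ hχ hst 𝒳 N _ hN hpN hcpl hXF hinv hV d hd
  obtain ⟨r, hr, -, k, hk, hcard⟩ := hGMN A N hN
  have hrp : r ≠ p := by
    rintro rfl
    apply hpN
    rw [hcard]
    exact dvd_pow_self _ (by omega)
  have hpg : IsPGroup r N := IsPGroup.of_card hcard
  have hpp : p.Prime := Fact.out
  have hn1 : 1 ≤ r ^ padicValNat r (Nat.card A) := Nat.one_le_pow _ _ hr.pos
  have hpz : ¬ p ∣ Nat.card (Zn A (r ^ padicValNat r (Nat.card A))) := by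
    obtain ⟨j, hj⟩ := (hZFN A _ hn1).2.2.2.2.2.2.1 r hr ⟨_, rfl⟩
    rw [hj]
    intro h
    exact hrp ((Nat.prime_dvd_prime_iff_eq hpp hr).1 (hpp.dvd_of_dvd_pow h)).symm
  have h1 := hZRL G E A X p M hM hpM hop χ hχ hst 𝒳 N hN r hr hrp hpg (hXF _ hn1 hpz) hinv d hd
  have h2 := hZNU A N hN r hr hpg hcpl
  have h3 : ∑ᶠ V : {V : Subgroup A // IsCpl N V}, altSum X p M χ d V.1 =
      -((ncpl N : ℤ) * altSum X p M χ d ⊤) := by
    have h4 : ∀ V : {V : Subgroup A // IsCpl N V}, altSum X p M χ d V.1 =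
        -altSum X p M χ d ⊤ := fun V => by
      have := hV V.1 V.2 d
      linarith
    have : Fintype {V : Subgroup A // IsCpl N V} := Fintype.ofFinite _
    rw [finsum_congr h4, finsum_eq_sum_of_fintype, Finset.sum_const, Finset.card_univ, ncpl,
      Nat.card_eq_fintype_card, nsmul_eq_mul]
    ring
  rw [h3] at h1
  have h5 : ((Nat.card N * GN (N.comap (prC A (r ^ padicValNat r (Nat.card A)))) 1
      (fun _ => True) : ℕ) : ℤ) ≠
      ((Nat.card (Zn A (r ^ padicValNat r (Nat.card A))) * ncpl N : ℕ) : ℤ) := by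
    exact_mod_cast h2
  push_cast at h5
  have h6 : ((Nat.card N : ℤ) * GN (N.comap (prC A (r ^ padicValNat r (Nat.card A)))) 1
      (fun _ => True) - (Nat.card (Zn A (r ^ padicValNat r (Nat.card A))) : ℤ) * ncpl N) *
      altSum X p M χ d ⊤ = 0 := by
    linear_combination h1
  rcases mul_eq_zero.1 h6 with h7 | h7
  · exact absurd (by linarith) h5
  · exact h7

end Pool.Agent.DR
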