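import Mathlib
import Pool.Agent.helper35.DR.LocP
import Pool.Agent.helper35.DR.LocZ
import Pool.Agent.helper93.DR.FST
import Pool.Agent.helper81.DI.DefsL

/-!
# Project dr, local form: the induction
-/

set_option autoImplicit false

namespace Pool.Agent.DR

open Pool.Agent.helper58.DC Pool.Agent.DI

/-- `A` is reduced: for every abelian minimal normal subgroup `N` of `A` the order of `N` is prime to `p`,
`N` has exactly `|N|` complements, and if `N` is not central then every crossed homomorphism of `A / N` to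
the dual group of `N` is principal. -/
def RedX (p : ℕ) (A : Type) [Group A] : Prop :=
  ∀ N : Subgroup A, MinAb N → ¬ p ∣ Nat.card N ∧ ncpl N = Nat.card N ∧
    ((∃ a : A, ∃ x ∈ N, a * x ≠ x * a) → CrP N)

/-- The ordinary conjecture for the finite groups in the class `𝒳`. -/
def OrdX (p : ℕ) (M : Ideal (integralClosure ℤ ℂ)) (𝒳 : (E : Type) → [Group E] → Prop) : Prop :=
  ∀ (G : Type) [Group G] [Finite G], 𝒳 G → OrdAt p M G

/-- `U` is cyclic, or the class `𝒳` is closed under direct products and `U` has a normal `p`-subgroup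
with cyclic quotient. -/
def Hy (p : ℕ) (𝒳 : (E : Type) → [Group E] → Prop) (U : Type) [Group U] : Prop :=
  IsCyclic U ∨ (PrX 𝒳 ∧ ∃ P : Subgroup U, IsPGroup p P ∧ CycQ P)

/-- For every extension with `E` in `𝒳` and every subgroup `U` of `A` with `Hy` the sum of the alternating
sums over all subgroups which contain `U` vanishes. -/
def SumX (p : ℕ) (M : Ideal (integralClosure ℤ ℂ)) (𝒳 : (E : Type) → [Group E] → Prop) : Prop :=
  ∀ (G E A : Type) [Group G] [Group E] [Group A] [Finite G] [Finite E] (X : Extension G E A),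
    𝒳 E → IsOp p (⊤ : Subgroup G) ⊥ → ∀ χ ∈ Irr G, PosDefect p M χ →
      ∀ (d : ℤ) (U : Subgroup A), Hy p 𝒳 U →
        ∑ᶠ V : {V : Subgroup A // U ≤ V}, altSum X p M χ d V.1 = 0

/-- The fibre square is in the class. -/
theorem LF_KE {𝒳 : (E : Type) → [Group E] → Prop} (hCl : ClX 𝒳) (hPr : PrX 𝒳) {G E A : Type}
    [Group G] [Group E] [Group A] (X : Extension G E A) (hE : 𝒳 E) : 𝒳 (KE X (diag A)) := by
  let g : KE X (diag A) →* E × E :=
    { toFun := fun e => (e.f t₀, e.f t₁)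
      map_one' := rfl
      map_mul' := fun a b => rfl }
  have hg : Function.Injective g := by
    intro a b hab
    have h0 : a.f t₀ = b.f t₀ := congrArg Prod.fst hab
    have h1 : a.f t₁ = b.f t₁ := congrArg Prod.snd hab
    refine KE.ext ?_ (funext fun t => ?_)
    · have ha : X.proj (a.f t₀) = a.l := a.h t₀
      have hb : X.proj (b.f t₀) = b.l := b.h t₀
      rw [← ha, ← hb, h0]
    · cases t
      · exact h0
      · exact h1
  have h1 : 𝒳 g.range := hCl.sub _ _ (hPr E E hE hE)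
  let e : KE X (diag A) ≃* g.range := MonoidHom.ofInjective hg
  exact hCl.img _ _ e.symm.toMonoidHom e.symm.surjective h1

/-- The induction step for one extension. -/
theorem FSTX (hD13 : D13_stmt) (hRE : RE_stmt) (hST : ST_stmt) (hD6 : D6_stmt)
    (hPCA : PCAX_stmt) (hZCA : ZCAX_stmt) (hGVM : GVM_stmt) (p : ℕ) [Fact p.Prime]
    (M : Ideal (integralClosure ℤ ℂ)) (hM : M.IsMaximal) (hpM : (p : integralClosure ℤ ℂ) ∈ M)
    (𝒳 : (E : Type) → [Group E] → Prop) (hCl : ClX 𝒳) (G E A : Type) [Group G] [Group E]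
    [Group A] [Finite G] [Finite E] (X : Extension G E A) (hE : 𝒳 E) (N : Subgroup A) [N.Normal]
    (hN : MinAb N)
    (hcase : (p ∣ Nat.card N ∧ 𝒳 (KE X (diag A))) ∨ (¬ p ∣ Nat.card N ∧
      (ncpl N ≠ Nat.card N ∨ ((∃ a : A, ∃ x ∈ N, a * x ≠ x * a) ∧ ¬ CrP N)) ∧
      ∀ n : ℕ, 1 ≤ n → ¬ p ∣ Nat.card (Zn A n) → 𝒳 (FC X n)))
    (hU : ∀ U : Subgroup A, U ≠ ⊤ → InvX p M 𝒳 U) (hQ : InvX p M 𝒳 (A ⧸ N))
    (hO : IsOp p (⊤ : Subgroup G) ⊥) (χ : G → ℂ) (hχ : χ ∈ Irr G) (hPD : PosDefect p M χ)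
    (d : ℤ) : ∀ U : Subgroup A, altSum X p M χ d U = 0 := by
  have hfA : Finite A := Finite.of_surjective X.proj X.proj_surjective
  have hsub : ∀ (U : Subgroup A), U ≠ ⊤ → ∀ d' : ℤ,
      ∑ᶠ V : {V : Subgroup A // U ≤ V}, altSum X p M χ d' V.1 = 0 := by
    intro U hUt d'
    rw [← hRE G E A X p M χ hχ d' U]
    exact hU U hUt G (U.comap X.proj) U (resE X U) (hCl.sub _ _ hE) ⟨MulEquiv.refl _⟩ hO χ hχ
      hPD d' ⊤
  have htop : ∀ d' : ℤ, altSum X p M χ d' ⊤ = 0 := by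
    intro d'
    by_cases hS : Stable X M χ
    · rcases le_or_gt d' 0 with hd | hd
      · exact hD6 G E A X p M hM hpM χ hχ hPD d' hd ⊤
      · have hcpl : ∀ V : Subgroup A, IsCpl N V → ∀ d'' : ℤ,
            altSum X p M χ d'' V + altSum X p M χ d'' ⊤ = 0 := by
          intro V hV d''
          have h1 := (hGVM A N hN).2.1 V hV
          rw [← FST_two (fun W => altSum X p M χ d'' W) V h1.1 h1.2]
          exact hsub V h1.1 d''
        rcases hcase with ⟨hp, hK⟩ | ⟨hp, hc, hF⟩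
        · exact hPCA G E A X p M hM hpM hO χ hχ hS 𝒳 hCl hK N hN hp hQ hcpl d' hd
        · exact hZCA G E A X p M hM hpM hO χ hχ hS 𝒳 N hN hp hc hF hQ hcpl d' hd
    · by_contra hne
      exact hS (hST G E A X p M χ hχ d' hne)
  intro U
  revert U
  refine hD13 A (fun V => altSum X p M χ d V) fun U => ?_
  by_cases hUt : U = ⊤
  · subst hUt
    rw [FST_top (fun V => altSum X p M χ d V)]
    exact htop d
  · exact hsub U hUt d

/-- The step, used in an induction. -/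
def StepX (p : ℕ) (M : Ideal (integralClosure ℤ ℂ)) (𝒳 : (E : Type) → [Group E] → Prop) : Prop :=
  ∀ (G E A : Type) [Group G] [Group E] [Group A] [Finite G] [Finite E] (X : Extension G E A)
    (_ : 𝒳 E) (N : Subgroup A) [N.Normal], MinAb N →
    ((p ∣ Nat.card N ∧ 𝒳 (KE X (diag A))) ∨ (¬ p ∣ Nat.card N ∧
      (ncpl N ≠ Nat.card N ∨ ((∃ a : A, ∃ x ∈ N, a * x ≠ x * a) ∧ ¬ CrP N)) ∧
      ∀ n : ℕ, 1 ≤ n → ¬ p ∣ Nat.card (Zn A n) → 𝒳 (FC X n))) →
    (∀ U : Subgroup A, U ≠ ⊤ → InvX p M 𝒳 U) → InvX p M 𝒳 (A ⧸ N) →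
    IsOp p (⊤ : Subgroup G) ⊥ → ∀ χ ∈ Irr G, PosDefect p M χ →
    ∀ (d : ℤ) (U : Subgroup A), altSum X p M χ d U = 0

/-- One step of the induction on the order. -/
theorem LF_ind {p : ℕ} {M : Ideal (integralClosure ℤ ℂ)} {𝒳 : (E : Type) → [Group E] → Prop}
    (hS : StepX p M 𝒳) (𝒞 : (A : Type) → [Group A] → Prop) (h𝒞 : ClX 𝒞)
    (hred : ∀ (A : Type) [Group A] [Finite A], 𝒞 A → InvX p M 𝒳 A ∨ ∃ N : Subgroup A, MinAb N ∧
      ((p ∣ Nat.card N ∧ PrX 𝒳) ∨ (¬ p ∣ Nat.card N ∧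
      (ncpl N ≠ Nat.card N ∨ ((∃ a : A, ∃ x ∈ N, a * x ≠ x * a) ∧ ¬ CrP N)) ∧ CeX p 𝒳)))
    (hCl : ClX 𝒳) (hZFN : ZFN_stmt) :
    ∀ (n : ℕ) (A : Type) [Group A] [Finite A], Nat.card A = n → 𝒞 A → InvX p M 𝒳 A := by
  intro n
  induction n using Nat.strong_induction_on with
  | _ n ih =>
    intro A _ _ hn hA G E A' _ _ _ _ _ X hE hiso hop χ hχ hdef d U
    obtain ⟨e⟩ := hiso
    have : Finite A' := Finite.of_equiv A e.symm.toEquiv
    have hcard : Nat.card A' = n := by rw [← hn]; exact Nat.card_congr e.toEquiv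
    have hA' : 𝒞 A' := h𝒞.img A A' e.symm.toMonoidHom e.symm.surjective hA
    rcases hred A' hA' with h0 | ⟨N, hN, hNc⟩
    · exact h0 G E A' X hE ⟨MulEquiv.refl A'⟩ hop χ hχ hdef d U
    · have hNn : N.Normal := hN.nor
      refine hS G E A' X hE N hN ?_ ?_ ?_ hop χ hχ hdef d U
      · rcases hNc with ⟨h1, h2⟩ | ⟨h1, h2, h3⟩
        · exact Or.inl ⟨h1, LF_KE hCl h2 X hE⟩
        · refine Or.inr ⟨h1, h2, fun m hm hpm => ?_⟩
          obtain ⟨-, -, -, -, -, -, -, -, -, hF⟩ := hZFN A' m hm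
          obtain ⟨f1, f2, f3, f4, -⟩ := hF G E X
          have := f1
          exact h3 (FC X m) E (fcE X m) f2 f4 (by rw [f3]; exact hpm) hE
      · intro V hV
        have h1 : Nat.card V < n := by
          rw [← hcard]
          refine lt_of_le_of_ne (Subgroup.card_le_card_group V) ?_
          intro h
          exact hV (Subgroup.eq_top_of_card_eq V h)
        exact ih (Nat.card V) h1 V rfl (h𝒞.sub A' V hA')
      · have h1 : Nat.card (A' ⧸ N) < n := by
          rw [← hcard, Subgroup.card_eq_card_quotient_mul_card_subgroup N]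
          have h2 : 1 < Nat.card N := (Subgroup.one_lt_card_iff_ne_bot N).2 hN.ne
          have h3 : 0 < Nat.card (A' ⧸ N) := Nat.card_pos
          exact lt_mul_of_one_lt_right h3 h2
        exact ih (Nat.card (A' ⧸ N)) h1 (A' ⧸ N) rfl
          (h𝒞.img A' (A' ⧸ N) (QuotientGroup.mk' N) (QuotientGroup.mk'_surjective N) hA')

/-- A group with a normal `p`-subgroup and cyclic quotient is cyclic or has an abelian minimal normal
subgroup of order divisible by `p`. -/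
theorem LF_hyp {p : ℕ} [Fact p.Prime] {A : Type} [Group A] [Finite A]
    (h : ∃ P : Subgroup A, IsPGroup p P ∧ CycQ P) :
    IsCyclic A ∨ ∃ N : Subgroup A, MinAb N ∧ p ∣ Nat.card N := by
  obtain ⟨P, hPp, hPn, s, hs⟩ := h
  by_cases hP : P = ⊥
  · -- the group is cyclic
    left
    refine ⟨s, fun x => ?_⟩
    obtain ⟨k, hk⟩ := hs x
    rw [hP, Subgroup.mem_bot] at hk
    refine ⟨-k, ?_⟩
    change s ^ (-k) = x
    rw [zpow_neg]
    exact inv_eq_of_mul_eq_one_right hk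
  · right
    haveI : Finite P := inferInstance
    have hnt : Nontrivial P := (Subgroup.nontrivial_iff_ne_bot P).2 hP
    have hcn : Nontrivial (Subgroup.center P) := IsPGroup.center_nontrivial hPp
    haveI := hPn
    -- the normal subgroup `Z`
    have hZn : (P ⊓ Subgroup.centralizer (P : Set A)).Normal := inferInstance
    have hZ : P ⊓ Subgroup.centralizer (P : Set A) ≠ ⊥ := by
      intro h
      obtain ⟨z, hz⟩ := exists_ne (1 : Subgroup.center P)
      apply hz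
      have hzm : (z.1 : A) ∈ P ⊓ Subgroup.centralizer (P : Set A) := by
        refine Subgroup.mem_inf.2 ⟨z.1.2, ?_⟩
        rw [Subgroup.mem_centralizer_iff]
        intro y hy
        have := (Subgroup.mem_center_iff.1 z.2) ⟨y, hy⟩
        exact congrArg Subtype.val this
      rw [h, Subgroup.mem_bot] at hzm
      exact Subtype.ext (Subtype.ext hzm)
    obtain ⟨K, hK⟩ := Set.Finite.exists_minimal
      (s := {K : Subgroup A | K.Normal ∧ K ≠ ⊥ ∧ K ≤ P ⊓ Subgroup.centralizer (P : Set A)})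
      (Set.toFinite _) ⟨_, hZn, hZ, le_refl _⟩
    obtain ⟨⟨hK1, hK2, hK3⟩, hK4⟩ := hK
    have hmin : MinAb K := by
      refine ⟨hK2, hK1, ?_, ?_⟩
      · intro L hL hLK
        by_cases hLb : L = ⊥
        · exact Or.inl hLb
        · exact Or.inr (le_antisymm hLK (hK4 ⟨hL, hLb, hLK.trans hK3⟩ hLK))
      · intro a ha b hb
        have h1 := (Subgroup.mem_inf.1 (hK3 ha)).1
        have h2 := (Subgroup.mem_inf.1 (hK3 hb)).2
        exact (Subgroup.mem_centralizer_iff.1 h2) a h1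
    have hKp : IsPGroup p K := hPp.to_le (hK3.trans inf_le_left)
    rcases hKp.card_eq_or_dvd with h | h
    · exact absurd (Subgroup.eq_bot_of_card_eq K h) hK2
    · exact ⟨K, hmin, h⟩

/-- The main statement. -/
def FINX_stmt : Prop :=
  ∀ (p : ℕ) [Fact p.Prime] (M : Ideal (integralClosure ℤ ℂ)), M.IsMaximal →
    (p : integralClosure ℤ ℂ) ∈ M → ∀ 𝒳 : (E : Type) → [Group E] → Prop, ClX 𝒳 →
    (OrdX p M 𝒳 ↔ ∀ (A : Type) [Group A] [Finite A], Hy p 𝒳 A → InvX p M 𝒳 A) ∧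
    (OrdX p M 𝒳 ↔ SumX p M 𝒳) ∧
    (PrX 𝒳 → CeX p 𝒳 → ∀ 𝒞 : (A : Type) → [Group A] → Prop, ClX 𝒞 →
      (∀ (A : Type) [Group A] [Finite A], 𝒞 A → RedX p A → InvX p M 𝒳 A) →
      ∀ (A : Type) [Group A] [Finite A], 𝒞 A → InvX p M 𝒳 A)

theorem FINX (hD13 : D13_stmt) (hRE : RE_stmt) (hST : ST_stmt) (hD6 : D6_stmt)
    (hPCA : PCAX_stmt) (hZCA : ZCAX_stmt) (hGVM : GVM_stmt) (hZFN : ZFN_stmt)
    (hHYC : HYC_stmt)
    (hcyc : ∀ (p : ℕ) [Fact p.Prime] (M : Ideal (integralClosure ℤ ℂ)), M.IsMaximal →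
      (p : integralClosure ℤ ℂ) ∈ M → ∀ (E₀ : Type) [Group E₀], OrdS p M E₀ → CycInvS p M E₀) :
    FINX_stmt := by
  intro p _ M hM hpM 𝒳 hCl
  have hStep : StepX p M 𝒳 := fun G E A _ _ _ _ _ X hE N _ hN hc hU hQ hO χ hχ hPD d U =>
    FSTX hD13 hRE hST hD6 hPCA hZCA hGVM p M hM hpM 𝒳 hCl G E A X hE N hN hc hU hQ hO χ hχ hPD d U
  -- cyclic quotients
  have hC : OrdX p M 𝒳 → ∀ (A : Type) [Group A] [Finite A], IsCyclic A → InvX p M 𝒳 A := by
    intro hO A _ _ hA G E A' _ _ _ _ _ X hE hiso hop χ hχ hPD d U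
    obtain ⟨e⟩ := hiso
    have hA' : IsCyclic A' := (e.isCyclic).2 hA
    refine hcyc p M hM hpM E ?_ G E A' X (Sec.refl E) hA' hop χ hχ hPD d U
    intro G' _ _ hS
    obtain ⟨H, f, hf⟩ := hS
    exact hO G' (hCl.img _ _ f hf (hCl.sub _ H hE))
  have hI : OrdX p M 𝒳 → ∀ (A : Type) [Group A] [Finite A], Hy p 𝒳 A → InvX p M 𝒳 A := by
    intro hO A _ _ hA
    rcases hA with hA | ⟨hPr, hA⟩
    · exact hC hO A hA
    · refine LF_ind hStep
        (fun (B : Type) [Group B] => Finite B ∧ ∃ P : Subgroup B, IsPGroup p P ∧ CycQ P)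
        ⟨?_, ?_⟩ ?_ hCl hZFN (Nat.card A) A rfl ⟨inferInstance, hA⟩
      · intro B _ H hB
        obtain ⟨hB1, hB2⟩ := hB
        have := hB1
        exact ⟨inferInstance, (hHYC p).1 B H hB2⟩
      · intro B C _ _ f hf hB
        obtain ⟨hB1, hB2⟩ := hB
        have := hB1
        exact ⟨Finite.of_surjective f hf, (hHYC p).2 B C f hf hB2⟩
      · intro B _ _ hB
        rcases LF_hyp hB.2 with h | ⟨N, h1, h2⟩
        · exact Or.inl (hC hO B h)
        · exact Or.inr ⟨N, h1, Or.inl ⟨h2, hPr⟩⟩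
  have hIS : OrdX p M 𝒳 → SumX p M 𝒳 := by
    intro hO G E A _ _ _ _ _ X hE hop χ hχ hPD d U hU
    have hfA : Finite A := Finite.of_surjective X.proj X.proj_surjective
    rw [← hRE G E A X p M χ hχ d U]
    exact hI hO U hU G (U.comap X.proj) U (resE X U) (hCl.sub _ _ hE) ⟨MulEquiv.refl _⟩ hop χ hχ
      hPD d ⊤
  have hSO : SumX p M 𝒳 → OrdX p M 𝒳 := by
    intro hS G _ _ hG hop χ hχ hPD d
    have h1 := hS G G _ (trivE G) hG hop χ hχ hPD d ⊤ (Or.inl ⟨1, fun x => ⟨0, Subsingleton.elim _ _⟩⟩)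
    rw [FST_top (fun V => altSum (trivE G) p M χ d V)] at h1
    exact h1
  have hIO : (∀ (A : Type) [Group A] [Finite A], Hy p 𝒳 A → InvX p M 𝒳 A) → OrdX p M 𝒳 := by
    intro hI G _ _ hG hop χ hχ hPD d
    exact hI _ (Or.inl ⟨1, fun x => ⟨0, Subsingleton.elim _ _⟩⟩) G G _ (trivE G) hG
      ⟨MulEquiv.refl _⟩ hop χ hχ hPD d ⊤
  refine ⟨⟨hI, hIO⟩, ⟨hIS, hSO⟩, ?_⟩
  intro hPr hCe 𝒞 h𝒞 hred A _ _ hA
  refine LF_ind hStep 𝒞 h𝒞 ?_ hCl hZFN (Nat.card A) A rfl hA
  intro B _ _ hB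
  by_cases hR : RedX p B
  · exact Or.inl (hred B hB hR)
  · right
    unfold RedX at hR
    push Not at hR
    obtain ⟨N, hN, hN2⟩ := hR
    refine ⟨N, hN, ?_⟩
    by_cases h1 : p ∣ Nat.card N
    · exact Or.inl ⟨h1, hPr⟩
    · refine Or.inr ⟨h1, ?_, hCe⟩
      by_cases h2 : ncpl N = Nat.card N
      · exact Or.inr (hN2 h1 h2)
      · exact Or.inl h2

end Pool.Agent.DR
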