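import Pool.Agent.helper35.DR.AllDI
import Pool.Agent.helper58.DC.All
import Pool.Agent.helper49.DC.IRP2
import Pool.Agent.helper49.DC.IRC2
import Pool.Agent.helper35.DR.LocF
import Pool.Agent.helper81.DI.Final
import Pool.Agent.helper45.DR.PCH
import Pool.Agent.helper92.DR.PSB
import Pool.Agent.helper74.DR.PMP
import Pool.Agent.helper91.DR.PDL
import Pool.Agent.helper71.DR.PIR
import Pool.Agent.helper93.DR.PRL
import Pool.Agent.helper12.DR.TEX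
import Pool.Agent.helper70.DR.RST
import Pool.Agent.helper1.DR.TNM
import Pool.Agent.helper30.DR.TFW
import Pool.Agent.helper53.DR.TBW
import Pool.Agent.helper55.DR.TIV
import Pool.Agent.helper24.DR.TCL
import Pool.Agent.helper43.DR.ECD
import Pool.Agent.helper25.DR.TIN
import Pool.Agent.helper38.DR.TPR
import Pool.Agent.helper59.DR.TDU
import Pool.Agent.helper53.DR.PFU
import Pool.Agent.helper3.DR.TIS
import Pool.Agent.helper34.DR.PCO
import Pool.Agent.helper33.DR.PAL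
import Pool.Agent.helper24.DR.PFM
import Pool.Agent.helper85.DR.RCT
import Pool.Agent.helper89.DR.CHC
import Pool.Agent.helper43.DR.CHA
import Pool.Agent.helper25.DR.RYE
import Pool.Agent.helper62.DR.KLN
import Pool.Agent.helper26.DR.KSC
import Pool.Agent.helper64.DR.KCM
import Pool.Agent.helper43.DR.RDP
import Pool.Agent.helper18.DR.RYC
import Pool.Agent.helper11.DR.CCJ
import Pool.Agent.helper45.DR.CRE
import Pool.Agent.helper45.DR.CUQ
import Pool.Agent.helper77.DR.CFA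
import Pool.Agent.helper23.DR.CFB
import Pool.Agent.helper45.DR.CFC
import Pool.Agent.helper25.DR.CFI
import Pool.Agent.helper66.DR.CFD
import Pool.Agent.helper45.DR.CFO
import Pool.Agent.helper60.DR.CFE
import Pool.Agent.helper57.DR.RPA
import Pool.Agent.helper49.DR.GVM
import Pool.Agent.helper11.DR.PAB
import Pool.Agent.helper62.DR.KML
import Pool.Agent.helper2.DR.KPG
import Pool.Agent.helper45.DR.GMN
import Pool.Agent.helper11.DR.ZFN
import Pool.Agent.helper93.DR.CHB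
import Pool.Agent.helper49.DR.ZST
import Pool.Agent.helper30.DR.TIF
import Pool.Agent.helper85.DR.KTW
import Pool.Agent.helper9.DR.KPW
import Pool.Agent.helper62.DR.KCB
import Pool.Agent.helper27.DR.KBN
import Pool.Agent.helper12.DR.ZKC
import Pool.Agent.helper62.DR.ZGN
import Pool.Agent.helper75.DR.ZFL
import Pool.Agent.helper19.DR.ZCO
import Pool.Agent.helper85.DR.GCN
import Pool.Agent.helper67.DR.GCC
import Pool.Agent.helper8.DR.KNC
import Pool.Agent.helper31.DR.ZNA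
import Pool.Agent.helper97.DR.ZNB
import Pool.Agent.helper43.DR.ZNC
import Pool.Agent.helper50.DR.ZND
import Pool.Agent.helper59.DR.ZNU
import Pool.Agent.helper72.DR.HYC

/-!
# Project dr (MP_baa4d7_al): assembly of all modules
-/

set_option autoImplicit false

namespace Pool.Agent.DR.All

open Pool.Agent.DR

theorem dIRP : Pool.Agent.helper58.DC.IRP_stmt :=
  Pool.Agent.helper98.DC.IRP Pool.Agent.helper58.DC.All.dIRT Pool.Agent.helper49.DC.IRP2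
theorem dIRC : Pool.Agent.helper58.DC.IRC_stmt :=
  Pool.Agent.helper93.DC.IRC Pool.Agent.helper58.DC.All.dIRF Pool.Agent.helper58.DC.All.dIRT Pool.Agent.helper49.DC.IRC2
theorem rPCH : PCH_stmt := Pool.Agent.DR.PCH Pool.Agent.helper58.DC.All.dAS
  Pool.Agent.helper58.DC.All.dAU Pool.Agent.helper58.DC.All.dAX Pool.Agent.helper58.DC.All.dPSG
theorem rPSB : PSB_stmt := Pool.Agent.DR.PSB Pool.Agent.helper58.DC.All.dNM
  Pool.Agent.helper58.DC.All.dAE Pool.Agent.helper58.DC.All.dAU Pool.Agent.helper58.DC.All.dSK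
  (Pool.Agent.helper58.DC.All.dIO dIRP dIRC) Pool.Agent.helper58.DC.All.dIF
theorem rPMP : PMP_stmt := Pool.Agent.DR.PMP
theorem rPDL : PDL_stmt := Pool.Agent.DR.PDL
theorem rPIR : PIR_stmt := Pool.Agent.DR.PIR Pool.Agent.helper58.DC.All.dAS
  (Pool.Agent.helper58.DC.All.dIO dIRP dIRC) Pool.Agent.helper58.DC.All.dIP
  Pool.Agent.helper58.DC.All.dIF rPDL
theorem rPRL : PRL_stmt := Pool.Agent.DR.PRL rPCH rPSB rPMP rPDL rPIR
  Pool.Agent.helper58.DC.All.dIF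
theorem rTEX : TEX_stmt := Pool.Agent.DR.TEX
theorem rRST : RST_stmt := Pool.Agent.DR.RST AllDI.iB13 AllDI.iB14
theorem rTNM : TNM_stmt := Pool.Agent.DR.TNM
theorem rTFW : TFW_stmt := Pool.Agent.DR.TFW rTNM
theorem rTBW : TBW_stmt := Pool.Agent.DR.TBW rTNM
theorem rTIV : TIV_stmt := Pool.Agent.DR.TIV rTNM
theorem rTCL : TCL_stmt := Pool.Agent.DR.TCL rTFW rTBW rTIV
theorem rECD : ECD_stmt := Pool.Agent.DR.ECD
theorem rTIN : TIN_stmt := Pool.Agent.DR.TIN rTCL rECD AllDI.iB2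
theorem rTPR : TPR_stmt := Pool.Agent.DR.TPR
theorem rTDU : TDU_stmt := Pool.Agent.DR.TDU
theorem rPFU : PFU_stmt := Pool.Agent.DR.PFU rTEX rRST rTIN rTPR rTDU rECD rPMP rPDL AllDI.iB13
  (Pool.Agent.helper58.DC.All.dIO dIRP dIRC) Pool.Agent.helper58.DC.All.dIF
theorem rTIS : TIS_stmt := Pool.Agent.DR.TIS Pool.Agent.helper58.DC.All.dIRF
theorem rPCO : PCO_stmt := Pool.Agent.DR.PCO rTIS rRST rPMP rPDL AllDI.iB13
  (Pool.Agent.helper58.DC.All.dIO dIRP dIRC) Pool.Agent.helper58.DC.All.dIF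
  Pool.Agent.helper58.DC.All.dSK
theorem rPAL : PAL_stmt := Pool.Agent.DR.PAL AllDI.iD1 AllDI.iB2
theorem rPFM : PFM_stmt := Pool.Agent.DR.PFM rPDL dIRP Pool.Agent.helper58.DC.All.dIP
  Pool.Agent.helper58.DC.All.dIF Pool.Agent.helper58.DC.All.dTI Pool.Agent.helper58.DC.All.dSK
  (Pool.Agent.helper58.DC.All.dPT dIRP)
theorem rRCT : RCT_stmt := Pool.Agent.DR.RCT rRST AllDI.iB13
theorem rRBLX : RBLX_stmt := Pool.Agent.DR.RBLX AllDI.iD1 AllDI.iD5 AllDI.iC15 AllDI.iC9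
  AllDI.iC16 AllDI.iC1 AllDI.iB2
theorem rRTPX : RTPX_stmt := Pool.Agent.DR.RTPX AllDI.iA2 AllDI.iA4 AllDI.iA7 AllDI.iA8 AllDI.iA14
  rRCT rRBLX
theorem rCHC : CHC_stmt := Pool.Agent.DR.CHC
theorem rCHA : CHA_stmt := Pool.Agent.DR.CHA AllDI.iA3 AllDI.iA10 rCHC
theorem rRYE : RYE_stmt := Pool.Agent.DR.RYE
theorem rKLN : KLN_stmt := Pool.Agent.DR.KLN AllDI.iB1 AllDI.iB2
theorem rKSC : KSC_stmt := Pool.Agent.DR.KSC
theorem rKCM : KCM_stmt := Pool.Agent.DR.KCM rKSC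
theorem rRDP : RDP_stmt := Pool.Agent.DR.RDP rKLN rKCM Pool.Agent.helper58.DC.All.dTI
  Pool.Agent.helper58.DC.All.dIF Pool.Agent.helper58.DC.All.dIRT Pool.Agent.helper49.DC.IRP2
  Pool.Agent.helper49.DC.IRC2
theorem rRYC : RYC_stmt := Pool.Agent.DR.RYC AllDI.iB13 AllDI.iB14 Pool.Agent.helper58.DC.All.dIF
  rRDP
theorem rRCCX : RCCX_stmt := Pool.Agent.DR.RCCX AllDI.iA2 AllDI.iA4 AllDI.iA7 AllDI.iA8 AllDI.iA14
  rRYE rRYC rRBLX
theorem rCCJ : CCJ_stmt := Pool.Agent.DR.CCJ Pool.Agent.helper58.DC.All.dIF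
theorem rCRE : CRE_stmt := Pool.Agent.DR.CRE AllDI.iB2 AllDI.iB3 AllDI.iB9a
  Pool.Agent.helper58.DC.All.dIRT
theorem rCUQ : CUQ_stmt := Pool.Agent.DR.CUQ AllDI.iB2
theorem rCFA : CFA_stmt := Pool.Agent.DR.CFA AllDI.iB2 rCRE rCUQ rCCJ
theorem rCFB : CFB_stmt := Pool.Agent.DR.CFB AllDI.iB2 rCRE rCUQ rCCJ rCFA
theorem rCFC : CFC_stmt := Pool.Agent.DR.CFC Pool.Agent.helper58.DC.All.dIF
theorem rCFI : CFI_stmt := Pool.Agent.DR.CFI rCCJ rCFA rCFB rCFC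
theorem rCFD : CFD_stmt := Pool.Agent.DR.CFD AllDI.iB2 rCCJ rCFA rCFB rCFC rCFI
theorem rCFO : CFO_stmt := Pool.Agent.DR.CFO
theorem rCFE : CFE_stmt := Pool.Agent.DR.CFE rCFD rCFO
theorem rRPA : RPA_stmt := Pool.Agent.DR.RPA AllDI.iA7 AllDI.iA8 AllDI.iA14 AllDI.iB13 AllDI.iC1
  AllDI.iC9 AllDI.iC10 AllDI.iC16 Pool.Agent.helper58.DC.All.dIM rCFE rRST
theorem rRLAX : RLAX_stmt := Pool.Agent.DR.RLAX rRTPX rCHA rRCCX rRPA
theorem rGVM : GVM_stmt := Pool.Agent.DR.GVM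
theorem rPEQX : PEQX_stmt := Pool.Agent.DR.PEQX Pool.Agent.helper58.DC.All.dIF rPRL rPFU rPCO rPAL
  rPFM rPMP rRLAX rGVM
theorem rPAB : PAB_stmt := Pool.Agent.DR.PAB
theorem rKML : KML_stmt := Pool.Agent.DR.KML
theorem rKPG : KPG_stmt := Pool.Agent.DR.KPG rKML rKCM
theorem rGMN : GMN_stmt := Pool.Agent.DR.GMN
theorem rPCAX : PCAX_stmt := Pool.Agent.DR.PCAX rPEQX rPAB rKML rKPG rGMN rKLN rPAL AllDI.iB2
theorem rZFN : ZFN_stmt := Pool.Agent.DR.ZFN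
theorem rCHB : CHB_stmt := Pool.Agent.DR.CHB
theorem rRLBX : RLBX_stmt := Pool.Agent.DR.RLBX rRTPX rCHB rECD rRPA
theorem rZST : ZST_stmt := Pool.Agent.DR.ZST
theorem rTIF : TIF_stmt := Pool.Agent.DR.TIF
theorem rKTW : KTW_stmt := Pool.Agent.DR.KTW
theorem rKPW : KPW_stmt := Pool.Agent.DR.KPW rKTW
theorem rKCB : KCB_stmt := Pool.Agent.DR.KCB
theorem rKBN : KBN_stmt := Pool.Agent.DR.KBN rKPW rKCB
theorem rZKC : ZKC_stmt := Pool.Agent.DR.ZKC rKBN rKCB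
theorem rZGN : ZGN_stmt := Pool.Agent.DR.ZGN rZFN rZKC rKML rKLN AllDI.iB2
theorem rZFL : ZFL_stmt := Pool.Agent.DR.ZFL rTEX rRST rTIF rTIN rZGN rECD rZFN AllDI.iB13
theorem rZCO : ZCO_stmt := Pool.Agent.DR.ZCO rZFN rZST rRST rRDP rECD AllDI.iB2 AllDI.iB13
theorem rZRLX : ZRLX_stmt := Pool.Agent.DR.ZRLX AllDI.iD1 AllDI.iB2 rGVM rRLBX rZFN rZST rZFL rZCO
theorem rGCN : GCN_stmt := Pool.Agent.DR.GCN
theorem rGCC : GCC_stmt := Pool.Agent.DR.GCC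
theorem rKNC : KNC_stmt := Pool.Agent.DR.KNC rKTW rKCM
theorem rZNA : ZNA_stmt := Pool.Agent.DR.ZNA rZFN rKLN rKSC rKNC
theorem rZNB : ZNB_stmt := Pool.Agent.DR.ZNB rZFN rGCC rKCM rKLN
theorem rZNC : ZNC_stmt := Pool.Agent.DR.ZNC rGCC rZFN rZNB
theorem rZND : ZND_stmt := Pool.Agent.DR.ZND rGCC
theorem rZNU : ZNU_stmt := Pool.Agent.DR.ZNU rZFN rGCN rGCC rZNA rZNB rZNC rZND
theorem rZNE : ZNE_stmt := Pool.Agent.DR.ZNE rZFN rKSC rKNC rKCM rGMN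
theorem rZNUX : ZNUX_stmt := Pool.Agent.DR.ZNUX rZNU rZNE
theorem rZCAX : ZCAX_stmt := Pool.Agent.DR.ZCAX rZFN rGMN rZRLX rZNUX
theorem rHYC : HYC_stmt := Pool.Agent.DR.HYC AllDI.iB0
theorem main : FINX_stmt := Pool.Agent.DR.FINX AllDI.iD13 Pool.Agent.helper58.DC.All.dRE
  Pool.Agent.helper58.DC.All.dST AllDI.iD6 rPCAX rZCAX rGVM rZFN rHYC fun p _ M hM hp E₀ _ =>
  ((Pool.Agent.DI.FIN.2 p M hM hp E₀).1).1

end Pool.Agent.DR.All
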