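import Mathlib
import Pool.Agent.helper10.DI.C10
import Pool.Agent.helper11.DC.IRF
import Pool.Agent.helper11.DI.C11
import Pool.Agent.helper13.DI.B10
import Pool.Agent.helper14.DI.C3
import Pool.Agent.helper15.DI.A6
import Pool.Agent.helper16.DI.A7
import Pool.Agent.helper18.DI.A13
import Pool.Agent.helper18.DI.C4
import Pool.Agent.helper19.DI.A5
import Pool.Agent.helper21.DI.B9
import Pool.Agent.helper21.DI.C14
import Pool.Agent.helper22.DI.D0
import Pool.Agent.helper22.DI.D2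
import Pool.Agent.helper22.DI.D4
import Pool.Agent.helper24.DI.D6
import Pool.Agent.helper30.DC.IRT
import Pool.Agent.helper31.DC.TI
import Pool.Agent.helper31.DI.C16
import Pool.Agent.helper31.DI.D11
import Pool.Agent.helper33.DI.C2
import Pool.Agent.helper34.DI.A3
import Pool.Agent.helper34.DI.A8
import Pool.Agent.helper34.DI.A9
import Pool.Agent.helper43.DI.B5
import Pool.Agent.helper43.DI.B9b
import Pool.Agent.helper45.DI.C6
import Pool.Agent.helper48.DI.B0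
import Pool.Agent.helper50.DI.C5
import Pool.Agent.helper51.DC.IM
import Pool.Agent.helper51.DI.C7
import Pool.Agent.helper51.DI.D3
import Pool.Agent.helper52.DI.C12
import Pool.Agent.helper53.DI.A1
import Pool.Agent.helper53.DI.B14
import Pool.Agent.helper53.DI.B9a
import Pool.Agent.helper54.DI.B2
import Pool.Agent.helper55.DC.OM
import Pool.Agent.helper55.DC.ST
import Pool.Agent.helper6.DI.B4
import Pool.Agent.helper61.DC.RE
import Pool.Agent.helper61.DI.A14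
import Pool.Agent.helper63.DI.A10
import Pool.Agent.helper64.DC.IF
import Pool.Agent.helper64.DI.B1
import Pool.Agent.helper64.DI.B3
import Pool.Agent.helper64.DI.B8
import Pool.Agent.helper64.DI.C8
import Pool.Agent.helper65.DI.B11
import Pool.Agent.helper65.DI.D1
import Pool.Agent.helper70.DI.A11
import Pool.Agent.helper77.DI.C1
import Pool.Agent.helper77.DI.C9
import Pool.Agent.helper77.DI.D9
import Pool.Agent.helper78.DI.C15
import Pool.Agent.helper78.DI.D8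
import Pool.Agent.helper79.DC.SN
import Pool.Agent.helper80.DI.B12
import Pool.Agent.helper81.DI.D10
import Pool.Agent.helper81.DI.D12
import Pool.Agent.helper81.DI.D14
import Pool.Agent.helper81.DI.D15
import Pool.Agent.helper81.DI.D5
import Pool.Agent.helper81.DI.D7
import Pool.Agent.helper91.DC.FN
import Pool.Agent.helper91.DI.A4
import Pool.Agent.helper91.DI.B6
import Pool.Agent.helper92.DI.A12
import Pool.Agent.helper92.DI.A2
import Pool.Agent.helper93.DC.OI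
import Pool.Agent.helper93.DI.B7
import Pool.Agent.helper95.DI.C5a
import Pool.Agent.helper97.DI.C13
import Pool.Agent.helper98.DC.NM
import Pool.Agent.helper98.DI.B13
import Pool.Agent.helper98.DI.D13

/-!
# Project dr (MP_baa4d7_al): the modules of project di
-/

set_option autoImplicit false

namespace Pool.Agent.DR.AllDI

open Pool.Agent.helper58.DC

theorem iA1 : Pool.Agent.DI.A1_stmt := Pool.Agent.DI.A1
theorem iA2 : Pool.Agent.DI.A2_stmt := Pool.Agent.DI.A2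
theorem iA3 : Pool.Agent.DI.A3_stmt := Pool.Agent.DI.A3 iA1
theorem iA4 : Pool.Agent.DI.A4_stmt := Pool.Agent.DI.A4 iA1
theorem iA5 : Pool.Agent.DI.A5_stmt := Pool.Agent.DI.A5
theorem iA6 : Pool.Agent.DI.A6_stmt := Pool.Agent.DI.A6
theorem iA7 : Pool.Agent.DI.A7_stmt := Pool.Agent.DI.A7 iA2 iA3 iA4 iA5 iA6
theorem iA14 : Pool.Agent.DI.A14_stmt := Pool.Agent.DI.A14
theorem iA8 : Pool.Agent.DI.A8_stmt := Pool.Agent.DI.A8 iA14
theorem iA9 : Pool.Agent.DI.A9_stmt := Pool.Agent.DI.A9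
theorem iA10 : Pool.Agent.DI.A10_stmt := Pool.Agent.DI.A10 iA1
theorem iA11 : Pool.Agent.DI.A11_stmt := Pool.Agent.DI.A11
theorem iA12 : Pool.Agent.DI.A12_stmt := Pool.Agent.DI.A12 iA3 iA9 iA10 iA11
theorem iA13 : Pool.Agent.DI.A13_stmt := Pool.Agent.DI.A13
theorem iB0 : Pool.Agent.DI.B0_stmt := Pool.Agent.DI.B0
theorem iB1 : Pool.Agent.DI.B1_stmt := Pool.Agent.DI.B1
theorem iB2 : Pool.Agent.DI.B2_stmt := Pool.Agent.DI.B2 iB1
theorem iB3 : Pool.Agent.DI.B3_stmt := Pool.Agent.DI.B3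
theorem iB4 : Pool.Agent.DI.B4_stmt := Pool.Agent.DI.B4
theorem iB5 : Pool.Agent.DI.B5_stmt := Pool.Agent.DI.B5
theorem iB6 : Pool.Agent.DI.B6_stmt := Pool.Agent.DI.B6
theorem iB7 : Pool.Agent.DI.B7_stmt := Pool.Agent.DI.B7
theorem iB8 : Pool.Agent.DI.B8_stmt := Pool.Agent.DI.B8 iB1 iB6
theorem iB9a : Pool.Agent.DI.B9a_stmt := Pool.Agent.DI.B9a iB1 iB2 iB3
theorem iIRTx : Pool.Agent.helper58.DC.IRT_stmt := Pool.Agent.helper30.DC.IRT
theorem iIRFx : Pool.Agent.helper58.DC.IRF_stmt := Pool.Agent.helper11.DC.IRF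
theorem iIFx : Pool.Agent.helper58.DC.IF_stmt := Pool.Agent.helper64.DC.IF iIRFx iIRTx
theorem iB9b : Pool.Agent.DI.B9b_stmt := Pool.Agent.DI.B9b iB0 iB1 iB2 iB3 iB7 iB9a iIRTx iIFx
theorem iB9 : Pool.Agent.DI.B9_stmt := Pool.Agent.DI.B9 iIFx iB1 iB2 iB3 iB5 iB6 iB8 iB9b
theorem iB10 : Pool.Agent.DI.B10_stmt := Pool.Agent.DI.B10 iIRTx iB0 iB9
theorem iB11 : Pool.Agent.DI.B11_stmt := Pool.Agent.DI.B11
theorem iB12 : Pool.Agent.DI.B12_stmt := Pool.Agent.DI.B12 iIFx iB10 iB11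
theorem iB13 : Pool.Agent.DI.B13_stmt := Pool.Agent.DI.B13 iIRTx
theorem iB14 : Pool.Agent.DI.B14_stmt := Pool.Agent.DI.B14
theorem iC1 : Pool.Agent.DI.C1_stmt := Pool.Agent.DI.C1
theorem iC2 : Pool.Agent.DI.C2_stmt := Pool.Agent.DI.C2
theorem iC3 : Pool.Agent.DI.C3_stmt := Pool.Agent.DI.C3
theorem iC4 : Pool.Agent.DI.C4_stmt := Pool.Agent.DI.C4 iB1 iB4
theorem iTIx : Pool.Agent.helper58.DC.TI_stmt := Pool.Agent.helper31.DC.TI iIRTx
theorem iC5 : Pool.Agent.DI.C5_stmt := Pool.Agent.DI.C5 iC3 iTIx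
theorem iC5a : Pool.Agent.DI.C5a_stmt := Pool.Agent.DI.C5a iC5
theorem iC6 : Pool.Agent.DI.C6_stmt := Pool.Agent.DI.C6
theorem iC7 : Pool.Agent.DI.C7_stmt := Pool.Agent.DI.C7 iB2 iC1 iC3 iC4 iC5a iC6
theorem iC8 : Pool.Agent.DI.C8_stmt := Pool.Agent.DI.C8 iC1 iC3 iC4
theorem iC9 : Pool.Agent.DI.C9_stmt := Pool.Agent.DI.C9 iA13 iC7 iC8
theorem iC10 : Pool.Agent.DI.C10_stmt := Pool.Agent.DI.C10 iC1 iC2 iC3 iC4 iTIx iIRFx
theorem iC11 : Pool.Agent.DI.C11_stmt := Pool.Agent.DI.C11 iB1 iC1 iC3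
theorem iOIx : Pool.Agent.helper58.DC.OI_stmt := Pool.Agent.helper93.DC.OI
theorem iC12 : Pool.Agent.DI.C12_stmt := Pool.Agent.DI.C12 iC1 iB1 iOIx iTIx
theorem iC13 : Pool.Agent.DI.C13_stmt := Pool.Agent.DI.C13 iC1 iC3 iC12 iB1 iB2
theorem iC14 : Pool.Agent.DI.C14_stmt := Pool.Agent.DI.C14 iC12 iC5 iC3
theorem iOMx : Pool.Agent.helper58.DC.OM_stmt := Pool.Agent.helper55.DC.OM
theorem iIMx : Pool.Agent.helper58.DC.IM_stmt := Pool.Agent.helper51.DC.IM iOMx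
theorem iC15 : Pool.Agent.DI.C15_stmt := Pool.Agent.DI.C15 iIMx iIRFx
theorem iC16 : Pool.Agent.DI.C16_stmt := Pool.Agent.DI.C16 iC1
theorem iD0 : Pool.Agent.DI.D0_stmt := Pool.Agent.DI.D0
theorem iNMx : Pool.Agent.helper58.DC.NM_stmt := Pool.Agent.helper98.DC.NM
theorem iSNx : Pool.Agent.helper58.DC.SN_stmt := Pool.Agent.helper79.DC.SN
theorem iD1 : Pool.Agent.DI.D1_stmt := Pool.Agent.DI.D1 iNMx iSNx iIFx iOMx
theorem iD2 : Pool.Agent.DI.D2_stmt := Pool.Agent.DI.D2 iB13 iB14 iB2 iSNx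
theorem iD3 : Pool.Agent.DI.D3_stmt := Pool.Agent.DI.D3 iB2 iB12 iB13 iD2
theorem iD4 : Pool.Agent.DI.D4_stmt := Pool.Agent.DI.D4 iD3 iD1 iC9 iC16 iC1 iB2
theorem iD5 : Pool.Agent.DI.D5_stmt := Pool.Agent.DI.D5 iC13
theorem iD6 : Pool.Agent.DI.D6_stmt := Pool.Agent.DI.D6 iA13 iB2 iC11 iC14 iTIx iIMx
theorem iD7 : Pool.Agent.DI.D7_stmt := Pool.Agent.DI.D7 iB2 iC1 iC9 iC15 iD1 iD5
theorem iD8 : Pool.Agent.DI.D8_stmt := Pool.Agent.DI.D8
theorem iD9 : Pool.Agent.DI.D9_stmt := Pool.Agent.DI.D9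
theorem iD10 : Pool.Agent.DI.D10_stmt := Pool.Agent.DI.D10 iA2 iA4 iA7 iA8 iA14 iB0 iC15 iD4 iD5 iD9
theorem iD11 : Pool.Agent.DI.D11_stmt := Pool.Agent.DI.D11 iA2 iA4 iA7 iA8 iA12 iA14 iB0 iC1 iC10 iC15 iC16 iIMx iD0 iD4 iD7 iD8 iD10
theorem iD13 : Pool.Agent.DI.D13_stmt := Pool.Agent.DI.D13
theorem iD12 : Pool.Agent.DI.D12_stmt := Pool.Agent.DI.D12 iD13
theorem iREx : Pool.Agent.helper58.DC.RE_stmt := Pool.Agent.helper61.DC.RE iIFx
theorem iSTx : Pool.Agent.helper58.DC.ST_stmt := Pool.Agent.helper55.DC.ST iIMx iIFx iTIx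
theorem iFNx : Pool.Agent.helper58.DC.FN_stmt := Pool.Agent.helper91.DC.FN iIRFx
theorem iD14 : Pool.Agent.DI.D14_stmt := Pool.Agent.DI.D14 iREx iSTx iFNx iD6 iD11 iD12 iD13
theorem iD15 : Pool.Agent.DI.D15_stmt := Pool.Agent.DI.D15 iD14 iREx

end Pool.Agent.DR.AllDI
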